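import Pool.Agent.H343Y.Defs
import Pool.Agent.H343Y.C2
import Pool.Agent.H343Y.D2
import Pool.Agent.H336R2.HD.A1
import Pool.Agent.H336R2.HD.A3
import Pool.Agent.H336R2.HD.D1

/-!
# p-adic size of the Hankel determinant
-/

open Polynomial Pool.Agent.H337R2 Filter Topology

namespace Pool.Agent.H343Y

noncomputable section


/-- node polynomials -/
def D3_ND (n : ℕ) (κ : ℕ → ℕ) (i : ℕ) : ℚ[X] := ∏ l ∈ Finset.range i, XN n (κ l)

lemma D3_ND_monic (n : ℕ) (κ : ℕ → ℕ) (i : ℕ) : (D3_ND n κ i).Monic ∧ (D3_ND n κ i).natDegree = i := by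
  unfold D3_ND XN
  refine ⟨Polynomial.monic_prod_of_monic _ _ fun l _ => Polynomial.monic_X_add_C _, ?_⟩
  rw [Polynomial.natDegree_prod_of_monic _ _ fun l _ => Polynomial.monic_X_add_C _]
  simp only [Polynomial.natDegree_X_add_C, Finset.sum_const, Finset.card_range, smul_eq_mul, mul_one]

lemma D3_XN_comp (n r : ℕ) :
    (XN n r).comp (xp n) = (X + C (r : ℚ)) * (X + C ((16 * n : ℕ) - r : ℚ)) := by
  unfold XN xp
  rw [Polynomial.add_comp, Polynomial.X_comp, Polynomial.C_comp]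
  simp only [Polynomial.C_mul, Polynomial.C_sub, Nat.cast_mul, Nat.cast_ofNat]
  ring

lemma D3_norm_int (p : ℕ) [Fact p.Prime] (z : ℤ) : padicNorm p (z : ℚ) ≤ 1 := padicNorm.of_int z

lemma D3_lin (p : ℕ) [Fact p.Prime] (ρ : ℚ) (hρ : 1 ≤ ρ) (z : ℤ) (a : ℚ) (ha : a = (z : ℚ)) :
    PB p ρ 1 (PowerSeries.X + PowerSeries.C a) := by
  refine PB.linX (by linarith) zero_le_one ?_ (by linarith)
  rw [ha]
  exact D3_norm_int p z

lemma D3_lin_dvd (p : ℕ) [hp : Fact p.Prime] (z : ℤ) (hz : (p : ℤ) ∣ z) (a : ℚ) (ha : a = (z : ℚ)) :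
    PB p (p : ℚ) (p : ℚ)⁻¹ (PowerSeries.X + PowerSeries.C a) := by
  have hp0 : (0 : ℚ) < p := by exact_mod_cast hp.1.pos
  refine PB.linX hp0.le (inv_nonneg.2 hp0.le) ?_ (by rw [inv_mul_cancel₀ hp0.ne'])
  rw [ha]
  have := (padicNorm.dvd_iff_norm_le (p := p) (n := 1) (z := z)).1 (by simpa using hz)
  simpa using this

lemma D3_xp (p : ℕ) [Fact p.Prime] (ρ : ℚ) (hρ : 1 ≤ ρ) (n k : ℕ) :
    PB p ρ 1 (TS (-(k : ℚ)) (xp n)) := by
  unfold xp
  rw [map_mul, TS_X, TS_lin]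
  have h1 := D3_lin p ρ hρ (-(k : ℤ)) (-(k : ℚ)) (by push_cast; ring)
  have h2 := D3_lin p ρ hρ (-(k : ℤ) + (16 * n : ℕ)) (-(k : ℚ) + ((16 * n : ℕ) : ℚ)) (by push_cast; ring)
  have := PB.mul (by linarith) zero_le_one zero_le_one h1 h2
  simpa using this

lemma D3_XN (p : ℕ) [Fact p.Prime] (ρ : ℚ) (hρ : 1 ≤ ρ) (n k r : ℕ) :
    PB p ρ 1 (TS (-(k : ℚ)) ((XN n r).comp (xp n))) := by
  rw [D3_XN_comp, map_mul, TS_lin, TS_lin]
  have h1 := D3_lin p ρ hρ (-(k : ℤ) + r) (-(k : ℚ) + (r : ℚ)) (by push_cast; ring)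
  have h2 := D3_lin p ρ hρ (-(k : ℤ) + ((16 * n : ℕ) - r)) (-(k : ℚ) + (((16 * n : ℕ) : ℚ) - (r : ℚ)))
    (by push_cast; ring)
  have := PB.mul (by linarith) zero_le_one zero_le_one h1 h2
  simpa using this

lemma D3_XN_zero (p : ℕ) [hp : Fact p.Prime] (n k r : ℕ)
    (h : (p : ℤ) ∣ -(k : ℤ) + r ∨ (p : ℤ) ∣ -(k : ℤ) + ((16 * n : ℕ) - r)) :
    PB p (p : ℚ) (p : ℚ)⁻¹ (TS (-(k : ℚ)) ((XN n r).comp (xp n))) := by
  have hp0 : (0 : ℚ) < p := by exact_mod_cast hp.1.pos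
  have hp1 : (1 : ℚ) ≤ p := by exact_mod_cast hp.1.one_le
  rw [D3_XN_comp, map_mul, TS_lin, TS_lin]
  have e1 : (-(k : ℚ) + (r : ℚ)) = ((-(k : ℤ) + r : ℤ) : ℚ) := by push_cast; ring
  have e2 : (-(k : ℚ) + (((16 * n : ℕ) : ℚ) - (r : ℚ))) = ((-(k : ℤ) + ((16 * n : ℕ) - r) : ℤ) : ℚ) := by
    push_cast; ring
  rcases h with h | h
  · have h1 := D3_lin_dvd p _ h _ e1
    have h2 := D3_lin p (p : ℚ) hp1 _ _ e2
    have := PB.mul hp0.le (inv_nonneg.2 hp0.le) zero_le_one h1 h2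
    simpa using this
  · have h1 := D3_lin p (p : ℚ) hp1 _ _ e1
    have h2 := D3_lin_dvd p _ h _ e2
    have := PB.mul hp0.le zero_le_one (inv_nonneg.2 hp0.le) h1 h2
    simpa using this

/-- if `kap n p k = r` then `p` divides one of the two differences -/
lemma D3_kap_dvd {n p k r : ℕ} (hk : k ≤ 16 * n) (h : r = kap n p k) :
    (p : ℤ) ∣ -(k : ℤ) + r ∨ (p : ℤ) ∣ -(k : ℤ) + ((16 * n : ℕ) - r) := by
  have h1 : (p : ℤ) ∣ (k : ℤ) - (k % p : ℕ) := by
    rw [Int.natCast_mod]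
    exact Int.dvd_self_sub_emod
  have h2 : (p : ℤ) ∣ ((16 * n - k : ℕ) : ℤ) - ((16 * n - k) % p : ℕ) := by
    rw [Int.natCast_mod]
    exact Int.dvd_self_sub_emod
  unfold kap at h
  rcases min_choice (k % p) ((16 * n - k) % p) with h' | h'
  · left
    rw [h, h', neg_add_eq_sub, ← dvd_neg, neg_sub]
    exact h1
  · right
    rw [h, h']
    have e : -(k : ℤ) + ((16 * n : ℕ) - (((16 * n - k) % p : ℕ) : ℤ)) =
        ((16 * n - k : ℕ) : ℤ) - ((16 * n - k) % p : ℕ) := by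
      rw [Nat.cast_sub hk]
      ring
    rw [e]
    exact h2

lemma D3_ND_PB1 (p : ℕ) [Fact p.Prime] (ρ : ℚ) (hρ : 1 ≤ ρ) (n k : ℕ) (κ : ℕ → ℕ) (i : ℕ) :
    PB p ρ 1 (TS (-(k : ℚ)) ((D3_ND n κ i).comp (xp n))) := by
  unfold D3_ND
  rw [Polynomial.prod_comp, map_prod]
  have := PB.prod (p := p) (Finset.range i) (fun _ => (1 : ℚ))
    (fun l => TS (-(k : ℚ)) ((XN n (κ l)).comp (xp n))) (by linarith : (0 : ℚ) ≤ ρ)
    (fun _ _ => zero_le_one) (fun l _ => D3_XN p ρ hρ n k (κ l))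
  simpa using this

lemma D3_ND_PB (p : ℕ) [hp : Fact p.Prime] (n k : ℕ) (hk : k ≤ 16 * n) (κ : ℕ → ℕ) (i : ℕ) :
    PB p (p : ℚ) ((p : ℚ)⁻¹ ^ ((Finset.range i).filter fun l => κ l = kap n p k).card)
      (TS (-(k : ℚ)) ((D3_ND n κ i).comp (xp n))) := by
  have hp0 : (0 : ℚ) < p := by exact_mod_cast hp.1.pos
  have hp1 : (1 : ℚ) ≤ p := by exact_mod_cast hp.1.one_le
  unfold D3_ND
  rw [Polynomial.prod_comp, map_prod]
  have h := PB.prod (p := p) (Finset.range i) (fun l => if κ l = kap n p k then (p : ℚ)⁻¹ else 1)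
    (fun l => TS (-(k : ℚ)) ((XN n (κ l)).comp (xp n))) hp0.le
    (fun l _ => by split_ifs <;> positivity) (fun l _ => by
      show PB p (p : ℚ) (if κ l = kap n p k then (p : ℚ)⁻¹ else 1) _
      split_ifs with hl
      · exact D3_XN_zero p n k (κ l) (D3_kap_dvd hk hl)
      · exact D3_XN p (p : ℚ) hp1 n k (κ l))
  rw [Finset.prod_ite, Finset.prod_const, Finset.prod_const_one, mul_one] at h
  exact h

lemma D3_EE (n : ℕ) (Q Q' : ℚ[X]) : EE n (Q * Q') = xp n ^ 74 * (Q.comp (xp n) * Q'.comp (xp n)) := by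
  unfold EE
  rw [Polynomial.mul_comp, Polynomial.mul_comp, Polynomial.X_pow_comp]

theorem D3_det_padic {n p : ℕ} [Fact p.Prime] (hn : 1 ≤ n) (hp2 : 16 * n < p ^ 2) (q : ℕ) (u : ℕ → ℚ)
    (hu : UInt q u) (m : ℕ) (μ : ℤ) (S : Finset ℕ) (hS : S ⊆ Kset n p)
    (hcst : padicNorm p (cstN n) ≤ (p : ℚ) ^ μ)
    (h : ∀ k ∈ Finset.Icc (3 * n) (13 * n), kap n p k ∈ S ∨
      (k < 2 * n + 1 + p ∧ ∀ k' ∈ Finset.Icc (3 * n) (13 * n), k' ≠ k → ¬ (p : ℤ) ∣ (k' : ℤ) - k)) :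
    padicNorm p ((q : ℚ) ^ m * DET n u m) ≤ (p : ℚ) ^ (m * μ + ∑ κ ∈ S, TT (6 - eeN p n κ - μ)) := by
  have hpp : p.Prime := Fact.out
  have hp0 : (0 : ℚ) < p := by exact_mod_cast hpp.pos
  have hp1 : (1 : ℚ) ≤ p := by exact_mod_cast hpp.one_le
  have hgreedy : ∃ (κ : ℕ → ℕ) (s : ℕ → ℤ), (∀ i, μ ≤ s i) ∧
      (∑ i ∈ Finset.range m, s i ≤ m * μ + ∑ k ∈ S, TT (6 - eeN p n k - μ)) ∧
      ∀ k ∈ S, ∀ i, 6 - eeN p n k - 2 * (((Finset.range i).filter fun l => κ l = k).card : ℤ) ≤ s i := by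
    rcases S.eq_empty_or_nonempty with hS0 | hS0
    · refine ⟨fun _ => 0, fun _ => μ, fun _ => le_rfl, ?_, ?_⟩
      · rw [hS0, Finset.sum_empty, add_zero, Finset.sum_const, Finset.card_range, nsmul_eq_mul]
      · intro k hk
        rw [hS0] at hk
        exact absurd hk (Finset.notMem_empty k)
    · obtain ⟨κ, s, -, h2, h3, h4⟩ := H336R2.HD.D1_greedy S hS0 (fun k => 6 - eeN p n k) μ m
      exact ⟨κ, s, h2, h3, h4⟩
  obtain ⟨κ, s, hs1, hs2, hs3⟩ := hgreedy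
  have hmat : padicNorm p (Matrix.of fun i j : Fin m =>
      (q : ℚ) * NL n u (D3_ND n κ i * D3_ND n κ j)).det ≤ ∏ i ∈ Finset.range m, (p : ℚ) ^ (s i) := by
    refine H336R2.HD.A3_padic_det p m _ (fun i => (p : ℚ) ^ (s i)) (fun i => by positivity) fun i j => ?_
    rw [Matrix.of_apply, NL_apply]
    have hW : padicNorm p ((q : ℚ) * xf n u (PPn n * EE n (D3_ND n κ i * D3_ND n κ j))) ≤
        (p : ℚ) ^ ((s i + s j) / 2) := by
      refine C2_xf_le hn hp2 q u hu _ ((p : ℚ) ^ ((s i + s j) / 2))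
        (fun k => (p : ℚ)⁻¹ ^ ((Finset.range i.1).filter fun l => κ l = kap n p k).card *
          (p : ℚ)⁻¹ ^ ((Finset.range j.1).filter fun l => κ l = kap n p k).card)
        (fun k => by positivity) ?_ ?_ ?_ ?_
      · intro k hk
        have hk18 : k ≤ 16 * n := by
          have := (Finset.mem_Icc.1 hk).2
          omega
        rw [D3_EE, map_mul, map_pow, map_mul]
        have h1 := PB.pow hp0.le zero_le_one (D3_xp p (p : ℚ) hp1 n k) 74
        have h2 := PB.mul hp0.le (by positivity) (by positivity) (D3_ND_PB p n k hk18 κ i)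
          (D3_ND_PB p n k hk18 κ j)
        have h3 := PB.mul hp0.le (by positivity) (by positivity) h1 h2
        simpa using h3
      · intro k hk
        rw [D3_EE, map_mul, map_pow, map_mul]
        have h1 := PB.pow zero_le_one zero_le_one (D3_xp p 1 le_rfl n k) 74
        have h2 := PB.mul zero_le_one zero_le_one zero_le_one (D3_ND_PB1 p 1 le_rfl n k κ i)
          (D3_ND_PB1 p 1 le_rfl n k κ j)
        have h3 := PB.mul zero_le_one (by norm_num) (by norm_num) h1 h2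
        simpa using h3
      · refine le_trans hcst (zpow_le_zpow_right₀ hp1 ?_)
        have h1 := hs1 i
        have h2 := hs1 j
        omega
      · intro k hk
        have hk18 : k ≤ 16 * n := by
          have := (Finset.mem_Icc.1 hk).2
          omega
        rcases h k hk with h1 | h1
        · left
          have h2 := hs3 _ h1 i
          have h3 := hs3 _ h1 j
          rw [D2_ee_kap hn hpp.pos hk18] at h2 h3
          set a := ((Finset.range i.1).filter fun l => κ l = kap n p k).card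
          set b := ((Finset.range j.1).filter fun l => κ l = kap n p k).card
          have e : (p : ℚ) ^ (6 - eeN p n k) * ((p : ℚ)⁻¹ ^ a * (p : ℚ)⁻¹ ^ b) =
              (p : ℚ) ^ (6 - eeN p n k - a - b : ℤ) := by
            generalize 6 - eeN p n k = z
            rw [zpow_sub₀ hp0.ne', zpow_sub₀ hp0.ne', zpow_natCast, zpow_natCast,
              inv_pow, inv_pow, div_eq_mul_inv, div_eq_mul_inv, mul_assoc]
          rw [e]
          refine zpow_le_zpow_right₀ hp1 ?_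
          omega
        · exact Or.inr h1
    calc padicNorm p ((q : ℚ) * xf n u (PPn n * EE n (D3_ND n κ i * D3_ND n κ j))) ^ 2
        ≤ ((p : ℚ) ^ ((s i + s j) / 2)) ^ 2 := pow_le_pow_left₀ (padicNorm.nonneg _) hW 2
      _ = (p : ℚ) ^ ((s i + s j) / 2 * 2) := by
          rw [← zpow_natCast, ← zpow_mul]
          rfl
      _ ≤ (p : ℚ) ^ (s i + s j) := zpow_le_zpow_right₀ hp1 (by omega)
      _ = (p : ℚ) ^ (s i) * (p : ℚ) ^ (s j) := zpow_add₀ hp0.ne' _ _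
  have hdet : (Matrix.of fun i j : Fin m =>
      (q : ℚ) * NL n u (D3_ND n κ i * D3_ND n κ j)).det = (q : ℚ) ^ m * DET n u m := by
    have h1 : (Matrix.of fun i j : Fin m => (q : ℚ) * NL n u (D3_ND n κ i * D3_ND n κ j)) =
        (q : ℚ) • (Matrix.of fun i j : Fin m => NL n u (D3_ND n κ i * D3_ND n κ j)) := by
      ext i j
      simp
    rw [h1, Matrix.det_smul, Fintype.card_fin,
      H336R2.HD.A1_det_monic (NL n u) m (D3_ND n κ) (fun i _ => D3_ND_monic n κ i)]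
    rfl
  rw [← hdet]
  refine le_trans hmat ?_
  have hprod : ∏ i ∈ Finset.range m, (p : ℚ) ^ (s i) = (p : ℚ) ^ (∑ i ∈ Finset.range m, s i) := by
    clear hmat hdet hs2
    induction m with
    | zero => simp
    | succ m ih => rw [Finset.prod_range_succ, Finset.sum_range_succ, zpow_add₀ hp0.ne', ih]
  rw [hprod]
  exact zpow_le_zpow_right₀ hp1 hs2

end

end Pool.Agent.H343Y
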