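import Pool.Agent.H343Y.DefsG

/-!
# Data of the archimedean part: atoms, exponents, exponents of the bounds; the basis `P_i`
-/

open Polynomial Pool.Agent.H337R2

namespace Pool.Agent.H343Y

noncomputable section

/-- atoms -/
def la1 : List (ℚ × ℚ) := [(23/10, 1/10), (87/10, 21/5), (161/10, 25/2), (122/5, 213/10), (173/5, 158/5), (233/5, 447/10), (296/5, 288/5), (779/10, 757/10), (104, 205/2), (1363/10, 138)]

/-- exponents (6 stages, 10 atoms, each stage of total exponent 66) -/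
def ls1 : List (List ℕ) := [
   [18, 23, 23, 2, 0, 0, 0, 0, 0, 0],
   [7, 7, 9, 18, 25, 0, 0, 0, 0, 0],
   [5, 4, 3, 10, 6, 26, 12, 0, 0, 0],
   [2, 4, 5, 0, 9, 2, 16, 28, 0, 0],
   [3, 1, 2, 3, 2, 6, 3, 13, 33, 0],
   [2, 1, 2, 0, 3, 4, 2, 7, 11, 34]]

/-- bounds: powers of two, shifted by `50000` -/
def lt1 : List ℕ := [1119, 7309, 14285, 21684, 29441, 37501, 45852]

abbrev at1 (k : ℕ) : ℚ × ℚ := la1.getD k (0, 0)
abbrev sg1 (s k : ℕ) : ℕ := (ls1.getD s []).getD k 0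
abbrev t1 (s : ℕ) : ℕ := lt1.getD s 0

/-- stage polynomial, degree `132` -/
def C1 (N s : ℕ) : ℚ[X] := ∏ k ∈ Finset.range 10, qa N (at1 k).1 (at1 k).2 ^ sg1 s k

/-- `∏ |q|^(4 σ)` of stage `s`, on the contour starting at `c` -/
def Q1 (c : ℚ) (s : ℕ) (ρ : ℝ) : ℝ := ∏ k ∈ Finset.range 10, Qb c (at1 k).1 (at1 k).2 ρ ^ (2 * sg1 s k)

/-- number of factors `C1 N s` in `P_i` -/
def e1 (N i s : ℕ) : ℕ := min N ((i - 132 * N * s) / 132)

/-- the basis: `P_i` for `i < 792 N` -/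
def PN (N i : ℕ) : ℚ[X] := (∏ s ∈ Finset.range 6, C1 N s ^ e1 N i s) * X ^ (i % 132)

/-- exponent of two in the bound, times two, shifted by `50000 N` -/
def EX (N i : ℕ) : ℕ := t1 0 * N + ∑ s ∈ Finset.range 6, (t1 (s + 1) - t1 s) * e1 N i s

/-- the constant of the archimedean bound -/
def JJ : ℝ := (396 * Lam + (Real.log 2 / 2) * (17649126 - 792 * 50000)) / 576 - 2178 * Real.log 24

end

end Pool.Agent.H343Y
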