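import Pool.Agent.H343Y.F2pre
import Pool.Agent.H343Y.F1

/-! `F2_A`, `F2_B`, `F2_C`, `F2_U`. -/

open Filter Topology

namespace Pool.Agent.H343Y

noncomputable section

theorem F2_A : Tendsto (fun n : ℕ => (∑ p ∈ PS (1 / 20) 2 n, EA n p * Real.log p) / (n : ℝ) ^ 2) atTop (𝓝 (LA : ℝ)) :=
  F2_A_of F1_tent F1_const F1_floor

theorem F2_B : Tendsto (fun n : ℕ => (∑ p ∈ PS 2 (15 / 2) n, EB n p * Real.log p) / (n : ℝ) ^ 2) atTop (𝓝 (LB : ℝ)) :=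
  F2_B_of F1_tent F1_const F1_floor

theorem F2_C : Tendsto (fun n : ℕ => (∑ p ∈ PS (15 / 2) 11 n, EC n p * Real.log p) / (n : ℝ) ^ 2) atTop (𝓝 (LC : ℝ)) :=
  F2_C_of F1_tent F1_floor

theorem F2_U : Tendsto (fun n : ℕ => (∑ p ∈ PS (1 / 20) 66 n, (∑ j ∈ J, tn (66 * n) j p) * Real.log p) / (n : ℝ) ^ 2)
    atTop (𝓝 (LU : ℝ)) :=
  F2_U_of F1_tent

end

end Pool.Agent.H343Y
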