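import Pool.Agent.H343Y.Defs

/-!
The four limits `LA`, `LB`, `LC`, `LU` (rational numbers).
-/

namespace Pool.Agent.H343Y

noncomputable section

/-- the limits -/
def LA : ℚ := 231 * (2 - 1 / 20) - 528 * Ifl 10 (1 / 20) 2 + 462 * Ifl 2 (1 / 20) 2 +
  (64 * (10 * (2 - 1 / 20) + 2 * ∑ j ∈ J, It 10 j (1 / 20) 2)
    - 112 * ∑ j ∈ J, (It 13 j (1 / 20) 2 + It 1 j (1 / 20) 2 - It 11 j (1 / 20) 2 - It 3 j (1 / 20) 2)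
    + 49 / 4 * (4 * (2 - 1 / 20) + 4 * ∑ j ∈ J, It 2 j (1 / 20) 2
      + 2 * ∑ j ∈ J, (It 16 j (1 / 20) 2 - 2 * It 14 j (1 / 20) 2 + It 12 j (1 / 20) 2))) / 2

def LB : ℚ := 231 * (11 / 2) - 528 * Ifl 10 2 (15 / 2) +
  (64 * (10 * (11 / 2) + 2 * ∑ j ∈ J, It 10 j 2 (15 / 2))
    - 112 * ∑ j ∈ J, (It 13 j 2 (15 / 2) + It 1 j 2 (15 / 2) - It 11 j 2 (15 / 2) - It 3 j 2 (15 / 2))
    + (48 * (11 / 2) + 25 * ∑ j ∈ J, (It 16 j 2 (15 / 2) - 2 * It 14 j 2 (15 / 2) + It 12 j 2 (15 / 2)))) / 2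

def LC : ℚ := - 528 * Ifl 10 (15 / 2) 11 + 58 * It 10 1 (15 / 2) 11 + 132 * It 11 1 (15 / 2) 11

def LU : ℚ := ∑ j ∈ J, It 66 j (1 / 20) 66

end

end Pool.Agent.H343Y
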