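import Pool.Agent.H343Y.DefsG

/-! G2: the atoms on the contours. -/

open Polynomial Pool.Agent.H337R2

namespace Pool.Agent.H343Y

noncomputable section

lemma G2_nsq (x y : ℝ) : ‖((x : ℝ) : ℂ) + ((y : ℝ) : ℂ) * Complex.I‖ ^ 2 = x ^ 2 + y ^ 2 := by
  rw [Complex.sq_norm, Complex.normSq_add_mul_I]

lemma G2_fac (u v β : ℂ) : (u * v + β ^ 2) ^ 2 + (β * (v - u)) ^ 2 =
    (u + β * Complex.I) * (u - β * Complex.I) * ((v + β * Complex.I) * (v - β * Complex.I)) := by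
  have h : Complex.I ^ 2 = -1 := Complex.I_sq
  have h1 : (u + β * Complex.I) * (u - β * Complex.I) = u ^ 2 + β ^ 2 := by
    linear_combination (-β ^ 2) * h
  have h2 : (v + β * Complex.I) * (v - β * Complex.I) = v ^ 2 + β ^ 2 := by
    linear_combination (-β ^ 2) * h
  rw [h1, h2]; ring

lemma G2_bd {N : ℝ} (hN : 1 ≤ N) {X Y : ℝ} (hX : 15 ≤ X) :
    (N * X + 15) ^ 2 + (N * Y) ^ 2 ≤ N ^ 2 * (X ^ 2 + Y ^ 2) * (1 + 1 / N) ^ 2 := by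
  have hN0 : 0 < N := by linarith
  have h1 : N * X + 15 ≤ N * X * (1 + 1 / N) := by
    have : N * X * (1 + 1 / N) = N * X + X := by field_simp
    rw [this]; linarith
  have h0 : 0 ≤ N * X + 15 := by positivity
  have h2 : (N * X + 15) ^ 2 ≤ (N * X * (1 + 1 / N)) ^ 2 := pow_le_pow_left₀ h0 h1 2
  have h3 : (1 : ℝ) ≤ (1 + 1 / N) ^ 2 := by
    have : (0 : ℝ) ≤ 1 / N := by positivity
    nlinarith
  have h4 : (N * Y) ^ 2 ≤ (N * Y) ^ 2 * (1 + 1 / N) ^ 2 :=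
    le_mul_of_one_le_right (sq_nonneg _) h3
  nlinarith

/-- the atoms on the contours -/
theorem G2_qa {N : ℕ} (hN : 1 ≤ N) (c : ℕ) (a b : ℚ) (ha : 0 ≤ a) (hb : 0 ≤ b) (ρ : ℝ) (hρ : 0 ≤ ρ) :
    ‖aeval (xv (24 * N + 1) (zv (c * N) (N * ρ))) (qa N a b)‖ ^ 2 ≤
      (N : ℝ) ^ 8 * Qb c a b ρ * (1 + 1 / (N : ℝ)) ^ 4 := by
  have hN' : (1 : ℝ) ≤ N := by exact_mod_cast hN
  have ha' : (0 : ℝ) ≤ a := by exact_mod_cast ha
  have hb' : (0 : ℝ) ≤ b := by exact_mod_cast hb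
  set z : ℂ := zv (c * N) (N * ρ) with hz
  set u : ℂ := z - ((N : ℂ) * a - 1 / 2) with hu
  set v : ℂ := z + ((N : ℂ) * a - 1 / 2) + 16 * (24 * (N : ℂ) + 1) with hv
  set β : ℂ := (N : ℂ) * b with hβ
  have e1 : aeval (xv (24 * N + 1) z) (qa N a b) = (u * v + β ^ 2) ^ 2 + (β * (v - u)) ^ 2 := by
    unfold qa xv
    simp only [map_add, map_sub, map_pow, aeval_X, aeval_C, eq_ratCast, map_mul]
    push_cast
    rw [hu, hv, hβ]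
    ring
  have hzz : z = ((c * N : ℕ) : ℂ) - 1 / 2 + (N : ℂ) * ρ * (1 + Complex.I) := by
    rw [hz]
    unfold zv
    push_cast
    ring
  have f1 : u + β * Complex.I = (((N : ℝ) * (c + ρ - a) : ℝ) : ℂ) +
      (((N : ℝ) * (ρ + b) : ℝ) : ℂ) * Complex.I := by
    rw [hu, hβ, hzz]; push_cast; ring
  have f2 : u - β * Complex.I = (((N : ℝ) * (c + ρ - a) : ℝ) : ℂ) +
      (((N : ℝ) * (ρ - b) : ℝ) : ℂ) * Complex.I := by
    rw [hu, hβ, hzz]; push_cast; ring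
  have f3 : v + β * Complex.I = (((N : ℝ) * (c + 384 + ρ + a) + 15 : ℝ) : ℂ) +
      (((N : ℝ) * (ρ + b) : ℝ) : ℂ) * Complex.I := by
    rw [hv, hβ, hzz]; push_cast; ring
  have f4 : v - β * Complex.I = (((N : ℝ) * (c + 384 + ρ + a) + 15 : ℝ) : ℂ) +
      (((N : ℝ) * (ρ - b) : ℝ) : ℂ) * Complex.I := by
    rw [hv, hβ, hzz]; push_cast; ring
  have hX : (15 : ℝ) ≤ (c : ℝ) + 384 + ρ + a := by
    have : (0 : ℝ) ≤ c := Nat.cast_nonneg c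
    linarith
  have g3 := G2_bd (Y := ρ + b) hN' hX
  have g4 := G2_bd (Y := ρ - b) hN' hX
  rw [e1, G2_fac, norm_mul, norm_mul, norm_mul, mul_pow, mul_pow, mul_pow, f1, f2, f3, f4,
    G2_nsq, G2_nsq, G2_nsq, G2_nsq]
  have h1 : 0 ≤ ((N : ℝ) * (c + ρ - a)) ^ 2 + ((N : ℝ) * (ρ + b)) ^ 2 := by positivity
  have h2 : 0 ≤ ((N : ℝ) * (c + ρ - a)) ^ 2 + ((N : ℝ) * (ρ - b)) ^ 2 := by positivity
  have h3 : 0 ≤ ((N : ℝ) * (c + 384 + ρ + a) + 15) ^ 2 + ((N : ℝ) * (ρ + b)) ^ 2 := by positivity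
  have h4 : 0 ≤ ((N : ℝ) * (c + 384 + ρ + a) + 15) ^ 2 + ((N : ℝ) * (ρ - b)) ^ 2 := by positivity
  calc _ ≤ (((N : ℝ) * (c + ρ - a)) ^ 2 + ((N : ℝ) * (ρ + b)) ^ 2) *
        (((N : ℝ) * (c + ρ - a)) ^ 2 + ((N : ℝ) * (ρ - b)) ^ 2) *
        (((N : ℝ) ^ 2 * (((c : ℝ) + 384 + ρ + a) ^ 2 + (ρ + b) ^ 2) * (1 + 1 / (N : ℝ)) ^ 2) *
        ((N : ℝ) ^ 2 * (((c : ℝ) + 384 + ρ + a) ^ 2 + (ρ - b) ^ 2) * (1 + 1 / (N : ℝ)) ^ 2)) := by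
        refine mul_le_mul_of_nonneg_left ?_ (mul_nonneg h1 h2)
        exact mul_le_mul g3 g4 h4 (h3.trans g3)
    _ = _ := by
        unfold Qb
        push_cast
        ring

end

end Pool.Agent.H343Y
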