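import Pool.Agent.H343Y.G3L

set_option autoImplicit false

/-! # G3: numerical certificate (break points in units of `1/80`) -/

namespace Pool.Agent.H343Y

namespace G3A

open G3L

/-- break points -/
def br : List ℕ :=
  [43, 113, 206, 287, 387, 529, 653, 742, 828, 951, 1178, 1314, 1411, 1500, 1618, 1839, 1978,
   2073, 2163, 2282, 2508, 2838, 2961, 3074, 3192, 3374, 3732, 3848, 3981, 4127, 4291, 4565,
   4871, 5009, 5152, 5302, 5526, 6004, 6437, 6644, 6857, 7060, 7298, 7753, 8655, 8923, 9203,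
   9475, 9802, 10320, 11385, 11722, 12116, 12518, 12961, 13605, 14893, 17894, 25328, 45954,
   80000]

theorem c1 : chkL PL0 stA lt1 (0 :: br) = true := by
  decide +kernel

theorem c2 : chkT PL0 stA lt1 ((0 :: br).getLast (by simp)) 3 = true := by
  decide +kernel

end G3A

theorem G3_A (s : ℕ) (hs : s ≤ 6) (ρ : ℝ) (hρ : 0 ≤ ρ) :
    2 ^ 50000 * (Real.exp (-(314 / 25) * ρ) * GZ0 ρ * ∏ s' ∈ Finset.range s, Q1 0 s' ρ) ≤ 2 ^ t1 s * GP0 ρ :=
  G3L.mainA G3A.br (by simp [G3A.br]) G3A.c1 G3A.c2 s hs ρ hρ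

end Pool.Agent.H343Y
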