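import Pool.Agent.H343Y.V2a
import Pool.Agent.H343Y.B1
import Pool.Agent.H343Y.V1

/-!
# `V2`: archimedean bound of the linear form by the values on the slanted contour
-/

open Polynomial Pool.Agent.H337R2

namespace Pool.Agent.H343Y

noncomputable section

theorem V2_NL_le : ∃ C : ℝ, 0 < C ∧ ∀ n : ℕ, 2 ≤ n → ∀ u : ℕ → ℚ,
    (∀ i ∈ ({3, 5, 7, 9, 11, 13, 15} : Finset ℕ), zr (i + 6) = (u i : ℝ)) →
    ∀ Q : ℚ[X], Q.natDegree ≤ 66 * n - 68 → ∀ B : ℝ,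
    (∀ r : ℝ, 0 ≤ r → ‖Rv n (zv 0 r)‖ * ‖xv n (zv 0 r)‖ ^ 74 * ‖aeval (xv n (zv 0 r)) Q‖ *
      Real.exp (-(2 * Real.pi * r)) ≤ B * (1 + r ^ 2)⁻¹) →
    |((NL n u Q : ℚ) : ℝ)| ≤ C * B :=
  V2_NL_le_of (fun hn u hz Q hQ => B1_hasSum hn u hz Q hQ) (V1_rot (b := 7) (by norm_num))

end

end Pool.Agent.H343Y
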