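import Pool.Agent.H343Y.DefsS

/-!
# Bounds of the entries: bookkeeping (all analytic inputs are hypotheses)
-/

open Polynomial Pool.Agent.H337R2

namespace Pool.Agent.H343Y

noncomputable section

namespace G4eAux

/-- interpolation between the stages -/
theorem interp {X0 Y0 : ℝ} {Q D : ℕ → ℝ} (hX : 0 ≤ X0) (hY : 0 ≤ Y0) (hQ : ∀ s, 0 ≤ Q s)
    (hD : ∀ s, 0 ≤ D s) : ∀ (S N : ℕ) (e : ℕ → ℕ),
    (∀ s ≤ S, X0 * ∏ s' ∈ Finset.range s, Q s' ≤ Y0 * ∏ s' ∈ Finset.range s, D s') →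
    Antitone e → e 0 ≤ N →
    X0 ^ N * ∏ s ∈ Finset.range S, Q s ^ e s ≤ Y0 ^ N * ∏ s ∈ Finset.range S, D s ^ e s := by
  intro S
  induction S with
  | zero =>
    intro N e h _ _
    have := h 0 le_rfl
    simp only [Finset.range_zero, Finset.prod_empty, mul_one] at this ⊢
    exact pow_le_pow_left₀ hX this N
  | succ S ih =>
    intro N e h he he0
    have key : ∀ (Z0 : ℝ) (R : ℕ → ℝ), Z0 ^ N * ∏ s ∈ Finset.range (S + 1), R s ^ e s =
        (Z0 ^ (N - e S) * ∏ s ∈ Finset.range S, R s ^ (e s - e S)) *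
          (Z0 * ∏ s ∈ Finset.range (S + 1), R s) ^ e S := by
      intro Z0 R
      have h1 : e S ≤ N := (he (Nat.zero_le S)).trans he0
      have h2 : ∏ s ∈ Finset.range S, R s ^ e s =
          (∏ s ∈ Finset.range S, R s ^ (e s - e S)) * (∏ s ∈ Finset.range S, R s) ^ e S := by
        rw [← Finset.prod_pow, ← Finset.prod_mul_distrib]
        apply Finset.prod_congr rfl
        intro s hs
        rw [← pow_add]
        congr 1
        have := he (Finset.mem_range.1 hs).le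
        omega
      have h3 : Z0 ^ N = Z0 ^ (N - e S) * Z0 ^ e S := by
        rw [← pow_add]; congr 1; omega
      rw [Finset.prod_range_succ, Finset.prod_range_succ, h2, h3, mul_pow, mul_pow]
      ring
    rw [key X0 Q, key Y0 D]
    refine mul_le_mul ?_ ?_ ?_ ?_
    · apply ih
      · exact fun s hs => h s (by omega)
      · intro a b hab
        have := he hab
        show e b - e S ≤ e a - e S
        omega
      · omega
    · exact pow_le_pow_left₀ (mul_nonneg hX (Finset.prod_nonneg fun s _ => hQ s)) (h (S + 1) le_rfl) _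
    · exact pow_nonneg (mul_nonneg hX (Finset.prod_nonneg fun s _ => hQ s)) _
    · exact mul_nonneg (pow_nonneg hY _) (Finset.prod_nonneg fun s _ => pow_nonneg (hD s) _)

theorem sum_e (d N i S : ℕ) :
    d * ∑ s ∈ Finset.range S, min N ((i - d * N * s) / d) ≤ min (d * N * S) i := by
  induction S with
  | zero => simp
  | succ S ih =>
    rw [Finset.sum_range_succ, mul_add]
    have h1 : d * min N ((i - d * N * S) / d) ≤ d * N := Nat.mul_le_mul_left _ (min_le_left _ _)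
    have h2 : d * min N ((i - d * N * S) / d) ≤ i - d * N * S :=
      (Nat.mul_le_mul_left _ (min_le_right _ _)).trans (Nat.mul_div_le _ _)
    have h3 : d * N * (S + 1) = d * N * S + d * N := by ring
    rw [h3]
    generalize d * N * S = A at *
    generalize d * min N ((i - A) / d) = B at *
    generalize d * N = D at *
    omega

theorem e_anti (d N i : ℕ) : Antitone fun s : ℕ => min N ((i - d * N * s) / d) := by
  intro a b hab
  apply min_le_min_left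
  apply Nat.div_le_div_right
  have : d * N * a ≤ d * N * b := Nat.mul_le_mul_left _ hab
  omega

/-- one basis polynomial on one contour -/
theorem stage {N : ℕ} (hN : 1 ≤ N) {S d : ℕ} {g core T : ℝ} {Qs cs : ℕ → ℝ} {GP EZ Cst : ℝ}
    {t e : ℕ → ℕ} {i : ℕ} (hT : 0 < T) (hCst : 0 ≤ Cst) (hGP : 0 < GP) (hEZ : 0 ≤ EZ)
    (hQ : ∀ s, 0 ≤ Qs s) (h1 : g ^ 2 * GP ^ N ≤ Cst * EZ ^ N)
    (h3 : ∀ s ≤ S, T * (EZ * ∏ s' ∈ Finset.range s, Qs s') ≤ 2 ^ t s * GP)
    (ht : ∀ s ≤ S, ∑ s' ∈ Finset.range s, (t (s' + 1) - t s') + t 0 = t s)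
    (hcs0 : ∀ s, 0 ≤ cs s)
    (hcs : ∀ s < S, cs s ^ 4 ≤
      ((N : ℝ) ^ 8) ^ (2 * d) * Qs s * ((1 + 1 / (N : ℝ)) ^ 4) ^ (2 * d))
    (hcore : core = ∏ s ∈ Finset.range S, cs s ^ e s) (he : Antitone e) (he0 : e 0 ≤ N)
    (hei : 2 * d * ∑ s ∈ Finset.range S, e s ≤ i) :
    (g * core ^ 2) ^ 2 * T ^ N ≤ Cst * (N : ℝ) ^ (8 * i) * Real.exp ((8 * d * S : ℕ) : ℝ) *
      2 ^ (t 0 * N + ∑ s ∈ Finset.range S, (t (s + 1) - t s) * e s) := by
  have hN' : (1 : ℝ) ≤ N := by exact_mod_cast hN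
  have hN0 : (0 : ℝ) < N := by linarith
  set se : ℕ := ∑ s ∈ Finset.range S, e s with hse
  have hsN : se ≤ S * N := by
    rw [hse]
    have := Finset.sum_le_card_nsmul (Finset.range S) e N (fun s _ => (he (Nat.zero_le s)).trans he0)
    simpa using this
  -- the power of the core
  have hc1 : core ^ 4 ≤ (((N : ℝ) ^ 8) ^ (2 * d)) ^ se * (∏ s ∈ Finset.range S, Qs s ^ e s) *
      (((1 + 1 / (N : ℝ)) ^ 4) ^ (2 * d)) ^ se := by
    have e1 : core ^ 4 = ∏ s ∈ Finset.range S, (cs s ^ 4) ^ e s := by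
      rw [hcore, ← Finset.prod_pow]
      apply Finset.prod_congr rfl
      intro s _
      rw [← pow_mul, ← pow_mul, mul_comm]
    have e2 : ∏ s ∈ Finset.range S, (((N : ℝ) ^ 8) ^ (2 * d) * Qs s *
        ((1 + 1 / (N : ℝ)) ^ 4) ^ (2 * d)) ^ e s =
        (((N : ℝ) ^ 8) ^ (2 * d)) ^ se * (∏ s ∈ Finset.range S, Qs s ^ e s) *
      (((1 + 1 / (N : ℝ)) ^ 4) ^ (2 * d)) ^ se := by
      rw [hse, ← Finset.prod_pow_eq_pow_sum, ← Finset.prod_pow_eq_pow_sum,
        ← Finset.prod_mul_distrib, ← Finset.prod_mul_distrib]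
      apply Finset.prod_congr rfl
      intro s _
      rw [mul_pow, mul_pow]
    rw [e1, ← e2]
    apply Finset.prod_le_prod
    · intro s _; exact pow_nonneg (pow_nonneg (hcs0 s) _) _
    · intro s hs
      exact pow_le_pow_left₀ (pow_nonneg (hcs0 s) _) (hcs s (Finset.mem_range.1 hs)) _
  have hc2 : (((N : ℝ) ^ 8) ^ (2 * d)) ^ se ≤ (N : ℝ) ^ (8 * i) := by
    rw [← pow_mul, ← pow_mul]
    apply pow_le_pow_right₀ hN'
    exact Nat.mul_le_mul_left _ hei
  have hc3 : (((1 + 1 / (N : ℝ)) ^ 4) ^ (2 * d)) ^ se ≤ Real.exp ((8 * d * S : ℕ) : ℝ) := by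
    rw [← pow_mul, ← pow_mul]
    have h1 : (1 : ℝ) ≤ 1 + 1 / N := by
      have : (0 : ℝ) ≤ 1 / N := by positivity
      linarith
    calc (1 + 1 / (N : ℝ)) ^ (4 * (2 * d * se)) ≤ (1 + 1 / (N : ℝ)) ^ (N * (8 * d * S)) := by
          apply pow_le_pow_right₀ h1
          calc 4 * (2 * d * se) = 8 * d * se := by ring
            _ ≤ 8 * d * (S * N) := Nat.mul_le_mul_left _ hsN
            _ = N * (8 * d * S) := by ring
      _ ≤ (Real.exp (1 / (N : ℝ))) ^ (N * (8 * d * S)) := by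
          apply pow_le_pow_left₀ (by linarith)
          have := Real.add_one_le_exp (1 / (N : ℝ))
          linarith
      _ = Real.exp ((8 * d * S : ℕ) : ℝ) := by
          rw [← Real.exp_nat_mul]
          congr 1
          push_cast
          field_simp
  have hQe : 0 ≤ ∏ s ∈ Finset.range S, Qs s ^ e s := Finset.prod_nonneg fun s _ => pow_nonneg (hQ s) _
  have hc4 : core ^ 4 ≤ (N : ℝ) ^ (8 * i) * (∏ s ∈ Finset.range S, Qs s ^ e s) *
      Real.exp ((8 * d * S : ℕ) : ℝ) := by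
    refine hc1.trans ?_
    apply mul_le_mul (mul_le_mul_of_nonneg_right hc2 hQe) hc3
    · have : (0 : ℝ) ≤ 1 / N := by positivity
      positivity
    · exact mul_nonneg (by positivity) hQe
  -- interpolation
  have hint := interp (X0 := T * EZ) (Y0 := 2 ^ t 0 * GP) (Q := Qs)
    (D := fun s => (2 : ℝ) ^ (t (s + 1) - t s)) (mul_nonneg hT.le hEZ) (by positivity) hQ
    (fun s => by positivity) S N e (by
      intro s hs
      have h4 := h3 s hs
      rw [← mul_assoc] at h4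
      refine h4.trans (le_of_eq ?_)
      rw [Finset.prod_pow_eq_pow_sum, ← ht s hs, pow_add]
      ring) he he0
  have hint2 : (2 ^ t 0 * GP) ^ N * ∏ s ∈ Finset.range S, ((2 : ℝ) ^ (t (s + 1) - t s)) ^ e s =
      GP ^ N * 2 ^ (t 0 * N + ∑ s ∈ Finset.range S, (t (s + 1) - t s) * e s) := by
    rw [mul_pow, pow_add, ← Finset.prod_pow_eq_pow_sum, pow_mul]
    have : ∏ s ∈ Finset.range S, ((2 : ℝ) ^ (t (s + 1) - t s)) ^ e s =
        ∏ s ∈ Finset.range S, (2 : ℝ) ^ ((t (s + 1) - t s) * e s) := by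
      apply Finset.prod_congr rfl
      intro s _
      rw [pow_mul]
    rw [this]
    ring
  rw [hint2] at hint
  have hfin : ((g * core ^ 2) ^ 2 * T ^ N) * GP ^ N ≤ (Cst * (N : ℝ) ^ (8 * i) *
      Real.exp ((8 * d * S : ℕ) : ℝ) *
      2 ^ (t 0 * N + ∑ s ∈ Finset.range S, (t (s + 1) - t s) * e s)) * GP ^ N := by
    calc ((g * core ^ 2) ^ 2 * T ^ N) * GP ^ N = (g ^ 2 * GP ^ N) * core ^ 4 * T ^ N := by ring
      _ ≤ (Cst * EZ ^ N) * ((N : ℝ) ^ (8 * i) * (∏ s ∈ Finset.range S, Qs s ^ e s) *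
          Real.exp ((8 * d * S : ℕ) : ℝ)) * T ^ N := by
          apply mul_le_mul_of_nonneg_right _ (pow_nonneg hT.le _)
          apply mul_le_mul h1 hc4 (by positivity)
          exact mul_nonneg hCst (pow_nonneg hEZ _)
      _ = Cst * (N : ℝ) ^ (8 * i) * Real.exp ((8 * d * S : ℕ) : ℝ) *
          ((T * EZ) ^ N * ∏ s ∈ Finset.range S, Qs s ^ e s) := by
          rw [mul_pow]; ring
      _ ≤ Cst * (N : ℝ) ^ (8 * i) * Real.exp ((8 * d * S : ℕ) : ℝ) *
          (GP ^ N * 2 ^ (t 0 * N + ∑ s ∈ Finset.range S, (t (s + 1) - t s) * e s)) := by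
          apply mul_le_mul_of_nonneg_left hint
          positivity
      _ = _ := by ring
  exact le_of_mul_le_mul_right hfin (pow_pos hGP _)

/-- products of atoms -/
theorem prod_bound (m : ℕ) (x : ℂ) (q : ℕ → ℚ[X]) (sg : ℕ → ℕ) (A B : ℝ) (Qk : ℕ → ℝ)
    (hq : ∀ k < m, ‖aeval x (q k)‖ ^ 2 ≤ A * Qk k * B) :
    ‖aeval x (∏ k ∈ Finset.range m, q k ^ sg k)‖ ^ 4 ≤
      A ^ (2 * ∑ k ∈ Finset.range m, sg k) * (∏ k ∈ Finset.range m, Qk k ^ (2 * sg k)) *
        B ^ (2 * ∑ k ∈ Finset.range m, sg k) := by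
  have e1 : ‖aeval x (∏ k ∈ Finset.range m, q k ^ sg k)‖ ^ 4 =
      ∏ k ∈ Finset.range m, (‖aeval x (q k)‖ ^ 2) ^ (2 * sg k) := by
    rw [map_prod, norm_prod, ← Finset.prod_pow]
    apply Finset.prod_congr rfl
    intro k _
    rw [map_pow, norm_pow, ← pow_mul, ← pow_mul]
    congr 1
    ring
  have e2 : A ^ (2 * ∑ k ∈ Finset.range m, sg k) * (∏ k ∈ Finset.range m, Qk k ^ (2 * sg k)) *
        B ^ (2 * ∑ k ∈ Finset.range m, sg k) =
      ∏ k ∈ Finset.range m, (A * Qk k * B) ^ (2 * sg k) := by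
    rw [Finset.mul_sum, ← Finset.prod_pow_eq_pow_sum, ← Finset.prod_pow_eq_pow_sum,
        ← Finset.prod_mul_distrib, ← Finset.prod_mul_distrib]
    apply Finset.prod_congr rfl
    intro s _
    rw [mul_pow, mul_pow]
  rw [e1, e2]
  apply Finset.prod_le_prod
  · intro k _; positivity
  · intro k hk
    exact pow_le_pow_left₀ (by positivity) (hq k (Finset.mem_range.1 hk)) _

theorem Qb_nonneg (c a b : ℚ) (ρ : ℝ) : 0 ≤ Qb c a b ρ := by
  unfold Qb; positivity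

theorem Q1_nonneg (c : ℚ) (s : ℕ) (ρ : ℝ) : 0 ≤ Q1 c s ρ :=
  Finset.prod_nonneg fun _ _ => pow_nonneg (Qb_nonneg _ _ _ _) _

theorem qd_nonneg (w ρ : ℝ) : 0 ≤ qd w ρ := by
  unfold qd; positivity

theorem qd_pos {w ρ : ℝ} (hw : 0 < w) (hρ : 0 ≤ ρ) : 0 < qd w ρ := by
  unfold qd; positivity

theorem prodqd_nonneg (s : Finset ℕ) (f : ℕ → ℝ) (ρ : ℝ) : 0 ≤ ∏ a ∈ s, qd (f a) ρ :=
  Finset.prod_nonneg fun _ _ => qd_nonneg _ _

theorem GZ0_nonneg (ρ : ℝ) : 0 ≤ GZ0 ρ := by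
  unfold GZ0
  exact mul_nonneg (pow_nonneg (prodqd_nonneg _ _ _) _) (pow_nonneg (prodqd_nonneg _ _ _) _)

theorem GP0_pos {ρ : ℝ} (hρ : 0 ≤ ρ) : 0 < GP0 ρ := by
  unfold GP0
  have h1 : 0 < ∏ a ∈ Finset.Ico (73 : ℕ) 312, qd ((a : ℕ) : ℝ) ρ := by
    apply Finset.prod_pos
    intro a ha
    apply qd_pos _ hρ
    have := (Finset.mem_Ico.1 ha).1
    have : (73 : ℝ) ≤ a := by exact_mod_cast this
    linarith
  exact mul_pos (mul_pos (pow_pos (qd_pos (by norm_num) hρ) _) (pow_pos h1 _))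
    (pow_pos (qd_pos (by norm_num) hρ) _)

/-- `|x| ≥ 1` on the contours -/
theorem one_le_xv {n U : ℕ} (hn : 1 ≤ n) {r : ℝ} (hr : 0 ≤ r) : 1 ≤ ‖xv n (zv U r)‖ := by
  have hn' : (1 : ℝ) ≤ n := by exact_mod_cast hn
  have hre : (zv U r).re = U - 1 / 2 + r := by
    simp [zv]
  have him : (zv U r).im = r := by
    simp [zv]
  have h1 : 1 / 8 ≤ ‖zv U r‖ ^ 2 := by
    rw [← Complex.normSq_eq_norm_sq, Complex.normSq_apply, hre, him]
    have hU : 1 / 4 ≤ ((U : ℝ) - 1 / 2) ^ 2 := by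
      rcases Nat.eq_zero_or_pos U with h | h
      · subst h; norm_num
      · have : (1 : ℝ) ≤ U := by exact_mod_cast h
        nlinarith
    nlinarith [sq_nonneg (((U : ℝ) - 1 / 2) + 2 * r)]
  have h2 : (15 : ℝ) ^ 2 ≤ ‖zv U r + ((16 * n : ℕ) : ℂ)‖ ^ 2 := by
    rw [← Complex.normSq_eq_norm_sq, Complex.normSq_apply]
    have h3 : (zv U r + ((16 * n : ℕ) : ℂ)).re = U - 1 / 2 + r + 16 * n := by
      rw [Complex.add_re, hre, Complex.natCast_re]; push_cast; ring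
    have h4 : (15 : ℝ) ≤ (zv U r + ((16 * n : ℕ) : ℂ)).re := by
      rw [h3]
      have : (0 : ℝ) ≤ U := Nat.cast_nonneg U
      linarith
    nlinarith [mul_self_nonneg (zv U r + ((16 * n : ℕ) : ℂ)).im]
  have h5 : 1 ≤ ‖xv n (zv U r)‖ ^ 2 := by
    unfold xv
    rw [norm_mul, mul_pow]
    nlinarith
  nlinarith [norm_nonneg (xv n (zv U r))]

theorem pow_eq_exp (k : ℕ) : (2 : ℝ) ^ k = Real.exp (k * Real.log 2) := by
  rw [Real.exp_nat_mul, Real.exp_log (by norm_num)]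

end G4eAux

end

end Pool.Agent.H343Y
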