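import Pool.Agent.H343Y.DefsS
import Pool.Agent.H336R2.HD.A1
import Pool.Agent.H336R2.HD.A3

/-!
# G4 (helper896, after helper318): the total archimedean bound from the bounds of the entries
-/

open Polynomial Pool.Agent.H337R2 Filter Topology

namespace Pool.Agent.H343Y

noncomputable section

namespace G4h

/-- logarithm of the bound of row `i` -/
def al (C : ℝ) (K n N i : ℕ) : ℝ :=
  Real.log C + K * Real.log n +
    (Lam * N + 8 * (i : ℝ) * Real.log N + ((EX N i : ℝ) - 50000 * N) * Real.log 2) / 2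

lemma exp_al {C : ℝ} {K n N i : ℕ} (hC : 0 < C) (hn : 1 ≤ n) :
    Real.exp (al C K n N i) = C * (n : ℝ) ^ K *
      Real.exp ((Lam * N + 8 * (i : ℝ) * Real.log N + ((EX N i : ℝ) - 50000 * N) * Real.log 2) / 2) := by
  have hn' : (0 : ℝ) < n := by exact_mod_cast hn
  unfold al
  rw [Real.exp_add, Real.exp_add, Real.exp_log hC, ← Real.log_pow, Real.exp_log (by positivity)]

lemma sq_le {C : ℝ} {K n N i j : ℕ} (hC : 0 < C) (hn : 1 ≤ n) {x : ℝ}
    (h : |x| ≤ C * (n : ℝ) ^ K *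
      Real.exp ((2 * (Lam * N) + 8 * (i + j) * Real.log N + ((EX N i : ℝ) + EX N j - 100000 * N) * Real.log 2) / 4)) :
    |x| ^ 2 ≤ Real.exp (al C K n N i) * Real.exp (al C K n N j) := by
  refine (pow_le_pow_left₀ (abs_nonneg _) h 2).trans (le_of_eq ?_)
  rw [exp_al hC hn, exp_al hC hn, mul_pow, ← Real.exp_nat_mul]
  have e : ((2 : ℕ) : ℝ) * ((2 * (Lam * N) + 8 * (i + j) * Real.log N + ((EX N i : ℝ) + EX N j - 100000 * N) * Real.log 2) / 4) =
      (Lam * N + 8 * (i : ℝ) * Real.log N + ((EX N i : ℝ) - 50000 * N) * Real.log 2) / 2 +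
      (Lam * N + 8 * (j : ℝ) * Real.log N + ((EX N j : ℝ) - 50000 * N) * Real.log 2) / 2 := by
    push_cast
    ring
  rw [e, Real.exp_add]
  ring

lemma log_det_le {C : ℝ} {K n N : ℕ} (hC : 0 < C) (hN : 1 ≤ N) (hn : 1 ≤ n) (u : ℕ → ℚ)
    (hM : ∀ i, i < 792 * N → (PN N i).Monic ∧ (PN N i).natDegree = i)
    (hE : ∀ i < 792 * N, ∀ j < 792 * N, |((NL n u (PN N i * PN N j) : ℚ) : ℝ)| ≤ C * (n : ℝ) ^ K *
      Real.exp ((2 * (Lam * N) + 8 * (i + j) * Real.log N + ((EX N i : ℝ) + EX N j - 100000 * N) * Real.log 2) / 4))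
    (hD : DET n u (792 * N) ≠ 0) :
    Real.log |((DET n u (792 * N) : ℚ) : ℝ)| ≤ (792 * N : ℕ) * Real.log (792 * N : ℕ) +
      ∑ i ∈ Finset.range (792 * N), al C K n N i := by
  have hA1 := H336R2.HD.A1_det_monic (NL n u) (792 * N) (PN N) hM
  have hdet : ((DET n u (792 * N) : ℚ) : ℝ) =
      (Matrix.of fun i j : Fin (792 * N) => ((NL n u (PN N i * PN N j) : ℚ) : ℝ)).det := by
    unfold DET
    rw [← hA1]
    have := RingHom.map_det (Rat.castHom ℝ) (Matrix.of fun i j : Fin (792 * N) => NL n u (PN N i * PN N j))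
    simp only [Rat.coe_castHom] at this
    rw [this]
    congr 1
  have hA4 := H336R2.HD.A4_abs_det (792 * N)
    (Matrix.of fun i j : Fin (792 * N) => ((NL n u (PN N i * PN N j) : ℚ) : ℝ))
    (fun i => Real.exp (al C K n N i)) (fun i => (Real.exp_pos _).le) (by
      intro i j
      simp only [Matrix.of_apply]
      exact sq_le hC hn (hE i i.2 j j.2))
  rw [← hdet] at hA4
  have hpos : 0 < |((DET n u (792 * N) : ℚ) : ℝ)| := abs_pos.2 (by exact_mod_cast hD)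
  have hlog := Real.log_le_log hpos hA4
  have hf : (0 : ℝ) < ((792 * N).factorial : ℝ) := by exact_mod_cast Nat.factorial_pos _
  rw [← Real.exp_sum, Real.log_mul hf.ne' (Real.exp_pos _).ne', Real.log_exp] at hlog
  have hfac : Real.log ((792 * N).factorial : ℝ) ≤ (792 * N : ℕ) * Real.log (792 * N : ℕ) := by
    rw [← Real.log_pow]
    apply Real.log_le_log hf
    exact_mod_cast Nat.factorial_le_pow (792 * N)
  linarith

lemma sum_k (M : ℕ) : 2 * ∑ k ∈ Finset.range M, (k : ℝ) = M * (M - 1) := by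
  induction M with
  | zero => simp
  | succ m ih =>
    rw [Finset.sum_range_succ, mul_add, ih]
    push_cast
    ring

lemma sum_al {C : ℝ} {K n N : ℕ} (hN : 1 ≤ N)
    (hS : ((∑ i ∈ Finset.range (792 * N), EX N i : ℕ) : ℝ) ≤ 17649126 * (N : ℝ) ^ 2) :
    ∑ i ∈ Finset.range (792 * N), al C K n N i ≤
      792 * (N : ℝ) * (Real.log C + K * Real.log n) + 396 * Lam * (N : ℝ) ^ 2 +
      1254528 * (N : ℝ) ^ 2 * Real.log N + (17649126 - 792 * 50000) * (Real.log 2 / 2) * (N : ℝ) ^ 2 := by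
  unfold al
  rw [Finset.sum_add_distrib, Finset.sum_const, Finset.card_range, nsmul_eq_mul, ← Finset.sum_div,
    Finset.sum_add_distrib, Finset.sum_add_distrib, Finset.sum_const, Finset.card_range, nsmul_eq_mul,
    ← Finset.sum_mul, ← Finset.sum_mul, ← Finset.mul_sum, Finset.sum_sub_distrib, Finset.sum_const,
    Finset.card_range, nsmul_eq_mul]
  have hl2 : 0 < Real.log 2 := Real.log_pos (by norm_num)
  have hlN : 0 ≤ Real.log N := Real.log_natCast_nonneg N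
  have hk := sum_k (792 * N)
  have hS' : ∑ i ∈ Finset.range (792 * N), (EX N i : ℝ) ≤ 17649126 * (N : ℝ) ^ 2 := by
    have := hS
    push_cast at this
    exact this
  have hk' : 8 * ∑ i ∈ Finset.range (792 * N), (i : ℝ) ≤ 2509056 * (N : ℝ) ^ 2 := by
    have h0 : (0 : ℝ) ≤ N := by positivity
    have : 8 * ∑ i ∈ Finset.range (792 * N), (i : ℝ) = 4 * (2 * ∑ i ∈ Finset.range (792 * N), (i : ℝ)) := by ring
    rw [this, hk]
    push_cast
    nlinarith
  have h1 := mul_le_mul_of_nonneg_right hk' hlN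
  have h2 := mul_le_mul_of_nonneg_right hS' hl2.le
  push_cast
  nlinarith [h1, h2]

lemma final_ev (c : ℝ) (K : ℕ) (ε : ℝ) (hε : 0 < ε) :
    ∀ᶠ n : ℕ in atTop, 33 * (n : ℝ) * (c + K * Real.log n) ≤ ε * (n : ℝ) ^ 2 := by
  have h1 : Tendsto (fun n : ℕ => Real.log (n : ℝ) / n) atTop (𝓝 0) := by
    have := Real.isLittleO_log_id_atTop.tendsto_div_nhds_zero
    exact this.comp tendsto_natCast_atTop_atTop
  have h2 : Tendsto (fun n : ℕ => c / (n : ℝ)) atTop (𝓝 0) := tendsto_const_div_atTop_nhds_zero_nat c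
  have h3 : Tendsto (fun n : ℕ => 33 * (c / (n : ℝ) + K * (Real.log (n : ℝ) / n))) atTop (𝓝 0) := by
    have := (h2.add (h1.const_mul (K : ℝ))).const_mul 33
    simpa using this
  have h4 := h3.eventually (gt_mem_nhds hε)
  filter_upwards [h4, eventually_gt_atTop 0] with n hn hn0
  have hn' : (0 : ℝ) < n := by exact_mod_cast hn0
  have e : 33 * (n : ℝ) * (c + K * Real.log n) = 33 * (c / (n : ℝ) + K * (Real.log (n : ℝ) / n)) * (n : ℝ) ^ 2 := by
    field_simp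
  rw [e]
  exact mul_le_mul_of_nonneg_right hn.le (by positivity)

end G4h

/-- total archimedean bound, from the bounds of the entries -/
theorem G4_arch_of
    (hM : ∀ N : ℕ, 1 ≤ N → ∀ i : ℕ, i < 792 * N → (PN N i).Monic ∧ (PN N i).natDegree = i)
    (hEnt : ∃ (C : ℝ) (K : ℕ), 0 < C ∧ ∀ N : ℕ, 1 ≤ N → ∀ n : ℕ, n = 24 * N + 1 → ∀ u : ℕ → ℚ,
      (∀ i ∈ ({3, 5, 7, 9, 11, 13, 15} : Finset ℕ), zr (i + 6) = (u i : ℝ)) →
      ∀ i < 792 * N, ∀ j < 792 * N, |((NL n u (PN N i * PN N j) : ℚ) : ℝ)| ≤ C * (n : ℝ) ^ K *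
        Real.exp ((2 * (Lam * N) + 8 * (i + j) * Real.log N + ((EX N i : ℝ) + EX N j - 100000 * N) * Real.log 2) / 4))
    (hS : ∀ N : ℕ, 1 ≤ N →
      ((∑ i ∈ Finset.range (792 * N), EX N i : ℕ) : ℝ) ≤ 17649126 * (N : ℝ) ^ 2) :
    ∀ ε : ℝ, 0 < ε → ∀ᶠ N : ℕ in atTop, ∀ n : ℕ, n = 24 * N + 1 → ∀ u : ℕ → ℚ,
    (∀ i ∈ ({3, 5, 7, 9, 11, 13, 15} : Finset ℕ), zr (i + 6) = (u i : ℝ)) →
    DET n u (33 * (n - 1)) ≠ 0 →
    Real.log |((DET n u (33 * (n - 1)) : ℚ) : ℝ)| ≤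
      2178 * (n : ℝ) ^ 2 * Real.log n + (JJ + ε) * (n : ℝ) ^ 2 := by
  intro ε hε
  obtain ⟨C, K, hC, hE⟩ := hEnt
  set c : ℝ := |Real.log 33 + Real.log C| + |JJ| with hc
  have hev := G4h.final_ev c (K + 1) ε hε
  have htd : Tendsto (fun N : ℕ => 24 * N + 1) atTop atTop := by
    apply tendsto_atTop_mono (fun N => _) tendsto_id
    intro N
    show N ≤ 24 * N + 1
    omega
  filter_upwards [htd.eventually hev, eventually_ge_atTop 1] with N hNev hN n hn u hz hD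
  have hm : 33 * (n - 1) = 792 * N := by omega
  rw [hm] at hD ⊢
  rw [← hn] at hNev
  have hn1 : 1 ≤ n := by omega
  have hlog := G4h.log_det_le hC hN hn1 u (hM N hN) (hE N hN n hn u hz) hD
  have hsum := G4h.sum_al (C := C) (K := K) (n := n) hN (hS N hN)
  have hn0 : (1 : ℝ) ≤ n := by exact_mod_cast hn1
  have hN0 : (1 : ℝ) ≤ N := by exact_mod_cast hN
  have hnN : (n : ℝ) = 24 * N + 1 := by rw [hn]; push_cast; ring
  have hl : 0 ≤ Real.log n := Real.log_natCast_nonneg n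
  -- log N = log (24 N) - log 24
  have hlN : Real.log (24 * (N : ℝ)) = Real.log 24 + Real.log N :=
    Real.log_mul (by norm_num) (by positivity)
  have hlNn : Real.log (24 * (N : ℝ)) ≤ Real.log n :=
    Real.log_le_log (by positivity) (by rw [hnN]; linarith)
  have q1 : 1254528 * (N : ℝ) ^ 2 * Real.log N ≤
      2178 * (n : ℝ) ^ 2 * Real.log n - 2178 * Real.log 24 * (576 * (N : ℝ) ^ 2) := by
    have e1 : 1254528 * (N : ℝ) ^ 2 * Real.log N =
        2178 * (24 * (N : ℝ)) ^ 2 * Real.log (24 * (N : ℝ)) - 2178 * Real.log 24 * (576 * (N : ℝ) ^ 2) := by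
      rw [hlN]; ring
    have e2 : 2178 * (24 * (N : ℝ)) ^ 2 * Real.log (24 * (N : ℝ)) ≤ 2178 * (n : ℝ) ^ 2 * Real.log n := by
      have a1 : 2178 * (24 * (N : ℝ)) ^ 2 ≤ 2178 * (n : ℝ) ^ 2 := by
        have : 24 * (N : ℝ) ≤ n := by rw [hnN]; linarith
        have h0 : (0 : ℝ) ≤ 24 * N := by positivity
        nlinarith
      exact mul_le_mul a1 hlNn (Real.log_nonneg (by linarith)) (by positivity)
    linarith
  have q2 : JJ * (576 * (N : ℝ) ^ 2) = 396 * Lam * (N : ℝ) ^ 2 +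
      (17649126 - 792 * 50000) * (Real.log 2 / 2) * (N : ℝ) ^ 2 - 2178 * Real.log 24 * (576 * (N : ℝ) ^ 2) := by
    unfold JJ
    ring
  have q3 : JJ * (576 * (N : ℝ) ^ 2) ≤ JJ * (n : ℝ) ^ 2 + |JJ| * (33 * n) := by
    have e1 : (n : ℝ) ^ 2 - 576 * (N : ℝ) ^ 2 = 48 * N + 1 := by rw [hnN]; ring
    have e2 : 48 * (N : ℝ) + 1 ≤ 33 * n := by rw [hnN]; linarith
    have e3 : JJ * (576 * (N : ℝ) ^ 2) = JJ * (n : ℝ) ^ 2 - JJ * (48 * N + 1) := by rw [← e1]; ring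
    have e4 : - JJ * (48 * (N : ℝ) + 1) ≤ |JJ| * (33 * n) := by
      calc - JJ * (48 * (N : ℝ) + 1) ≤ |JJ| * (48 * N + 1) :=
            mul_le_mul_of_nonneg_right (neg_le_abs JJ) (by positivity)
        _ ≤ |JJ| * (33 * n) := mul_le_mul_of_nonneg_left e2 (abs_nonneg _)
    linarith
  have hm33 : ((792 * N : ℕ) : ℝ) ≤ 33 * n := by push_cast; rw [hnN]; linarith
  have hm0 : (0 : ℝ) < ((792 * N : ℕ) : ℝ) := by exact_mod_cast (by omega : 0 < 792 * N)
  have q4 : Real.log ((792 * N : ℕ) : ℝ) ≤ Real.log 33 + Real.log n := by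
    rw [← Real.log_mul (by norm_num) (by positivity)]
    exact Real.log_le_log hm0 hm33
  have q5 : ((792 * N : ℕ) : ℝ) * Real.log ((792 * N : ℕ) : ℝ) ≤
      ((792 * N : ℕ) : ℝ) * (Real.log 33 + Real.log n) := mul_le_mul_of_nonneg_left q4 hm0.le
  have q6 : ((792 * N : ℕ) : ℝ) * (Real.log 33 + Real.log C) ≤ 33 * n * |Real.log 33 + Real.log C| := by
    calc _ ≤ ((792 * N : ℕ) : ℝ) * |Real.log 33 + Real.log C| :=
          mul_le_mul_of_nonneg_left (le_abs_self _) hm0.le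
      _ ≤ _ := mul_le_mul_of_nonneg_right hm33 (abs_nonneg _)
  have q7 : ((792 * N : ℕ) : ℝ) * (((K : ℝ) + 1) * Real.log n) ≤ 33 * n * (((K : ℝ) + 1) * Real.log n) :=
    mul_le_mul_of_nonneg_right hm33 (by positivity)
  have hNev' : 33 * (n : ℝ) * (c + ((K : ℝ) + 1) * Real.log n) ≤ ε * (n : ℝ) ^ 2 := by
    have := hNev
    push_cast at this
    exact this
  rw [hc] at hNev'
  push_cast at hlog q5 q6 q7
  have e5 : 33 * (n : ℝ) * (|Real.log 33 + Real.log C| + |JJ| + ((K : ℝ) + 1) * Real.log n) =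
      33 * n * |Real.log 33 + Real.log C| + |JJ| * (33 * n) + 33 * n * (((K : ℝ) + 1) * Real.log n) := by ring
  rw [e5] at hNev'
  have e6 : (JJ + ε) * (n : ℝ) ^ 2 = JJ * (n : ℝ) ^ 2 + ε * (n : ℝ) ^ 2 := by ring
  rw [e6]
  nlinarith only [hlog, hsum, q1, q2, q3, q5, q6, q7, hNev']

end

end Pool.Agent.H343Y
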