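import Pool.Agent.H343Y.Defs
import Pool.Agent.H336R2.HD.H1
import Pool.Agent.H343Y.C1

open Polynomial Pool.Agent.H337R2

namespace Pool.Agent.H343Y

noncomputable section

set_option linter.unusedSectionVars false

open Pool.Agent.H336R2.HD (H1_lin H1_norm_zpow H1_prod_le H1_prod_le_one)

section off

variable {p : ℕ} [hp : Fact p.Prime]

/-- the exponents `e_p(k)` for `n = p` -/
lemma H1_ee (k : ℕ) : eeN p p k = if (p : ℤ) ∣ (k : ℤ) then -16 else 0 := by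
  have hp' : (0 : ℤ) < p := by exact_mod_cast hp.out.pos
  have hp0 : 0 < p := hp.out.pos
  have e1 : (n1 p 16 2 p k : ℤ) = 4 := by
    rw [n1_eq p 16 2 p k hp0 (by norm_num) (by omega)]
    have a1 : (((2 : ℕ) : ℤ) * p - k) / p = (-(k : ℤ)) / p + 2 := by
      rw [show (((2 : ℕ) : ℤ) * p - k) = -(k : ℤ) + 2 * p by push_cast; ring,
        Int.add_mul_ediv_right _ _ hp'.ne']
    have a2 : (((16 : ℕ) : ℤ) * p - 1 - k) / p = (-(k : ℤ) - 1) / p + 16 := by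
      rw [show (((16 : ℕ) : ℤ) * p - 1 - k) = (-(k : ℤ) - 1) + 16 * p by push_cast; ring,
        Int.add_mul_ediv_right _ _ hp'.ne']
    have a3 : (((16 : ℕ) : ℤ) * p - ((2 : ℕ) : ℤ) * p - 1 - k) / p = (-(k : ℤ) - 1) / p + 14 := by
      rw [show (((16 : ℕ) : ℤ) * p - ((2 : ℕ) : ℤ) * p - 1 - k) = (-(k : ℤ) - 1) + 14 * p by
        push_cast; ring, Int.add_mul_ediv_right _ _ hp'.ne']
    rw [a1, a2, a3]
    ring
  have e2 : (cnt p (3 * p) (16 * p - 3 * p) k : ℤ) = 10 + if (p : ℤ) ∣ (k : ℤ) then 1 else 0 := by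
    rw [cnt_brick p 16 3 p k hp0 (by norm_num)]
    have a1 : (((16 : ℕ) : ℤ) * p - ((3 : ℕ) : ℤ) * p - k) / p = (-(k : ℤ)) / p + 13 := by
      rw [show (((16 : ℕ) : ℤ) * p - ((3 : ℕ) : ℤ) * p - k) = -(k : ℤ) + 13 * p by push_cast; ring,
        Int.add_mul_ediv_right _ _ hp'.ne']
    have a2 : (((3 : ℕ) : ℤ) * p - 1 - k) / p = (-(k : ℤ) - 1) / p + 3 := by
      rw [show (((3 : ℕ) : ℤ) * p - 1 - k) = (-(k : ℤ) - 1) + 3 * p by push_cast; ring,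
        Int.add_mul_ediv_right _ _ hp'.ne']
    have a3 := succ_ediv' (p : ℤ) hp' (-(k : ℤ) - 1)
    rw [sub_add_cancel] at a3
    rw [a1, a2, a3]
    simp only [Int.dvd_neg]
    ring
  have e3 : (2 * p / p : ℕ) = 2 := Nat.mul_div_cancel 2 hp0
  have e4 : ((16 - 2 * 3) * p / p : ℕ) = 10 := Nat.mul_div_cancel _ hp0
  unfold eeN ee
  unfold nq
  simp only [ds16, List.map_cons, List.map_nil, List.sum_cons, List.sum_nil]
  rw [e3, e4, e1]
  push_cast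
  rw [e2]
  split_ifs <;> norm_num

lemma H1_XN_comp (n r : ℕ) : (XN n r).comp (xp n) =
    (X + C ((r : ℤ) : ℚ)) * (X + C (((16 * n - r : ℤ)) : ℚ)) := by
  unfold XN xp
  simp only [add_comp, X_comp, C_comp]
  push_cast
  simp only [map_mul, map_sub, map_natCast, map_ofNat]
  ring

/-- the size of a node at the pole `k` -/
def H1_a (p k r : ℕ) : ℚ :=
  if (p : ℤ) ∣ (r : ℤ) - k ∨ (p : ℤ) ∣ (16 * p - r : ℤ) - k then (p : ℚ)⁻¹ else 1

lemma H1_a_nonneg (k r : ℕ) : 0 ≤ H1_a p k r := by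
  unfold H1_a; split_ifs
  · exact inv_nonneg.2 p_pos'.le
  · exact zero_le_one

lemma H1_a_le_one (k r : ℕ) : H1_a p k r ≤ 1 := by
  unfold H1_a; split_ifs
  · exact inv_le_one_of_one_le₀ p_one'
  · exact le_rfl

lemma H1_node (k r : ℕ) : PB p (p : ℚ) (H1_a p k r) (TS (-(k : ℚ)) ((XN p r).comp (xp p))) := by
  have hp0 : (0 : ℚ) ≤ p := p_pos'.le
  have hinv : (0 : ℚ) ≤ (p : ℚ)⁻¹ := inv_nonneg.2 hp0
  rw [H1_XN_comp, map_mul, TS_lin, TS_lin]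
  unfold H1_a
  split_ifs with h
  · rcases h with h | h
    · have := PB.mul hp0 hinv zero_le_one (H1_lin k (r : ℤ) _ (Or.inr ⟨rfl, h⟩))
        (H1_lin (p := p) k (16 * p - r : ℤ) 1 (Or.inl rfl))
      rwa [mul_one] at this
    · have := PB.mul hp0 zero_le_one hinv (H1_lin (p := p) k (r : ℤ) 1 (Or.inl rfl))
        (H1_lin k (16 * p - r : ℤ) _ (Or.inr ⟨rfl, h⟩))
      rwa [one_mul] at this
  · have := PB.mul hp0 zero_le_one zero_le_one (H1_lin (p := p) k (r : ℤ) 1 (Or.inl rfl))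
        (H1_lin (p := p) k (16 * p - r : ℤ) 1 (Or.inl rfl))
    rwa [one_mul] at this

/-- the factor `x ^ 74` -/
def H1_b (p k : ℕ) : ℚ := if (p : ℤ) ∣ (k : ℤ) then ((p : ℚ)⁻¹) ^ 148 else 1

lemma H1_b_nonneg (k : ℕ) : 0 ≤ H1_b p k := by
  unfold H1_b; split_ifs
  · exact pow_nonneg (inv_nonneg.2 p_pos'.le) _
  · exact zero_le_one

lemma H1_b_le_one (k : ℕ) : H1_b p k ≤ 1 := by
  unfold H1_b; split_ifs
  · exact pow_le_one₀ (inv_nonneg.2 p_pos'.le) (inv_le_one_of_one_le₀ p_one')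
  · exact le_rfl

lemma H1_x55 (k : ℕ) : PB p (p : ℚ) (H1_b p k) (TS (-(k : ℚ)) ((xp p) ^ 74)) := by
  have hp0 : (0 : ℚ) ≤ p := p_pos'.le
  have hinv : (0 : ℚ) ≤ (p : ℚ)⁻¹ := inv_nonneg.2 hp0
  have e1 : xp p = (X + C ((0 : ℤ) : ℚ)) * (X + C (((16 * p : ℤ)) : ℚ)) := by
    unfold xp; push_cast; simp
  rw [map_pow, e1, map_mul, TS_lin, TS_lin]
  unfold H1_b
  split_ifs with h
  · have h1 : (p : ℤ) ∣ (0 : ℤ) - k := by simpa using h
    have h2 : (p : ℤ) ∣ (16 * p : ℤ) - k := (Dvd.intro_left _ rfl).sub h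
    have h3 := PB.pow hp0 (by positivity) (PB.mul hp0 hinv hinv (H1_lin k (0 : ℤ) _ (Or.inr ⟨rfl, h1⟩))
      (H1_lin k (16 * p : ℤ) _ (Or.inr ⟨rfl, h2⟩))) 74
    have h4 : ((p : ℚ)⁻¹) ^ 148 = ((p : ℚ)⁻¹ * (p : ℚ)⁻¹) ^ 74 := by ring
    rw [h4]; exact h3
  · have h3 := PB.pow hp0 (by positivity) (PB.mul hp0 zero_le_one zero_le_one
      (H1_lin (p := p) k (0 : ℤ) 1 (Or.inl rfl)) (H1_lin (p := p) k (16 * p : ℤ) 1 (Or.inl rfl))) 74
    simpa using h3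

/-- the total bound at the pole `k` -/
def H1_A (p r s l l' k : ℕ) : ℚ :=
  H1_b p k * ((H1_a p k r ^ l * ∏ r' ∈ (Finset.Icc 1 ((p - 1) / 2)).erase r, H1_a p k r' ^ 66) *
    (H1_a p k s ^ l' * ∏ r' ∈ (Finset.Icc 1 ((p - 1) / 2)).erase s, H1_a p k r' ^ 66))

lemma H1_A_nonneg (r s l l' k : ℕ) : 0 ≤ H1_A p r s l l' k := by
  unfold H1_A
  have h1 := H1_b_nonneg (p := p) k
  have h2 : ∀ r, 0 ≤ H1_a p k r := fun r => H1_a_nonneg k r
  have h3 : ∀ S : Finset ℕ, 0 ≤ ∏ r' ∈ S, H1_a p k r' ^ 66 := fun S =>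
    Finset.prod_nonneg fun i _ => pow_nonneg (h2 i) _
  exact mul_nonneg h1 (mul_nonneg (mul_nonneg (pow_nonneg (h2 _) _) (h3 _))
    (mul_nonneg (pow_nonneg (h2 _) _) (h3 _)))

lemma H1_PB (r s l l' k : ℕ) : PB p (p : ℚ) (H1_A p r s l l' k) (TS (-(k : ℚ)) (EE p
    ((XN p r ^ l * ∏ r' ∈ (Finset.Icc 1 ((p - 1) / 2)).erase r, XN p r' ^ 66) *
       (XN p s ^ l' * ∏ r' ∈ (Finset.Icc 1 ((p - 1) / 2)).erase s, XN p r' ^ 66)))) := by
  have hp0 : (0 : ℚ) ≤ p := p_pos'.le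
  have h2 : ∀ r, 0 ≤ H1_a p k r := fun r => H1_a_nonneg k r
  have h3 : ∀ S : Finset ℕ, 0 ≤ ∏ r' ∈ S, H1_a p k r' ^ 66 := fun S =>
    Finset.prod_nonneg fun i _ => pow_nonneg (h2 i) _
  unfold EE H1_A
  simp only [mul_comp, pow_comp, prod_comp, X_comp]
  rw [map_mul, map_mul, map_mul, map_mul, map_prod, map_prod, map_pow (TS (-(k : ℚ))) ((XN p r).comp (xp p)),
    map_pow (TS (-(k : ℚ))) ((XN p s).comp (xp p))]
  have hprod : ∀ S : Finset ℕ, PB p (p : ℚ) (∏ r' ∈ S, H1_a p k r' ^ 66)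
      (∏ r' ∈ S, TS (-(k : ℚ)) (((XN p r').comp (xp p)) ^ 66)) := by
    intro S
    apply PB.prod _ _ _ hp0
    · intro i _; exact pow_nonneg (h2 i) _
    · intro i _
      rw [map_pow]
      exact PB.pow hp0 (h2 i) (H1_node k i) 66
  refine PB.mul hp0 (H1_b_nonneg k) (mul_nonneg (mul_nonneg (pow_nonneg (h2 _) _) (h3 _))
    (mul_nonneg (pow_nonneg (h2 _) _) (h3 _))) (H1_x55 k) ?_
  refine PB.mul hp0 (mul_nonneg (pow_nonneg (h2 _) _) (h3 _)) (mul_nonneg (pow_nonneg (h2 _) _) (h3 _)) ?_ ?_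
  · exact PB.mul hp0 (pow_nonneg (h2 _) _) (h3 _) (PB.pow hp0 (h2 _) (H1_node k r) l) (hprod _)
  · exact PB.mul hp0 (pow_nonneg (h2 _) _) (h3 _) (PB.pow hp0 (h2 _) (H1_node k s) l') (hprod _)

/-- numerical value of the bound -/
lemma H1_A_le (hp30 : 100 ≤ p) (r s l l' : ℕ) (hr1 : 1 ≤ r) (hr2 : 2 * r < p) (hs1 : 1 ≤ s)
    (hs2 : 2 * s < p) (hrs : r ≠ s) (hl : l < 66) (hl' : l' < 66) (k : ℕ) :
    (p : ℚ) ^ (((l : ℤ) + l') - eeN p p k) * H1_A p r s l l' k ≤ (p : ℚ)⁻¹ := by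
  have hp1 : (1 : ℚ) ≤ p := p_one'
  have hp0 : (0 : ℚ) < p := p_pos'
  have hpz : (0 : ℤ) < p := by exact_mod_cast hp.out.pos
  have h2 : ∀ r, 0 ≤ H1_a p k r := fun r => H1_a_nonneg k r
  have h2' : ∀ r, H1_a p k r ≤ 1 := fun r => H1_a_le_one k r
  have h2p : ∀ r, H1_a p k r ^ 66 ≤ 1 := fun r => pow_le_one₀ (h2 r) (h2' r)
  have h2n : ∀ r, 0 ≤ H1_a p k r ^ 66 := fun r => pow_nonneg (h2 r) _
  have h3 : ∀ S : Finset ℕ, 0 ≤ ∏ r' ∈ S, H1_a p k r' ^ 66 := fun S =>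
    Finset.prod_nonneg fun i _ => h2n i
  have h3' : ∀ S : Finset ℕ, ∏ r' ∈ S, H1_a p k r' ^ 66 ≤ 1 := fun S =>
    H1_prod_le_one S _ h2n h2p
  have hb0 := H1_b_nonneg (p := p) k
  have hb1 := H1_b_le_one (p := p) k
  have hal : H1_a p k r ^ l ≤ 1 := pow_le_one₀ (h2 r) (h2' r)
  have hal' : H1_a p k s ^ l' ≤ 1 := pow_le_one₀ (h2 s) (h2' s)
  have hal0 : 0 ≤ H1_a p k r ^ l := pow_nonneg (h2 r) _
  have hal0' : 0 ≤ H1_a p k s ^ l' := pow_nonneg (h2 s) _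
  have hrI : r ∈ Finset.Icc 1 ((p - 1) / 2) := by rw [Finset.mem_Icc]; omega
  have hsI : s ∈ Finset.Icc 1 ((p - 1) / 2) := by rw [Finset.mem_Icc]; omega
  -- reduction to an exponent
  have fin : ∀ m : ℕ, H1_A p r s l l' k ≤ ((p : ℚ)⁻¹) ^ m → (l : ℤ) + l' - eeN p p k - m ≤ -1 →
      (p : ℚ) ^ (((l : ℤ) + l') - eeN p p k) * H1_A p r s l l' k ≤ (p : ℚ)⁻¹ := by
    intro m h4 h5
    calc (p : ℚ) ^ (((l : ℤ) + l') - eeN p p k) * H1_A p r s l l' k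
        ≤ (p : ℚ) ^ (((l : ℤ) + l') - eeN p p k) * ((p : ℚ)⁻¹) ^ m :=
          mul_le_mul_of_nonneg_left h4 (zpow_nonneg hp0.le _)
      _ = (p : ℚ) ^ ((l : ℤ) + l' - eeN p p k - m) := by
          rw [inv_pow, ← zpow_natCast, ← zpow_neg, ← zpow_add₀ hp0.ne', ← sub_eq_add_neg]
      _ ≤ (p : ℚ) ^ (-1 : ℤ) := zpow_le_zpow_right₀ hp1 h5
      _ = (p : ℚ)⁻¹ := zpow_neg_one _
  by_cases hk : (p : ℤ) ∣ (k : ℤ)
  · apply fin 148
    · unfold H1_A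
      have e1 : H1_b p k = ((p : ℚ)⁻¹) ^ 148 := by unfold H1_b; rw [if_pos hk]
      rw [e1]
      apply mul_le_of_le_one_right (by positivity)
      refine mul_le_one₀ (mul_le_one₀ hal (h3 _) (h3' _)) (mul_nonneg hal0' (h3 _))
        (mul_le_one₀ hal' (h3 _) (h3' _))
    · rw [H1_ee, if_pos hk]; push_cast; omega
  · have hee : eeN p p k = 0 := by rw [H1_ee, if_neg hk]
    -- the class of k
    obtain ⟨c, hc1, hc2, hc⟩ : ∃ c : ℕ, 1 ≤ c ∧ c ≤ (p - 1) / 2 ∧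
        ((p : ℤ) ∣ (c : ℤ) - k ∨ (p : ℤ) ∣ (16 * p - c : ℤ) - k) := by
      have h5 : k % p < p := Nat.mod_lt _ hp.out.pos
      have h6 : 1 ≤ k % p := by
        rcases Nat.eq_zero_or_pos (k % p) with h | h
        · exfalso; apply hk
          exact_mod_cast Nat.dvd_of_mod_eq_zero h
        · exact h
      have h7 : p * (k / p) + k % p = k := Nat.div_add_mod k p
      have h7z : (p : ℤ) * ((k / p : ℕ) : ℤ) + ((k % p : ℕ) : ℤ) = k := by exact_mod_cast h7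
      have hodd : p % 2 = 1 := by
        rcases hp.out.eq_two_or_odd with h | h
        · omega
        · exact h
      by_cases h8 : k % p ≤ (p - 1) / 2
      · refine ⟨k % p, h6, h8, Or.inl ⟨-((k / p : ℕ) : ℤ), ?_⟩⟩
        linarith
      · refine ⟨p - k % p, by omega, by omega, Or.inr ⟨15 - ((k / p : ℕ) : ℤ), ?_⟩⟩
        rw [Nat.cast_sub h5.le]
        linarith
    have hac : H1_a p k c = (p : ℚ)⁻¹ := by unfold H1_a; rw [if_pos hc]
    by_cases hcr : c = r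
    · subst hcr
      apply fin (l + 66)
      · unfold H1_A
        have e1 : ∏ r' ∈ (Finset.Icc 1 ((p - 1) / 2)).erase s, H1_a p k r' ^ 66 ≤ H1_a p k c ^ 66 :=
          H1_prod_le _ (fun r' => H1_a p k r' ^ 66) h2n h2p c (Finset.mem_erase.2 ⟨hrs, hrI⟩)
        rw [pow_add, ← hac]
        calc _ ≤ 1 * ((H1_a p k c ^ l * 1) * (1 * H1_a p k c ^ 66)) := by
              apply mul_le_mul hb1 _ (mul_nonneg (mul_nonneg hal0 (h3 _)) (mul_nonneg hal0' (h3 _))) zero_le_one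
              apply mul_le_mul _ _ (mul_nonneg hal0' (h3 _)) (by rw [mul_one]; exact hal0)
              · exact mul_le_mul_of_nonneg_left (h3' _) hal0
              · exact mul_le_mul hal' e1 (h3 _) zero_le_one
          _ = _ := by ring
      · rw [hee]; push_cast; omega
    · by_cases hcs : c = s
      · subst hcs
        apply fin (l' + 66)
        · unfold H1_A
          have e1 : ∏ r' ∈ (Finset.Icc 1 ((p - 1) / 2)).erase r, H1_a p k r' ^ 66 ≤ H1_a p k c ^ 66 :=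
            H1_prod_le _ (fun r' => H1_a p k r' ^ 66) h2n h2p c (Finset.mem_erase.2 ⟨hcr, hsI⟩)
          rw [pow_add, ← hac]
          calc _ ≤ 1 * ((1 * H1_a p k c ^ 66) * (H1_a p k c ^ l' * 1)) := by
                apply mul_le_mul hb1 _ (mul_nonneg (mul_nonneg hal0 (h3 _)) (mul_nonneg hal0' (h3 _))) zero_le_one
                apply mul_le_mul _ _ (mul_nonneg hal0' (h3 _)) (by rw [one_mul]; exact h2n _)
                · exact mul_le_mul hal e1 (h3 _) zero_le_one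
                · exact mul_le_mul_of_nonneg_left (h3' _) hal0'
            _ = _ := by ring
        · rw [hee]; push_cast; omega
      · apply fin 132
        · unfold H1_A
          have hcI : c ∈ Finset.Icc 1 ((p - 1) / 2) := Finset.mem_Icc.2 ⟨hc1, hc2⟩
          have e1 : ∏ r' ∈ (Finset.Icc 1 ((p - 1) / 2)).erase r, H1_a p k r' ^ 66 ≤ H1_a p k c ^ 66 :=
            H1_prod_le _ (fun r' => H1_a p k r' ^ 66) h2n h2p c (Finset.mem_erase.2 ⟨hcr, hcI⟩)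
          have e2 : ∏ r' ∈ (Finset.Icc 1 ((p - 1) / 2)).erase s, H1_a p k r' ^ 66 ≤ H1_a p k c ^ 66 :=
            H1_prod_le _ (fun r' => H1_a p k r' ^ 66) h2n h2p c (Finset.mem_erase.2 ⟨hcs, hcI⟩)
          rw [show (132 : ℕ) = 66 + 66 from rfl, pow_add, ← hac]
          calc _ ≤ 1 * ((1 * H1_a p k c ^ 66) * (1 * H1_a p k c ^ 66)) := by
                apply mul_le_mul hb1 _ (mul_nonneg (mul_nonneg hal0 (h3 _)) (mul_nonneg hal0' (h3 _))) zero_le_one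
                apply mul_le_mul _ _ (mul_nonneg hal0' (h3 _)) (by rw [one_mul]; exact h2n _)
                · exact mul_le_mul hal e1 (h3 _) zero_le_one
                · exact mul_le_mul hal' e2 (h3 _) zero_le_one
            _ = _ := by ring
        · rw [hee]; push_cast; omega

/-- `xf` is small if all coefficients are -/
lemma H1_xf_le (u : ℕ → ℚ) (hu : ∀ i, padicNorm p (u i) ≤ 1) (hp30 : 100 ≤ p) (P : ℚ[X]) (W : ℚ)
    (hW : 0 ≤ W) (h : ∀ k ∈ sN p, ∀ i, padicNorm p (pa (sN p) (muN p) P k i) * (p : ℚ) ^ (i + 6) ≤ W) :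
    padicNorm p (xf p u P) ≤ W := by
  have hp1 : (1 : ℚ) ≤ p := p_one'
  unfold xf
  apply padicNorm.sum_le' _ hW
  intro i _
  rw [padicNorm.mul]
  have e1 : padicNorm p (((Nat.choose (i + 5) 6 : ℕ) : ℚ)) ≤ 1 := padicNorm.of_nat _
  have e2 : padicNorm p ((∑ k ∈ sN p, pa (sN p) (muN p) P k i) * u i -
      ∑ k ∈ sN p, pa (sN p) (muN p) P k i * hs (i + 6) (k - 2 * p - 1)) ≤ W := by
    refine padicNorm.sub.trans (max_le ?_ ?_)
    · rw [Finset.sum_mul]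
      apply padicNorm.sum_le' _ hW
      intro k hk
      rw [padicNorm.mul]
      refine le_trans ?_ (h k hk i)
      apply mul_le_mul_of_nonneg_left _ (padicNorm.nonneg _)
      exact (hu i).trans (one_le_pow₀ hp1)
    · apply padicNorm.sum_le' _ hW
      intro k hk
      rw [padicNorm.mul]
      refine le_trans ?_ (h k hk i)
      apply mul_le_mul_of_nonneg_left _ (padicNorm.nonneg _)
      apply hs_norm_med
      rw [sN, ss, Finset.mem_Icc] at hk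
      have : 16 * p < p * p := Nat.mul_lt_mul_of_pos_right (by omega) hp.out.pos
      rw [sq]
      omega
  calc _ ≤ 1 * W := mul_le_mul e1 e2 (padicNorm.nonneg _) zero_le_one
    _ = W := one_mul W

/-- `H4_offdiag`, from `C1_pa_mul` -/
theorem H4_offdiag_of
    (C1_pa_mul : ∀ (E : ℚ[X]) {k : ℕ}, k ∈ sN p → ∀ (A : ℚ), 0 ≤ A → PB p (p : ℚ) A (TS (-(k : ℚ)) E) →
      ∀ i : ℕ, padicNorm p (pa (sN p) (muN p) (PPn p * E) k i) ≤ (p : ℚ) ^ (-(eeN p p k) - i : ℤ) * A)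
    (hp30 : 100 ≤ p) (u : ℕ → ℚ) (hu : ∀ i, padicNorm p (u i) ≤ 1)
    (r s l l' : ℕ) (hr1 : 1 ≤ r) (hr2 : 2 * r < p) (hs1 : 1 ≤ s) (hs2 : 2 * s < p) (hrs : r ≠ s)
    (hl : l < 66) (hl' : l' < 66) :
    padicNorm p ((p : ℚ) ^ (6 - (l : ℤ) - (l' : ℤ)) * NL p u
      ((XN p r ^ l * ∏ r' ∈ (Finset.Icc 1 ((p - 1) / 2)).erase r, XN p r' ^ 66) *
       (XN p s ^ l' * ∏ r' ∈ (Finset.Icc 1 ((p - 1) / 2)).erase s, XN p r' ^ 66))) ≤ (p : ℚ)⁻¹ := by
  have hp0 : (0 : ℚ) < p := p_pos'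
  rw [NL_apply]
  have key := H1_xf_le u hu hp30 (PPn p * EE p
      ((XN p r ^ l * ∏ r' ∈ (Finset.Icc 1 ((p - 1) / 2)).erase r, XN p r' ^ 66) *
       (XN p s ^ l' * ∏ r' ∈ (Finset.Icc 1 ((p - 1) / 2)).erase s, XN p r' ^ 66)))
    ((p : ℚ) ^ (6 - (l : ℤ) - (l' : ℤ)) * (p : ℚ)⁻¹) (by positivity) (by
      intro k hk i
      have h1 := C1_pa_mul _ hk _ (H1_A_nonneg r s l l' k) (H1_PB r s l l' k) i
      have h2 := H1_A_le hp30 r s l l' hr1 hr2 hs1 hs2 hrs hl hl' k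
      generalize eeN p p k = ek at h1 h2
      calc _ ≤ ((p : ℚ) ^ (-ek - i : ℤ) * H1_A p r s l l' k) * (p : ℚ) ^ (i + 6) :=
            mul_le_mul_of_nonneg_right h1 (by positivity)
        _ = (p : ℚ) ^ (6 - (l : ℤ) - (l' : ℤ)) *
            ((p : ℚ) ^ (((l : ℤ) + l') - ek) * H1_A p r s l l' k) := by
            have e1 : (p : ℚ) ^ (-ek - i : ℤ) * (p : ℚ) ^ (i + 6) =
                (p : ℚ) ^ (6 - (l : ℤ) - (l' : ℤ)) * (p : ℚ) ^ (((l : ℤ) + l') - ek) := by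
              rw [← zpow_natCast (p : ℚ) (i + 6), ← zpow_add₀ hp0.ne', ← zpow_add₀ hp0.ne']
              congr 1
              push_cast
              ring
            linear_combination (H1_A p r s l l' k) * e1
        _ ≤ _ := mul_le_mul_of_nonneg_left h2 (by positivity))
  rw [padicNorm.mul]
  have h5 : padicNorm p ((p : ℚ) ^ (6 - (l : ℤ) - (l' : ℤ))) = (p : ℚ) ^ (-(6 - (l : ℤ) - (l' : ℤ))) :=
    H1_norm_zpow _
  rw [h5]
  calc _ ≤ (p : ℚ) ^ (-(6 - (l : ℤ) - (l' : ℤ))) * ((p : ℚ) ^ (6 - (l : ℤ) - (l' : ℤ)) * (p : ℚ)⁻¹) :=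
        mul_le_mul_of_nonneg_left key (by positivity)
    _ = (p : ℚ)⁻¹ := by
        rw [← mul_assoc, ← zpow_add₀ hp0.ne', neg_add_cancel, zpow_zero, one_mul]

end off

theorem H4_offdiag {p : ℕ} [Fact p.Prime] (hp : 100 ≤ p) (u : ℕ → ℚ) (hu : ∀ i, padicNorm p (u i) ≤ 1)
    (r s l l' : ℕ) (hr1 : 1 ≤ r) (hr2 : 2 * r < p) (hs1 : 1 ≤ s) (hs2 : 2 * s < p) (hrs : r ≠ s)
    (hl : l < 66) (hl' : l' < 66) :
    padicNorm p ((p : ℚ) ^ (6 - (l : ℤ) - (l' : ℤ)) * NL p u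
      ((XN p r ^ l * ∏ r' ∈ (Finset.Icc 1 ((p - 1) / 2)).erase r, XN p r' ^ 66) *
       (XN p s ^ l' * ∏ r' ∈ (Finset.Icc 1 ((p - 1) / 2)).erase s, XN p r' ^ 66))) ≤ (p : ℚ)⁻¹ := by
  have hp2 : 16 * p < p ^ 2 := by
    have : 16 * p < p * p := Nat.mul_lt_mul_of_pos_right (by omega) (by omega)
    rw [sq]
    exact this
  exact H4_offdiag_of (fun E {k} hk A hA hE i => C1_pa_mul (by omega) hp2 E hk A hA hE i) hp u hu
    r s l l' hr1 hr2 hs1 hs2 hrs hl hl'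

end

end Pool.Agent.H343Y
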