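import Pool.Agent.H343Y.Defs

/-!
# The local Hankel determinant is nonzero (task H5)

Everything is computed modulo `101`; the certificate is the inverse matrix.
-/

set_option autoImplicit false

open Polynomial Pool.Agent.H337R2

namespace Pool.Agent.H343Y

namespace H5

theorem prime101 : Nat.Prime 101 := by norm_num

local instance fact101 : Fact (Nat.Prime 101) := ⟨prime101⟩

/-- `x` is integral at `101` with residue `a` -/
def Rd (x : ℚ) (a : ZMod 101) : Prop := ∃ m : ℤ, (m : ZMod 101) = a ∧ padicNorm 101 (x - m) < 1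

theorem Rd.le_one {x : ℚ} {a : ZMod 101} (h : Rd x a) : padicNorm 101 x ≤ 1 := by
  obtain ⟨m, -, h2⟩ := h
  have e : x = (x - m) + m := by ring
  rw [e]
  exact (padicNorm.nonarchimedean).trans (max_le h2.le (padicNorm.of_int m))

theorem Rd.int (m : ℤ) : Rd (m : ℚ) (m : ZMod 101) := ⟨m, rfl, by simp⟩

theorem Rd.nat (m : ℕ) : Rd (m : ℚ) (m : ZMod 101) := by
  have := Rd.int (m : ℤ)
  push_cast at this
  exact this

theorem Rd.zero : Rd 0 0 := by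
  have := Rd.int 0
  push_cast at this
  exact this

theorem Rd.one : Rd 1 1 := by
  have := Rd.int 1
  push_cast at this
  exact this

theorem Rd.add {x y : ℚ} {a b : ZMod 101} (h : Rd x a) (h' : Rd y b) : Rd (x + y) (a + b) := by
  obtain ⟨m, h1, h2⟩ := h
  obtain ⟨m', h1', h2'⟩ := h'
  refine ⟨m + m', by push_cast; rw [h1, h1'], ?_⟩
  have e : x + y - ((m + m' : ℤ) : ℚ) = (x - m) + (y - m') := by push_cast; ring
  rw [e]
  exact (padicNorm.nonarchimedean).trans_lt (max_lt h2 h2')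

theorem Rd.neg {x : ℚ} {a : ZMod 101} (h : Rd x a) : Rd (-x) (-a) := by
  obtain ⟨m, h1, h2⟩ := h
  refine ⟨-m, by push_cast; rw [h1], ?_⟩
  have e : -x - ((-m : ℤ) : ℚ) = -(x - m) := by push_cast; ring
  rw [e, padicNorm.neg]
  exact h2

theorem Rd.sub {x y : ℚ} {a b : ZMod 101} (h : Rd x a) (h' : Rd y b) : Rd (x - y) (a - b) := by
  rw [sub_eq_add_neg, sub_eq_add_neg]
  exact h.add h'.neg

theorem Rd.mul {x y : ℚ} {a b : ZMod 101} (h : Rd x a) (h' : Rd y b) : Rd (x * y) (a * b) := by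
  have hy := h'.le_one
  obtain ⟨m, h1, h2⟩ := h
  obtain ⟨m', h1', h2'⟩ := h'
  refine ⟨m * m', by push_cast; rw [h1, h1'], ?_⟩
  have e : x * y - ((m * m' : ℤ) : ℚ) = (x - m) * y + m * (y - m') := by push_cast; ring
  rw [e]
  refine (padicNorm.nonarchimedean).trans_lt (max_lt ?_ ?_)
  · rw [padicNorm.mul]
    exact mul_lt_one_of_nonneg_of_lt_one_left (padicNorm.nonneg _) h2 hy
  · rw [padicNorm.mul]
    exact mul_lt_one_of_nonneg_of_lt_one_right (padicNorm.of_int m) (padicNorm.nonneg _) h2'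

theorem Rd.pow {x : ℚ} {a : ZMod 101} (h : Rd x a) (n : ℕ) : Rd (x ^ n) (a ^ n) := by
  induction n with
  | zero => simpa using Rd.one
  | succ n ih => rw [pow_succ, pow_succ]; exact ih.mul h

theorem Rd.sum {ι : Type*} (s : Finset ι) (f : ι → ℚ) (g : ι → ZMod 101)
    (h : ∀ i ∈ s, Rd (f i) (g i)) : Rd (∑ i ∈ s, f i) (∑ i ∈ s, g i) := by
  classical
  induction s using Finset.induction_on with
  | empty => simpa using Rd.zero
  | insert a s ha ih =>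
    rw [Finset.sum_insert ha, Finset.sum_insert ha]
    exact (h a (Finset.mem_insert_self _ _)).add
      (ih fun i hi => h i (Finset.mem_insert_of_mem hi))

theorem Rd.prod {ι : Type*} (s : Finset ι) (f : ι → ℚ) (g : ι → ZMod 101)
    (h : ∀ i ∈ s, Rd (f i) (g i)) : Rd (∏ i ∈ s, f i) (∏ i ∈ s, g i) := by
  classical
  induction s using Finset.induction_on with
  | empty => simpa using Rd.one
  | insert a s ha ih =>
    rw [Finset.prod_insert ha, Finset.prod_insert ha]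
    exact (h a (Finset.mem_insert_self _ _)).mul
      (ih fun i hi => h i (Finset.mem_insert_of_mem hi))

theorem Rd.det {n : ℕ} (M : Matrix (Fin n) (Fin n) ℚ) (A : Matrix (Fin n) (Fin n) (ZMod 101))
    (h : ∀ i j, Rd (M i j) (A i j)) : Rd M.det A.det := by
  rw [Matrix.det_apply', Matrix.det_apply']
  apply Rd.sum
  intro σ _
  apply Rd.mul (Rd.int _)
  apply Rd.prod
  intro i _
  exact h _ _

theorem zmod_zero (m : ℤ) : ((m : ZMod 101) = 0) ↔ padicNorm 101 (m : ℚ) < 1 := by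
  rw [padicNorm.int_lt_one_iff, ZMod.intCast_zmod_eq_zero_iff_dvd]

theorem Rd.ne_zero {x : ℚ} {a : ZMod 101} (h : Rd x a) (ha : a ≠ 0) : x ≠ 0 := by
  rintro rfl
  obtain ⟨m, h1, h2⟩ := h
  apply ha
  rw [← h1, zmod_zero]
  rwa [zero_sub, padicNorm.neg] at h2

theorem Rd.inv {x : ℚ} {a b : ZMod 101} (h : Rd x a) (hab : a * b = 1) : Rd x⁻¹ b := by
  have hx0 : x ≠ 0 := h.ne_zero (by rintro rfl; simp at hab)
  obtain ⟨m, h1, h2⟩ := h
  obtain ⟨m', h1'⟩ := ZMod.intCast_surjective b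
  have hm : ((m : ZMod 101)) ≠ 0 := by
    rw [h1]; rintro rfl; simp at hab
  have hm1 : padicNorm 101 (m : ℚ) = 1 := by
    rw [padicNorm.int_eq_one_iff]
    intro hd
    exact hm ((ZMod.intCast_zmod_eq_zero_iff_dvd m 101).2 hd)
  have hx1 : padicNorm 101 x = 1 := by
    have e : x = (x - m) + m := by ring
    rw [e, padicNorm.add_eq_max_of_ne (by rw [hm1]; exact h2.ne), hm1]
    exact max_eq_right h2.le
  refine ⟨m', h1', ?_⟩
  have e : x⁻¹ - m' = (((1 - m * m' : ℤ) : ℚ) + m' * ((m : ℚ) - x)) / x := by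
    push_cast; field_simp; ring
  rw [e, padicNorm.div, hx1, div_one]
  refine (padicNorm.nonarchimedean).trans_lt (max_lt ?_ ?_)
  · rw [← zmod_zero]
    push_cast
    rw [h1, h1', hab, sub_self]
  · rw [padicNorm.mul, ← padicNorm.neg ((m : ℚ) - x), neg_sub]
    exact mul_lt_one_of_nonneg_of_lt_one_right (padicNorm.of_int m') (padicNorm.nonneg _) h2

/-! ### lists modulo 101 -/

/-- multiplication by `X + c`, with carry -/
def mulS (c : ℕ) : ℕ → List ℕ → List ℕ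
  | _, [] => []
  | prev, a :: l => ((prev + c * a) % 101) :: mulS c a l

/-- division by `X + a`, where `a' = 1 / a`, with carry -/
def divS (a' : ℕ) : ℕ → List ℕ → List ℕ
  | _, [] => []
  | prev, x :: l => ((x + (101 - prev)) * a' % 101) :: divS a' ((x + (101 - prev)) * a' % 101) l

theorem mulS_length (c : ℕ) (l : List ℕ) : ∀ prev, (mulS c prev l).length = l.length := by
  induction l with
  | nil => intro _; rfl
  | cons a l ih => intro prev; simp [mulS, ih]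

theorem divS_length (c : ℕ) (l : List ℕ) : ∀ prev, (divS c prev l).length = l.length := by
  induction l with
  | nil => intro _; rfl
  | cons a l ih => intro prev; simp [divS, ih]

theorem mulS_spec (c : ℕ) (c' : ℚ) (hc : Rd c' (c : ZMod 101)) (l : List ℕ) : ∀ (prev : ℕ) (x : ℚ)
    (f : ℕ → ℚ), Rd x (prev : ZMod 101) →
    (∀ d < l.length, Rd (f d) ((l.getD d 0 : ℕ) : ZMod 101)) →
    ((0 < l.length → Rd (x + c' * f 0) (((mulS c prev l).getD 0 0 : ℕ) : ZMod 101)) ∧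
      ∀ d, d + 1 < l.length → Rd (f d + c' * f (d + 1))
        (((mulS c prev l).getD (d + 1) 0 : ℕ) : ZMod 101)) := by
  induction l with
  | nil =>
    intro prev x f _ _
    refine ⟨fun h => absurd h (by simp), fun d h => absurd h (by simp)⟩
  | cons a l ih =>
    intro prev x f hx hf
    have h0 : Rd (f 0) (a : ZMod 101) := by
      have := hf 0 (by simp)
      simpa using this
    have hih := ih a (f 0) (fun d => f (d + 1)) h0 (fun d hd => by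
      have := hf (d + 1) (by simpa using hd)
      simpa using this)
    refine ⟨fun _ => ?_, fun d hd => ?_⟩
    · have e : (((mulS c prev (a :: l)).getD 0 0 : ℕ) : ZMod 101) =
          (prev : ZMod 101) + (c : ZMod 101) * (a : ZMod 101) := by
        simp only [mulS, List.getD_cons_zero, ZMod.natCast_mod]
        push_cast
        rfl
      rw [e]
      exact hx.add (hc.mul h0)
    · have e : (mulS c prev (a :: l)).getD (d + 1) 0 = (mulS c a l).getD d 0 := by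
        simp only [mulS, List.getD_cons_succ]
      rw [e]
      cases d with
      | zero => exact hih.1 (by simpa using hd)
      | succ d => exact hih.2 d (by simpa using hd)

theorem divS_spec (c : ℕ) (c' : ℚ) (hc : Rd c' (c : ZMod 101)) (l : List ℕ) : ∀ (prev : ℕ) (x : ℚ)
    (f g : ℕ → ℚ), prev ≤ 101 → Rd x (prev : ZMod 101) →
    (∀ d < l.length, Rd (f d) ((l.getD d 0 : ℕ) : ZMod 101)) →
    (g 0 = (f 0 - x) * c') → (∀ d, g (d + 1) = (f (d + 1) - g d) * c') →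
    ∀ d, d < l.length → Rd (g d) (((divS c prev l).getD d 0 : ℕ) : ZMod 101) := by
  induction l with
  | nil =>
    intro prev x f g _ _ _ _ _ d h
    exact absurd h (by simp)
  | cons a l ih =>
    intro prev x f g hp hx hf hg0 hg d hd
    have h0 : Rd (f 0) (a : ZMod 101) := by
      have := hf 0 (by simp)
      simpa using this
    have hz : ((101 : ℕ) : ZMod 101) = 0 := ZMod.natCast_self 101
    have h1 : Rd (g 0) ((((a + (101 - prev)) * c % 101 : ℕ)) : ZMod 101) := by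
      rw [ZMod.natCast_mod, Nat.cast_mul, Nat.cast_add, Nat.cast_sub hp, hz, hg0]
      have := (h0.sub hx).mul hc
      rw [zero_sub, ← sub_eq_add_neg]
      exact this
    cases d with
    | zero =>
      simp only [divS, List.getD_cons_zero]
      exact h1
    | succ d =>
      simp only [divS, List.getD_cons_succ]
      exact ih _ (g 0) (fun d => f (d + 1)) (fun d => g (d + 1)) (Nat.mod_lt _ (by norm_num)).le h1
        (fun d hd => by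
          have := hf (d + 1) (by simpa using hd)
          simpa using this) (hg 0) (fun d => hg (d + 1)) d (by simpa using hd)

/-- `l` is the list of the first sixteen coefficients of `f` modulo `101` -/
def Rp (f : PowerSeries ℚ) (l : List ℕ) : Prop :=
  l.length = 16 ∧ ∀ d < 16, Rd (PowerSeries.coeff d f) ((l.getD d 0 : ℕ) : ZMod 101)

theorem Rp.mulS {f : PowerSeries ℚ} {l : List ℕ} (h : Rp f l) {c' : ℚ} {c : ℕ}
    (hc : Rd c' (c : ZMod 101)) :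
    Rp (f * (PowerSeries.X + PowerSeries.C c')) (mulS c 0 l) := by
  refine ⟨by rw [mulS_length, h.1], ?_⟩
  have key := mulS_spec c c' hc l 0 0 (fun d => PowerSeries.coeff d f)
    (by simpa using Rd.zero) (fun d hd => h.2 d (by rw [h.1] at hd; exact hd))
  intro d hd
  rw [mul_add, map_add, PowerSeries.coeff_mul_C]
  cases d with
  | zero =>
    have := key.1 (by rw [h.1]; norm_num)
    rw [PowerSeries.coeff_zero_mul_X, mul_comm]
    exact this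
  | succ d =>
    have := key.2 d (by rw [h.1]; exact hd)
    rw [PowerSeries.coeff_succ_mul_X, mul_comm (PowerSeries.coeff (d + 1) f)]
    exact this

theorem Rp.divS {f : PowerSeries ℚ} {l : List ℕ} (h : Rp f l) {a : ℚ} (ha : a ≠ 0) {c : ℕ}
    (hc : Rd a⁻¹ (c : ZMod 101)) :
    Rp (f * iv a) (divS c 0 l) := by
  refine ⟨by rw [divS_length, h.1], ?_⟩
  have hg : (f * iv a) * (PowerSeries.X + PowerSeries.C a) = f := by
    rw [mul_assoc, mul_comm (iv a), lin_mul_iv ha, mul_one]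
  intro d hd
  refine divS_spec c a⁻¹ hc l 0 0 (fun d => PowerSeries.coeff d f)
    (fun d => PowerSeries.coeff d (f * iv a)) (by norm_num)
    (by simpa using Rd.zero) (fun d hd => h.2 d (by rw [h.1] at hd; exact hd)) ?_ ?_ d
    (by rw [h.1]; exact hd)
  · have := congrArg (PowerSeries.coeff 0) hg
    rw [mul_add, map_add, PowerSeries.coeff_mul_C, PowerSeries.coeff_zero_mul_X] at this
    rw [← this]
    field_simp
    ring
  · intro d
    have := congrArg (PowerSeries.coeff (d + 1)) hg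
    rw [mul_add, map_add, PowerSeries.coeff_mul_C, PowerSeries.coeff_succ_mul_X] at this
    rw [← this]
    field_simp
    ring

/-- iteration -/
def it (f : List ℕ → List ℕ) : ℕ → List ℕ → List ℕ
  | 0, l => l
  | n + 1, l => it f n (f l)

theorem Rp.mulS_pow {c' : ℚ} {c : ℕ} (hc : Rd c' (c : ZMod 101)) (n : ℕ) :
    ∀ {f : PowerSeries ℚ} {l : List ℕ}, Rp f l →
    Rp (f * (PowerSeries.X + PowerSeries.C c') ^ n) (it (H5.mulS c 0) n l) := by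
  induction n with
  | zero => intro f l h; simpa [it] using h
  | succ n ih =>
    intro f l h
    rw [pow_succ', ← mul_assoc]
    exact ih (h.mulS hc)

theorem Rp.divS_pow {a : ℚ} (ha : a ≠ 0) {c : ℕ} (hc : Rd a⁻¹ (c : ZMod 101)) (n : ℕ) :
    ∀ {f : PowerSeries ℚ} {l : List ℕ}, Rp f l →
    Rp (f * iv a ^ n) (it (H5.divS c 0) n l) := by
  induction n with
  | zero => intro f l h; simpa [it] using h
  | succ n ih =>
    intro f l h
    rw [pow_succ', ← mul_assoc]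
    exact ih (h.divS ha hc)

/-- inverse modulo 101 -/
def iv101 (k : ℕ) : ℕ := k ^ 99 % 101

theorem iv101_spec : ∀ k < 120, k ≠ 0 → k ≠ 101 → k * iv101 k % 101 = 1 := by
  decide +kernel

theorem iv101_mul {k : ℕ} (h : k < 120) (h0 : k ≠ 0) (h1 : k ≠ 101) :
    (k : ZMod 101) * (iv101 k : ZMod 101) = 1 := by
  have := congrArg (fun z : ℕ => (z : ZMod 101)) (iv101_spec k h h0 h1)
  simp only [ZMod.natCast_mod, Nat.cast_mul, Nat.cast_one] at this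
  exact this

/-- the other poles -/
def bs (j : ℕ) : List ℕ := (List.range' 3 10).filter (fun b => b ≠ j)

/-- the base list -/
def bl (j : ℕ) : List ℕ :=
  (bs j).foldl (fun l b => it (divS (iv101 (101 + b - j)) 0) 16 l)
    (it (mulS (116 - j) 0) 7 (it (mulS (115 - j) 0) 7 (it (mulS (102 - j) 0) 7
      (it (mulS (101 - j) 0) 7 [1, 0, 0, 0, 0, 0, 0, 0, 0, 0, 0, 0, 0, 0, 0, 0]))))

/-- the base series -/
noncomputable def bser (j : ℕ) : PowerSeries ℚ :=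
  ((PowerSeries.X + PowerSeries.C (-(j : ℚ))) * (PowerSeries.X + PowerSeries.C (1 - (j : ℚ))) *
    (PowerSeries.X + PowerSeries.C (14 - (j : ℚ))) * (PowerSeries.X + PowerSeries.C (15 - (j : ℚ)))) ^ 7 *
  (∏ b ∈ (Finset.Icc 3 12).erase j, iv ((b : ℚ) - j) ^ 16)

theorem ser_eq (j e : ℕ) : ser j e =
    bser j * (PowerSeries.X + PowerSeries.C (-(j : ℚ))) ^ e := rfl

theorem rd_shift (j r c : ℕ) (hc : c = 101 + r) (hj : j ≤ 12) :
    Rd ((r : ℚ) - (j : ℚ)) ((c - j : ℕ) : ZMod 101) := by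
  have h := Rd.int ((r : ℤ) - (j : ℤ))
  have e : (((r : ℤ) - (j : ℤ) : ℤ) : ZMod 101) = ((c - j : ℕ) : ZMod 101) := by
    rw [Nat.cast_sub (by omega), hc, Nat.cast_add, ZMod.natCast_self]
    push_cast
    ring
  rw [e] at h
  push_cast at h
  exact h

theorem fold_rep (j : ℕ) (hj : j ≤ 12) (bl : List ℕ) : ∀ (f : PowerSeries ℚ) (l : List ℕ),
    (∀ b ∈ bl, b ≠ j ∧ b ≤ 12) → Rp f l →
    Rp (f * (bl.map (fun b : ℕ => iv ((b : ℚ) - j) ^ 16)).prod)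
      (bl.foldl (fun l b => it (divS (iv101 (101 + b - j)) 0) 16 l) l) := by
  induction bl with
  | nil => intro f l _ h; simpa using h
  | cons b bl ih =>
    intro f l hb h
    rw [List.map_cons, List.prod_cons, List.foldl_cons, ← mul_assoc]
    apply ih _ _ (fun b' hb' => hb b' (List.mem_cons_of_mem _ hb'))
    obtain ⟨h1, h2⟩ := hb b (List.mem_cons_self)
    have hne : (b : ℚ) - (j : ℚ) ≠ 0 := by
      rw [sub_ne_zero]
      exact_mod_cast h1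
    apply Rp.divS_pow hne _ 16 h
    exact (rd_shift j b (101 + b) rfl hj).inv (iv101_mul (by omega) (by omega) (by omega))

theorem bser_rep (j : ℕ) (h3 : 3 ≤ j) (hj : j ≤ 12) : Rp (bser j) (bl j) := by
  have h0 : Rp (1 : PowerSeries ℚ) [1, 0, 0, 0, 0, 0, 0, 0, 0, 0, 0, 0, 0, 0, 0, 0] := by
    refine ⟨rfl, ?_⟩
    intro d hd
    rw [PowerSeries.coeff_one]
    interval_cases d <;> simp [Rd.one, Rd.zero]
  have h1 := Rp.mulS_pow (rd_shift j 0 101 rfl hj) 7 h0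
  have h2 := Rp.mulS_pow (rd_shift j 1 102 rfl hj) 7 h1
  have h4 := Rp.mulS_pow (rd_shift j 14 115 rfl hj) 7 h2
  have h5 := Rp.mulS_pow (rd_shift j 15 116 rfl hj) 7 h4
  have h6 := fold_rep j hj (bs j) _ _ (by
    intro b hb
    unfold bs at hb
    rw [List.mem_filter, List.mem_range'_1] at hb
    refine ⟨by simpa using hb.2, by omega⟩) h5
  have e1 : bser j = 1 * (PowerSeries.X + PowerSeries.C (((0 : ℕ) : ℚ) - (j : ℚ))) ^ 7 *
      (PowerSeries.X + PowerSeries.C (((1 : ℕ) : ℚ) - (j : ℚ))) ^ 7 *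
      (PowerSeries.X + PowerSeries.C (((14 : ℕ) : ℚ) - (j : ℚ))) ^ 7 *
      (PowerSeries.X + PowerSeries.C (((15 : ℕ) : ℚ) - (j : ℚ))) ^ 7 *
      ((bs j).map (fun b : ℕ => iv ((b : ℚ) - j) ^ 16)).prod := by
    have e2 : ((bs j).map (fun b : ℕ => iv ((b : ℚ) - j) ^ 16)).prod =
        ∏ b ∈ (Finset.Icc 3 12).erase j, iv ((b : ℚ) - j) ^ 16 := by
      have e3 : (Finset.Icc 3 12).erase j = (bs j).toFinset := by
        ext b
        unfold bs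
        rw [Finset.mem_erase, Finset.mem_Icc, List.mem_toFinset, List.mem_filter,
          List.mem_range'_1]
        simp only [decide_eq_true_eq, ne_eq]
        omega
      rw [e3, List.prod_toFinset]
      unfold bs
      exact (List.nodup_range').filter _
    rw [e2]
    unfold bser
    rw [one_mul, mul_pow, mul_pow, mul_pow]
    push_cast
    rw [zero_sub]
  rw [e1]
  exact h6

theorem ser_rep (j : ℕ) (h3 : 3 ≤ j) (hj : j ≤ 12) (e : ℕ) :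
    Rp (ser j e) (it (mulS (101 - j) 0) e (bl j)) := by
  rw [ser_eq]
  have := rd_shift j 0 101 rfl hj
  rw [Nat.cast_zero, zero_sub] at this
  exact Rp.mulS_pow this e (bser_rep j h3 hj)

/-! ### weights -/

/-- harmonic sums -/
def hsm (e n : ℕ) : ℕ := ((List.range n).map (fun l => (iv101 (l + 1)) ^ e)).sum

/-- sign -/
def sg (d : ℕ) : ℕ := if d % 2 = 1 then 1 else 100

/-- weights -/
def wl (j : ℕ) : List ℕ := (List.range 16).map (fun d =>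
  (Nat.choose (21 - d) 6 * (hsm (22 - d) (j - 2) + sg d * hsm (22 - d) (13 - j))) % 101)

theorem sum_range_list {R : Type*} [Semiring R] (f : ℕ → R) (n : ℕ) :
    ((List.range n).map f).sum = ∑ m ∈ Finset.range n, f m := by
  induction n with
  | zero => simp
  | succ n ih => rw [List.range_succ, List.map_append, List.sum_append, ih, Finset.sum_range_succ]; simp

theorem hs_rd (e n : ℕ) (hn : n < 100) : Rd (hs e n) ((hsm e n : ℕ) : ZMod 101) := by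
  unfold hs hsm
  rw [sum_range_list, Nat.cast_sum]
  apply Rd.sum
  intro l hl
  rw [Finset.mem_range] at hl
  rw [one_div, ← inv_pow, Nat.cast_pow]
  apply Rd.pow
  apply Rd.inv (a := ((l + 1 : ℕ) : ZMod 101))
  · have := Rd.nat (l + 1)
    rw [Nat.cast_add, Nat.cast_one] at this
    exact this
  · exact iv101_mul (by omega) (by omega) (by omega)

theorem wl_rd (j d : ℕ) (h3 : 3 ≤ j) (hj : j ≤ 12) (hd : d < 16) :
    Rd (((Nat.choose (21 - d) 6 : ℕ) : ℚ) * (hs (22 - d) (j - 2) + (-1) ^ (17 - d) * hs (22 - d) (13 - j)))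
      (((wl j).getD d 0 : ℕ) : ZMod 101) := by
  have e1 : (wl j).getD d 0 =
      (Nat.choose (21 - d) 6 * (hsm (22 - d) (j - 2) + sg d * hsm (22 - d) (13 - j))) % 101 := by
    unfold wl
    rw [List.getD_eq_getElem?_getD, List.getElem?_map, List.getElem?_range hd]
    rfl
  rw [e1, ZMod.natCast_mod, Nat.cast_mul, Nat.cast_add, Nat.cast_mul]
  refine (Rd.nat _).mul ((hs_rd _ _ (by omega)).add (Rd.mul ?_ (hs_rd _ _ (by omega))))
  unfold sg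
  split_ifs with h
  · have : Even (17 - d) := by
      rw [Nat.even_iff]; omega
    rw [this.neg_one_pow, Nat.cast_one]
    exact Rd.one
  · have : Odd (17 - d) := by
      rw [Nat.odd_iff]; omega
    rw [this.neg_one_pow]
    have h100 : (((100 : ℕ)) : ZMod 101) = -1 := by decide
    rw [h100]
    exact Rd.one.neg

/-- dot product -/
def dot : List ℕ → List ℕ → ℕ
  | a :: l, b :: m => a * b + dot l m
  | _, _ => 0

theorem dot_eq (m : List ℕ) : ∀ l : List ℕ,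
    dot l m = ∑ k ∈ Finset.range m.length, l.getD k 0 * m.getD k 0 := by
  induction m with
  | nil =>
    intro l
    cases l <;> simp [dot]
  | cons b m ih =>
    intro l
    cases l with
    | nil => simp [dot]
    | cons a l =>
      rw [dot, ih, List.length_cons, Finset.sum_range_succ']
      simp only [List.getD_cons_succ, List.getD_cons_zero]
      rw [add_comm]

/-- values of the functional at the pole `j` -/
def run (c : ℕ) (w : List ℕ) : ℕ → List ℕ → List ℕ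
  | 0, _ => []
  | n + 1, l => (dot w l) % 101 :: run c w n (mulS c 0 l)

theorem run_getD (c : ℕ) (w : List ℕ) (n : ℕ) : ∀ (l : List ℕ) (e : ℕ), e < n →
    (run c w n l).getD e 0 = dot w (it (mulS c 0) e l) % 101 := by
  induction n with
  | zero => intro l e h; exact absurd h (Nat.not_lt_zero _)
  | succ n ih =>
    intro l e h
    cases e with
    | zero => simp [run, it]
    | succ e =>
      rw [run, List.getD_cons_succ, ih _ e (by omega)]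
      rfl

/-- values of the functional at the pole `j` -/
def Rl (j : ℕ) : List ℕ := run (101 - j) (wl j) 131 (bl j)

theorem inner_rd (j e : ℕ) (h3 : 3 ≤ j) (hj : j ≤ 12) (he : e < 131) :
    Rd (∑ i ∈ Finset.Icc 1 16, ((Nat.choose (i + 5) 6 : ℕ) : ℚ) *
      PowerSeries.coeff (16 - i) (ser j e) * (hs (i + 6) (j - 2) + (-1) ^ (i + 1) * hs (i + 6) (13 - j)))
      (((Rl j).getD e 0 : ℕ) : ZMod 101) := by
  have hr := ser_rep j h3 hj e
  have e1 : ∑ i ∈ Finset.Icc 1 16, ((Nat.choose (i + 5) 6 : ℕ) : ℚ) *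
      PowerSeries.coeff (16 - i) (ser j e) * (hs (i + 6) (j - 2) + (-1) ^ (i + 1) * hs (i + 6) (13 - j)) =
      ∑ d ∈ Finset.range 16, (((Nat.choose (21 - d) 6 : ℕ) : ℚ) *
        (hs (22 - d) (j - 2) + (-1) ^ (17 - d) * hs (22 - d) (13 - j))) * PowerSeries.coeff d (ser j e) := by
    refine Finset.sum_nbij' (fun i => 16 - i) (fun d => 16 - d) ?_ ?_ ?_ ?_ ?_
    · intro i hi
      rw [Finset.mem_Icc] at hi
      rw [Finset.mem_range]
      omega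
    · intro d hd
      rw [Finset.mem_range] at hd
      rw [Finset.mem_Icc]
      omega
    · intro i hi
      rw [Finset.mem_Icc] at hi
      omega
    · intro d hd
      rw [Finset.mem_range] at hd
      omega
    · intro i hi
      rw [Finset.mem_Icc] at hi
      rw [show 21 - (16 - i) = i + 5 by omega, show 22 - (16 - i) = i + 6 by omega,
        show 17 - (16 - i) = i + 1 by omega]
      ring
  have e2 : (((Rl j).getD e 0 : ℕ) : ZMod 101) =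
      ∑ d ∈ Finset.range 16, (((wl j).getD d 0 : ℕ) : ZMod 101) *
        (((it (mulS (101 - j) 0) e (bl j)).getD d 0 : ℕ) : ZMod 101) := by
    unfold Rl
    rw [run_getD _ _ _ _ _ he, ZMod.natCast_mod, dot_eq, hr.1]
    push_cast
    rfl
  rw [e1, e2]
  apply Rd.sum
  intro d hd
  rw [Finset.mem_range] at hd
  exact (wl_rd j d h3 hj hd).mul (hr.2 d hd)

/-- the values of `Fm` modulo 101 -/
def Fl : List ℕ := [
    0, 86, 23, 18, 42, 47, 89, 11, 71, 83, 68, 99, 48, 44, 55, 63, 84, 40, 63, 87, 59, 25, 71,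
    86, 95, 11, 81, 71, 90, 26, 38, 27, 87, 14, 18, 44, 73, 46, 95, 62, 58, 75, 47, 31, 73, 56,
    10, 50, 58, 31, 89, 8, 89, 29, 76, 60, 91, 9, 3, 21, 37, 84, 0, 83, 87, 44, 87, 63, 85, 50,
    11, 7, 77, 24, 99, 6, 0, 36, 19, 28, 63, 68, 75, 39, 44, 42, 2, 95, 3, 53, 35, 81, 75, 55,
    64, 48, 0, 39, 23, 70, 88, 98, 34, 68, 53, 48, 61, 6, 15, 57, 81, 4, 21, 88, 18, 61, 95, 49,
    37, 73, 47, 71, 24, 84, 79, 85, 43, 71, 94, 42, 59]

/-- the values at the poles -/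
def Rt : List (List ℕ) := [
  [
    46, 61, 83, 18, 32, 88, 22, 45, 4, 9, 78, 92, 100, 18, 72, 8, 83, 70, 10, 36, 24, 77, 93, 1,
    15, 67, 23, 61, 60, 8, 17, 40, 31, 90, 40, 88, 27, 22, 93, 7, 59, 30, 16, 87, 53, 15, 81, 82,
    87, 79, 44, 48, 89, 75, 53, 19, 24, 85, 74, 95, 87, 60, 58, 56, 10, 52, 93, 96, 86, 65, 45,
    84, 65, 62, 28, 13, 87, 22, 79, 51, 17, 89, 67, 74, 7, 45, 39, 49, 95, 9, 14, 64, 48, 86, 80,
    32, 46, 37, 26, 18, 59, 64, 19, 54, 47, 5, 39, 35, 67, 89, 74, 69, 27, 3, 47, 87, 77, 54, 93,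
    71, 94, 29, 72, 24, 98, 56, 1, 32, 19, 22, 77],
  [
    31, 99, 62, 36, 58, 31, 53, 45, 61, 98, 88, 51, 0, 26, 40, 40, 31, 9, 45, 67, 3, 30, 76, 71,
    2, 9, 80, 1, 53, 92, 6, 74, 16, 62, 21, 12, 80, 27, 3, 40, 63, 38, 6, 95, 19, 94, 62, 68, 67,
    88, 25, 92, 73, 80, 96, 0, 27, 52, 37, 29, 54, 75, 98, 6, 91, 94, 5, 66, 78, 89, 36, 74, 83,
    5, 32, 8, 55, 43, 6, 91, 78, 63, 36, 67, 74, 7, 58, 2, 50, 13, 65, 39, 69, 46, 84, 36, 71,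
    15, 25, 75, 56, 78, 8, 55, 58, 71, 78, 91, 22, 59, 12, 52, 99, 0, 98, 42, 42, 78, 65, 22, 35,
    89, 82, 100, 19, 93, 65, 84, 97, 91, 36],
  [
    29, 78, 79, 47, 29, 78, 67, 78, 41, 25, 100, 35, 69, 19, 6, 29, 3, 46, 55, 62, 51, 45, 5, 76,
    3, 40, 13, 60, 3, 45, 84, 9, 50, 13, 70, 56, 69, 93, 92, 32, 27, 38, 71, 1, 52, 41, 8, 100,
    49, 47, 94, 36, 78, 62, 26, 55, 44, 92, 93, 33, 50, 64, 2, 84, 53, 95, 31, 69, 74, 42, 52,
    88, 43, 42, 38, 83, 74, 21, 3, 29, 19, 94, 41, 5, 15, 71, 80, 57, 38, 5, 95, 7, 76, 30, 84,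
    24, 17, 12, 84, 55, 80, 57, 14, 9, 68, 57, 14, 69, 14, 98, 77, 5, 27, 59, 6, 71, 57, 86, 73,
    28, 94, 48, 78, 76, 24, 86, 2, 36, 3, 86, 78],
  [
    16, 74, 88, 76, 93, 26, 63, 69, 25, 42, 96, 86, 2, 53, 63, 49, 39, 36, 75, 27, 22, 14, 11,
    77, 39, 47, 30, 88, 80, 45, 34, 84, 47, 64, 96, 0, 57, 87, 17, 48, 6, 15, 99, 65, 71, 9, 25,
    41, 86, 89, 43, 27, 81, 3, 5, 53, 34, 52, 12, 31, 16, 40, 49, 39, 35, 94, 77, 48, 88, 49, 42,
    11, 13, 84, 78, 42, 85, 79, 98, 25, 27, 7, 28, 83, 30, 60, 43, 33, 84, 56, 28, 59, 63, 62,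
    75, 21, 78, 95, 24, 72, 62, 5, 61, 78, 49, 48, 46, 26, 91, 52, 51, 30, 90, 89, 86, 26, 9, 69,
    87, 55, 40, 70, 17, 35, 43, 69, 21, 22, 78, 25, 33],
  [
    88, 90, 35, 38, 47, 4, 88, 77, 6, 77, 66, 3, 81, 61, 77, 24, 85, 39, 22, 42, 15, 2, 49, 47,
    9, 34, 99, 61, 26, 79, 42, 90, 45, 66, 55, 73, 29, 26, 83, 64, 82, 17, 29, 37, 26, 19, 16,
    73, 6, 30, 51, 34, 95, 4, 58, 5, 44, 71, 16, 62, 83, 51, 34, 33, 24, 2, 9, 50, 81, 45, 79,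
    43, 24, 5, 91, 46, 87, 12, 67, 28, 88, 21, 88, 22, 65, 27, 33, 44, 79, 54, 45, 78, 20, 87,
    38, 44, 20, 55, 69, 22, 43, 91, 77, 58, 37, 75, 73, 91, 67, 59, 67, 43, 80, 39, 78, 67, 34,
    11, 30, 48, 9, 97, 87, 61, 75, 38, 65, 14, 78, 20, 53],
  [
    13, 97, 89, 5, 53, 62, 53, 71, 83, 58, 21, 98, 26, 95, 88, 74, 29, 44, 40, 87, 7, 15, 19,
    100, 97, 69, 27, 50, 60, 26, 94, 6, 36, 62, 89, 46, 66, 28, 32, 19, 25, 29, 44, 83, 3, 3, 45,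
    2, 42, 85, 51, 12, 9, 15, 76, 65, 81, 13, 81, 98, 64, 21, 91, 45, 17, 28, 92, 31, 63, 53, 97,
    57, 21, 23, 29, 7, 60, 17, 98, 82, 12, 50, 1, 44, 97, 31, 46, 19, 2, 65, 17, 65, 97, 55, 9,
    91, 7, 35, 10, 2, 20, 98, 32, 96, 61, 81, 9, 81, 38, 43, 41, 34, 24, 95, 48, 3, 14, 71, 52,
    84, 11, 45, 82, 50, 8, 32, 54, 87, 4, 25, 95],
  [
    85, 11, 51, 17, 81, 28, 78, 83, 64, 65, 85, 24, 26, 11, 60, 28, 31, 25, 5, 54, 85, 0, 88, 8,
    85, 25, 92, 73, 62, 93, 8, 17, 79, 62, 67, 37, 60, 95, 99, 61, 82, 86, 17, 76, 71, 66, 40,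
    29, 53, 7, 28, 45, 0, 78, 44, 42, 42, 11, 0, 79, 94, 15, 22, 59, 66, 96, 19, 62, 75, 65, 57,
    84, 63, 8, 68, 52, 82, 58, 78, 6, 87, 23, 79, 31, 71, 0, 48, 68, 86, 54, 6, 14, 1, 15, 22,
    87, 79, 28, 13, 42, 33, 43, 2, 46, 49, 79, 51, 5, 61, 30, 21, 43, 87, 69, 2, 66, 51, 24, 78,
    56, 19, 43, 0, 16, 29, 43, 78, 81, 50, 48, 72],
  [
    72, 8, 45, 1, 22, 90, 69, 18, 18, 53, 13, 51, 33, 36, 80, 90, 39, 89, 89, 87, 74, 21, 92, 32,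
    37, 68, 93, 70, 17, 56, 68, 13, 25, 81, 37, 10, 27, 36, 31, 11, 39, 21, 68, 36, 20, 29, 1,
    69, 0, 11, 74, 67, 38, 52, 4, 44, 13, 85, 69, 0, 22, 10, 87, 89, 89, 68, 87, 100, 64, 2, 28,
    93, 80, 57, 70, 88, 6, 23, 50, 72, 84, 13, 48, 54, 41, 52, 96, 12, 68, 72, 35, 68, 66, 59,
    12, 100, 20, 44, 64, 16, 27, 88, 21, 55, 91, 83, 9, 17, 22, 22, 76, 72, 96, 74, 44, 8, 9, 14,
    19, 19, 39, 68, 93, 90, 84, 34, 27, 80, 7, 32, 46],
  [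
    70, 59, 93, 51, 29, 30, 69, 2, 65, 46, 45, 51, 15, 65, 46, 4, 11, 43, 49, 94, 6, 50, 82, 29,
    31, 52, 6, 18, 55, 73, 12, 29, 91, 88, 8, 91, 16, 1, 34, 19, 44, 33, 20, 6, 87, 11, 60, 42,
    1, 94, 1, 82, 98, 88, 26, 81, 72, 26, 56, 12, 5, 22, 59, 36, 90, 21, 44, 61, 44, 48, 21, 91,
    97, 72, 22, 4, 20, 10, 98, 88, 94, 81, 38, 17, 52, 42, 80, 62, 60, 5, 21, 36, 72, 47, 75, 88,
    92, 7, 78, 9, 28, 38, 58, 88, 45, 85, 74, 49, 79, 93, 100, 10, 45, 37, 93, 100, 57, 81, 32,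
    67, 77, 35, 56, 7, 85, 63, 34, 35, 4, 1, 5],
  [
    55, 44, 59, 97, 19, 21, 56, 6, 67, 50, 47, 16, 4, 77, 19, 96, 70, 64, 52, 64, 58, 24, 20, 79,
    92, 83, 62, 53, 100, 63, 1, 15, 99, 4, 4, 48, 1, 44, 27, 41, 20, 22, 88, 89, 30, 61, 56, 50,
    56, 45, 5, 54, 57, 19, 41, 81, 33, 9, 64, 45, 94, 63, 5, 76, 44, 12, 62, 61, 70, 98, 37, 75,
    40, 22, 51, 55, 50, 83, 10, 5, 37, 97, 4, 69, 9, 27, 81, 64, 41, 18, 43, 95, 19, 64, 63, 35,
    75, 37, 89, 23, 9, 47, 78, 100, 48, 75, 51, 35, 29, 4, 6, 42, 10, 53, 86, 75, 60, 69, 40, 83,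
    40, 11, 15, 63, 62, 7, 14, 64, 71, 12, 52]]

theorem Rl3 : Rl 3 = Rt.getD 0 [] := by decide +kernel

theorem Rl4 : Rl 4 = Rt.getD 1 [] := by decide +kernel

theorem Rl5 : Rl 5 = Rt.getD 2 [] := by decide +kernel

theorem Rl6 : Rl 6 = Rt.getD 3 [] := by decide +kernel

theorem Rl7 : Rl 7 = Rt.getD 4 [] := by decide +kernel

theorem Rl8 : Rl 8 = Rt.getD 5 [] := by decide +kernel

theorem Rl9 : Rl 9 = Rt.getD 6 [] := by decide +kernel

theorem Rl10 : Rl 10 = Rt.getD 7 [] := by decide +kernel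

theorem Rl11 : Rl 11 = Rt.getD 8 [] := by decide +kernel

theorem Rl12 : Rl 12 = Rt.getD 9 [] := by decide +kernel

theorem hF : ((List.range 131).all fun e =>
    ((Rt.map (fun l => l.getD e 0)).sum + Fl.getD e 0) % 101 == 0) = true := by
  decide +kernel

/-- the inverse matrix modulo 101 -/
def Nl : List (List ℕ) := [
  [
    59, 85, 25, 16, 33, 28, 82, 46, 4, 43, 86, 94, 67, 44, 72, 83, 58, 78, 39, 87, 71, 44, 96,
    100, 39, 47, 45, 44, 99, 63, 4, 68, 59, 56, 90, 97, 28, 79, 100, 28, 79, 37, 43, 49, 51, 26,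
    33, 88, 78, 62, 23, 92, 79, 15, 87, 17, 41, 28, 38, 64, 3, 94, 10, 19, 44, 36],
  [
    85, 51, 83, 23, 85, 56, 12, 88, 41, 36, 89, 57, 22, 75, 9, 40, 84, 27, 13, 22, 59, 31, 61,
    37, 2, 46, 76, 43, 3, 67, 9, 43, 12, 80, 52, 13, 47, 52, 10, 9, 75, 84, 89, 89, 87, 42, 31,
    40, 2, 8, 63, 34, 92, 29, 14, 93, 43, 22, 51, 82, 41, 68, 28, 29, 13, 73],
  [
    25, 83, 64, 43, 26, 5, 20, 63, 81, 10, 41, 86, 60, 47, 66, 66, 70, 100, 42, 99, 47, 25, 96,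
    92, 53, 67, 59, 57, 91, 72, 23, 48, 18, 54, 66, 34, 86, 31, 40, 32, 56, 65, 1, 26, 92, 89,
    82, 42, 19, 62, 42, 26, 88, 6, 88, 6, 5, 43, 14, 53, 16, 65, 29, 96, 53, 2],
  [
    16, 23, 43, 19, 67, 8, 89, 13, 32, 60, 41, 62, 78, 31, 71, 52, 11, 87, 73, 37, 62, 63, 88,
    55, 55, 42, 40, 31, 42, 86, 39, 35, 18, 17, 24, 14, 37, 96, 82, 75, 65, 26, 78, 73, 9, 58,
    42, 81, 49, 32, 3, 86, 91, 19, 60, 18, 61, 73, 42, 35, 34, 29, 8, 73, 45, 26],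
  [
    33, 85, 26, 67, 65, 73, 93, 66, 55, 45, 29, 45, 9, 69, 39, 51, 18, 59, 3, 84, 50, 59, 47, 56,
    21, 14, 61, 24, 42, 0, 95, 56, 63, 77, 53, 10, 39, 43, 34, 85, 36, 68, 86, 55, 13, 42, 66,
    81, 94, 18, 5, 67, 43, 16, 85, 66, 96, 27, 79, 56, 10, 2, 72, 51, 82, 55],
  [
    28, 56, 5, 8, 73, 36, 2, 37, 52, 4, 43, 29, 69, 17, 77, 51, 32, 75, 58, 19, 57, 64, 51, 14,
    59, 23, 96, 88, 30, 30, 14, 38, 69, 7, 16, 67, 34, 13, 4, 28, 66, 3, 17, 28, 20, 87, 84, 99,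
    70, 36, 20, 95, 5, 86, 71, 71, 42, 43, 24, 42, 91, 53, 7, 33, 39, 42],
  [
    82, 12, 20, 89, 93, 2, 57, 6, 75, 93, 32, 80, 96, 67, 75, 84, 88, 61, 49, 31, 87, 19, 96, 85,
    0, 47, 34, 93, 52, 34, 46, 52, 96, 89, 99, 8, 17, 40, 31, 28, 49, 87, 18, 99, 34, 9, 30, 12,
    71, 83, 52, 55, 5, 9, 48, 93, 99, 51, 56, 42, 48, 40, 16, 18, 83, 6],
  [
    46, 88, 63, 13, 66, 37, 6, 95, 60, 90, 49, 25, 99, 72, 74, 80, 36, 67, 91, 93, 14, 43, 69,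
    48, 60, 95, 47, 68, 71, 74, 87, 77, 55, 78, 23, 88, 75, 80, 88, 62, 21, 9, 39, 50, 41, 1, 10,
    98, 36, 84, 93, 28, 40, 0, 14, 27, 27, 79, 27, 68, 16, 96, 26, 44, 73, 64],
  [
    4, 41, 81, 32, 55, 52, 75, 60, 4, 7, 63, 19, 81, 0, 79, 63, 61, 87, 26, 6, 82, 31, 23, 65,
    78, 87, 46, 52, 78, 43, 39, 45, 47, 69, 72, 69, 46, 10, 22, 19, 34, 20, 97, 6, 41, 81, 10,
    42, 46, 17, 24, 28, 40, 45, 60, 81, 58, 38, 38, 19, 35, 11, 83, 12, 81, 69],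
  [
    43, 36, 10, 60, 45, 4, 93, 90, 7, 8, 25, 39, 47, 67, 57, 78, 50, 9, 16, 20, 31, 80, 93, 59,
    75, 10, 42, 62, 44, 30, 36, 2, 80, 27, 69, 38, 55, 18, 40, 73, 3, 24, 29, 11, 92, 56, 17, 31,
    19, 85, 97, 88, 82, 60, 5, 33, 25, 43, 4, 10, 64, 73, 78, 19, 21, 25],
  [
    86, 89, 41, 41, 29, 43, 32, 49, 63, 25, 74, 80, 29, 28, 44, 61, 30, 22, 83, 81, 21, 23, 64,
    59, 89, 74, 43, 73, 89, 48, 36, 1, 98, 27, 13, 15, 3, 48, 83, 75, 69, 56, 92, 14, 17, 61, 14,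
    83, 68, 65, 35, 45, 29, 85, 84, 91, 63, 64, 43, 44, 78, 51, 58, 45, 13, 82],
  [
    94, 57, 86, 62, 45, 29, 80, 25, 19, 39, 80, 96, 29, 23, 26, 69, 99, 55, 86, 22, 68, 62, 12,
    86, 10, 57, 43, 83, 22, 51, 54, 89, 74, 22, 82, 39, 14, 30, 23, 7, 77, 83, 40, 56, 19, 55, 1,
    68, 92, 92, 80, 14, 55, 11, 94, 5, 26, 58, 18, 0, 75, 5, 35, 15, 95, 29],
  [
    67, 22, 60, 78, 9, 69, 96, 99, 81, 47, 29, 29, 13, 4, 78, 57, 47, 51, 10, 80, 50, 46, 35, 58,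
    33, 44, 68, 7, 3, 100, 71, 84, 92, 67, 75, 87, 18, 1, 86, 25, 8, 26, 38, 81, 41, 42, 29, 7,
    49, 94, 59, 28, 94, 100, 92, 21, 82, 76, 97, 8, 70, 80, 55, 100, 70, 6],
  [
    44, 75, 47, 31, 69, 17, 67, 72, 0, 67, 28, 23, 4, 67, 70, 13, 88, 46, 67, 85, 45, 94, 5, 80,
    16, 49, 43, 26, 14, 89, 63, 29, 63, 52, 90, 32, 47, 25, 35, 4, 25, 47, 62, 99, 31, 90, 59, 1,
    19, 24, 55, 19, 44, 42, 74, 19, 33, 79, 93, 86, 74, 96, 78, 96, 99, 21],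
  [
    72, 9, 66, 71, 39, 77, 75, 74, 79, 57, 44, 26, 78, 70, 62, 19, 15, 13, 9, 28, 4, 57, 70, 6,
    34, 91, 51, 71, 94, 52, 43, 75, 47, 66, 100, 48, 99, 26, 30, 33, 97, 77, 77, 50, 61, 37, 27,
    17, 78, 3, 39, 40, 80, 18, 50, 11, 59, 30, 35, 92, 82, 48, 44, 80, 29, 80],
  [
    83, 40, 66, 52, 51, 51, 84, 80, 63, 78, 61, 69, 57, 13, 19, 92, 40, 22, 14, 79, 12, 51, 48,
    44, 85, 29, 9, 74, 67, 26, 20, 46, 100, 81, 82, 50, 70, 26, 56, 33, 41, 81, 74, 49, 59, 86,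
    71, 41, 55, 18, 54, 72, 45, 22, 36, 89, 9, 66, 81, 31, 47, 5, 71, 2, 90, 100],
  [
    58, 84, 70, 11, 18, 32, 88, 36, 61, 50, 30, 99, 47, 88, 15, 40, 43, 62, 45, 98, 27, 59, 15,
    99, 94, 47, 54, 53, 30, 20, 19, 64, 8, 97, 21, 22, 58, 16, 69, 100, 49, 18, 91, 11, 47, 6,
    89, 1, 31, 21, 93, 44, 50, 48, 36, 24, 26, 91, 38, 39, 82, 70, 16, 61, 28, 88],
  [
    78, 27, 100, 87, 59, 75, 61, 67, 87, 9, 22, 55, 51, 46, 13, 22, 62, 15, 23, 59, 34, 87, 80,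
    87, 57, 93, 97, 3, 16, 42, 21, 35, 70, 38, 97, 6, 69, 60, 67, 15, 73, 6, 10, 40, 6, 37, 70,
    72, 14, 36, 20, 82, 78, 99, 55, 48, 4, 16, 72, 59, 33, 84, 50, 37, 1, 39],
  [
    39, 13, 42, 73, 3, 58, 49, 91, 26, 16, 83, 86, 10, 67, 9, 14, 45, 23, 41, 28, 10, 15, 31, 61,
    50, 24, 75, 93, 53, 88, 28, 37, 74, 13, 35, 98, 97, 47, 92, 94, 86, 82, 40, 8, 39, 17, 53,
    45, 53, 59, 86, 92, 20, 43, 72, 18, 63, 36, 29, 70, 95, 2, 3, 9, 98, 85],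
  [
    87, 22, 99, 37, 84, 19, 31, 93, 6, 20, 81, 22, 80, 85, 28, 79, 98, 59, 28, 97, 90, 98, 94,
    44, 62, 61, 85, 90, 27, 10, 15, 46, 99, 37, 75, 29, 37, 7, 74, 68, 47, 69, 49, 28, 22, 83,
    47, 15, 35, 46, 76, 56, 80, 85, 19, 4, 34, 33, 56, 70, 82, 24, 72, 52, 12, 78],
  [
    71, 59, 47, 62, 50, 57, 87, 14, 82, 31, 21, 68, 50, 45, 4, 12, 27, 34, 10, 90, 37, 21, 20,
    12, 51, 81, 65, 58, 26, 13, 89, 48, 4, 40, 10, 3, 31, 50, 80, 92, 40, 70, 8, 28, 27, 87, 8,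
    88, 36, 66, 70, 25, 69, 100, 53, 82, 7, 18, 55, 0, 87, 49, 77, 69, 19, 16],
  [
    44, 31, 25, 63, 59, 64, 19, 43, 31, 80, 23, 62, 46, 94, 57, 51, 59, 87, 15, 98, 21, 47, 4,
    42, 70, 32, 32, 45, 56, 5, 65, 89, 8, 95, 3, 91, 66, 9, 86, 0, 46, 0, 7, 50, 55, 67, 23, 98,
    51, 67, 63, 12, 75, 53, 46, 43, 65, 68, 62, 22, 5, 51, 79, 80, 73, 65],
  [
    96, 61, 96, 88, 47, 51, 96, 69, 23, 93, 64, 12, 35, 5, 70, 48, 15, 80, 31, 94, 20, 4, 93, 52,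
    26, 52, 26, 61, 95, 53, 34, 59, 57, 23, 71, 35, 4, 2, 18, 76, 76, 15, 69, 62, 42, 7, 85, 46,
    38, 2, 14, 100, 16, 9, 63, 78, 73, 21, 73, 30, 61, 94, 7, 4, 21, 65],
  [
    100, 37, 92, 55, 56, 14, 85, 48, 65, 59, 59, 86, 58, 80, 6, 44, 99, 87, 61, 44, 12, 42, 52,
    82, 97, 45, 11, 9, 91, 84, 17, 16, 76, 13, 11, 42, 78, 76, 82, 8, 64, 78, 10, 90, 15, 98, 23,
    72, 9, 34, 80, 19, 41, 59, 69, 61, 28, 98, 10, 23, 32, 18, 3, 16, 19, 45],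
  [
    39, 2, 53, 55, 21, 59, 0, 60, 78, 75, 89, 10, 33, 16, 34, 85, 94, 57, 50, 62, 51, 70, 26, 97,
    6, 16, 99, 1, 49, 66, 12, 82, 38, 61, 15, 61, 21, 29, 99, 61, 3, 2, 36, 28, 85, 34, 33, 52,
    0, 31, 10, 62, 21, 14, 64, 14, 94, 66, 81, 14, 19, 48, 47, 49, 64, 89],
  [
    47, 46, 67, 42, 14, 23, 47, 95, 87, 10, 74, 57, 44, 49, 91, 29, 47, 93, 24, 61, 81, 32, 52,
    45, 16, 91, 89, 25, 95, 88, 82, 81, 17, 22, 28, 32, 72, 95, 86, 38, 48, 16, 53, 91, 67, 4,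
    84, 42, 32, 8, 21, 58, 31, 8, 39, 78, 37, 37, 7, 43, 94, 80, 66, 72, 56, 74],
  [
    45, 76, 59, 40, 61, 96, 34, 47, 46, 42, 43, 43, 68, 43, 51, 9, 54, 97, 75, 85, 65, 32, 26,
    11, 99, 89, 60, 0, 6, 13, 87, 75, 51, 79, 34, 43, 93, 43, 99, 26, 98, 8, 16, 4, 62, 0, 20,
    67, 77, 8, 91, 9, 68, 73, 69, 73, 26, 40, 32, 48, 48, 37, 79, 54, 7, 37],
  [
    44, 43, 57, 31, 24, 88, 93, 68, 52, 62, 73, 83, 7, 26, 71, 74, 53, 3, 93, 90, 58, 45, 61, 9,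
    1, 25, 0, 37, 95, 17, 9, 43, 22, 97, 66, 94, 89, 100, 83, 26, 90, 70, 42, 49, 24, 47, 45, 2,
    74, 99, 60, 30, 5, 56, 92, 65, 72, 32, 50, 53, 60, 50, 64, 64, 11, 43],
  [
    99, 3, 91, 42, 42, 30, 52, 71, 78, 44, 89, 22, 3, 14, 94, 67, 30, 16, 53, 27, 26, 56, 95, 91,
    49, 95, 6, 95, 20, 61, 61, 1, 50, 98, 50, 86, 0, 52, 51, 25, 98, 94, 70, 92, 69, 49, 61, 59,
    29, 70, 73, 93, 72, 51, 82, 67, 53, 15, 40, 41, 39, 27, 22, 11, 95, 15],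
  [
    63, 67, 72, 86, 0, 30, 34, 74, 43, 30, 48, 51, 100, 89, 52, 26, 20, 42, 88, 10, 13, 5, 53,
    84, 66, 88, 13, 17, 61, 75, 55, 5, 2, 8, 13, 5, 73, 8, 40, 21, 7, 72, 95, 97, 56, 82, 38, 65,
    100, 27, 78, 25, 38, 53, 58, 36, 87, 81, 39, 86, 25, 54, 26, 96, 28, 29],
  [
    4, 9, 23, 39, 95, 14, 46, 87, 39, 36, 36, 54, 71, 63, 43, 20, 19, 21, 28, 15, 89, 65, 34, 17,
    12, 82, 87, 9, 61, 55, 49, 27, 11, 11, 56, 39, 98, 79, 97, 53, 83, 89, 51, 22, 67, 13, 99,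
    87, 32, 42, 2, 92, 56, 16, 70, 85, 19, 4, 11, 53, 37, 80, 47, 79, 79, 96],
  [
    68, 43, 48, 35, 56, 38, 52, 77, 45, 2, 1, 89, 84, 29, 75, 46, 64, 35, 37, 46, 48, 89, 59, 16,
    82, 81, 75, 43, 1, 5, 27, 18, 79, 36, 90, 81, 86, 94, 97, 84, 73, 36, 66, 21, 63, 52, 10, 13,
    68, 51, 36, 8, 54, 28, 28, 7, 58, 79, 73, 55, 64, 97, 16, 85, 46, 5],
  [
    59, 12, 18, 18, 63, 69, 96, 55, 47, 80, 98, 74, 92, 63, 47, 100, 8, 70, 74, 99, 4, 8, 57, 76,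
    38, 17, 51, 22, 50, 2, 11, 79, 3, 56, 33, 6, 63, 34, 51, 41, 55, 24, 12, 79, 30, 24, 35, 96,
    3, 3, 51, 87, 56, 20, 22, 1, 92, 69, 76, 56, 47, 45, 57, 39, 88, 22],
  [
    56, 80, 54, 17, 77, 7, 89, 78, 69, 27, 27, 22, 67, 52, 66, 81, 97, 38, 13, 37, 40, 95, 23,
    13, 61, 22, 79, 97, 98, 8, 11, 36, 56, 99, 11, 57, 40, 2, 0, 23, 61, 96, 98, 84, 46, 36, 91,
    70, 20, 48, 82, 6, 96, 6, 80, 30, 17, 98, 8, 83, 61, 55, 76, 5, 1, 93],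
  [
    90, 52, 66, 24, 53, 16, 99, 23, 72, 69, 13, 82, 75, 90, 100, 82, 21, 97, 35, 75, 10, 3, 71,
    11, 15, 28, 34, 66, 50, 13, 56, 90, 33, 11, 9, 85, 38, 50, 28, 13, 65, 73, 6, 51, 82, 68, 66,
    93, 95, 68, 44, 86, 24, 72, 71, 35, 49, 90, 48, 27, 48, 34, 82, 79, 17, 48],
  [
    97, 13, 34, 14, 10, 67, 8, 88, 69, 38, 15, 39, 87, 32, 48, 50, 22, 6, 98, 29, 3, 91, 35, 42,
    61, 32, 43, 94, 86, 5, 39, 81, 6, 57, 85, 60, 2, 39, 31, 84, 44, 30, 13, 13, 63, 91, 86, 10,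
    12, 53, 73, 94, 46, 71, 42, 42, 50, 9, 43, 41, 65, 59, 49, 36, 79, 7],
  [
    28, 47, 86, 37, 39, 34, 17, 75, 46, 55, 3, 14, 18, 47, 99, 70, 58, 69, 97, 37, 31, 66, 4, 78,
    21, 72, 93, 89, 0, 73, 98, 86, 63, 40, 38, 2, 50, 92, 61, 61, 3, 59, 76, 90, 81, 92, 0, 1, 5,
    35, 71, 81, 91, 72, 90, 8, 3, 94, 31, 16, 12, 45, 91, 78, 42, 47],
  [
    79, 52, 31, 96, 43, 13, 40, 80, 10, 18, 48, 30, 1, 25, 26, 26, 16, 60, 47, 7, 50, 9, 2, 76,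
    29, 95, 43, 100, 52, 8, 79, 94, 34, 2, 50, 39, 92, 28, 93, 62, 36, 83, 45, 52, 75, 80, 86,
    21, 30, 53, 78, 99, 23, 98, 88, 66, 72, 54, 39, 26, 54, 24, 74, 76, 24, 73],
  [
    100, 10, 40, 82, 34, 4, 31, 88, 22, 40, 83, 23, 86, 35, 30, 56, 69, 67, 92, 74, 80, 86, 18,
    82, 99, 86, 99, 83, 51, 40, 97, 97, 51, 0, 28, 31, 61, 93, 97, 1, 3, 29, 19, 87, 20, 61, 40,
    49, 19, 57, 96, 53, 24, 2, 66, 75, 15, 90, 96, 3, 89, 21, 26, 81, 78, 50],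
  [
    28, 9, 32, 75, 85, 28, 28, 62, 19, 73, 75, 7, 25, 4, 33, 33, 100, 15, 94, 68, 92, 0, 76, 8,
    61, 38, 26, 26, 25, 21, 53, 84, 41, 23, 13, 84, 61, 62, 1, 23, 73, 45, 7, 48, 43, 94, 84, 91,
    51, 33, 16, 34, 83, 63, 16, 33, 80, 74, 85, 37, 93, 40, 12, 19, 33, 32],
  [
    79, 75, 56, 65, 36, 66, 49, 21, 34, 3, 69, 77, 8, 25, 97, 41, 49, 73, 86, 47, 40, 46, 76, 64,
    3, 48, 98, 90, 98, 7, 83, 73, 55, 61, 65, 44, 3, 36, 3, 73, 90, 19, 17, 37, 2, 1, 74, 98, 44,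
    91, 15, 27, 82, 97, 92, 17, 63, 49, 16, 1, 3, 86, 30, 45, 75, 26],
  [
    37, 84, 65, 26, 68, 3, 87, 9, 20, 24, 56, 83, 26, 47, 77, 81, 18, 6, 82, 69, 70, 0, 15, 78,
    2, 16, 8, 70, 94, 72, 89, 36, 24, 96, 73, 30, 59, 83, 29, 45, 19, 96, 68, 47, 31, 83, 98, 46,
    58, 44, 23, 7, 2, 80, 22, 96, 17, 57, 43, 59, 85, 30, 78, 17, 73, 66],
  [
    43, 89, 1, 78, 86, 17, 18, 39, 97, 29, 92, 40, 38, 62, 77, 74, 91, 10, 40, 49, 8, 7, 69, 10,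
    36, 53, 16, 42, 70, 95, 51, 66, 12, 98, 6, 13, 76, 45, 19, 7, 17, 68, 85, 67, 55, 89, 13, 86,
    72, 27, 55, 4, 46, 18, 97, 96, 79, 70, 33, 37, 70, 85, 2, 23, 21, 55],
  [
    49, 89, 26, 73, 55, 28, 99, 50, 6, 11, 14, 56, 81, 99, 50, 49, 11, 40, 8, 28, 28, 50, 62, 90,
    28, 91, 4, 49, 92, 97, 22, 21, 79, 84, 51, 13, 90, 52, 87, 48, 37, 47, 67, 82, 15, 55, 82,
    36, 4, 26, 58, 33, 12, 36, 16, 66, 48, 52, 36, 14, 82, 61, 69, 28, 94, 87],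
  [
    51, 87, 92, 9, 13, 20, 34, 41, 41, 92, 17, 19, 41, 31, 61, 59, 47, 6, 39, 22, 27, 55, 42, 15,
    85, 67, 62, 24, 69, 56, 67, 63, 30, 46, 82, 63, 81, 75, 20, 43, 2, 31, 55, 15, 42, 83, 53,
    51, 80, 33, 66, 78, 97, 78, 40, 46, 74, 80, 90, 79, 51, 96, 53, 83, 31, 46],
  [
    26, 42, 89, 58, 42, 87, 9, 1, 81, 56, 61, 55, 42, 90, 37, 86, 6, 37, 17, 83, 87, 67, 7, 98,
    34, 4, 0, 47, 49, 82, 13, 52, 24, 36, 68, 91, 92, 80, 61, 94, 1, 83, 89, 55, 83, 63, 96, 76,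
    46, 42, 36, 52, 80, 24, 75, 62, 54, 1, 61, 36, 6, 71, 89, 72, 20, 43],
  [
    33, 31, 82, 42, 66, 84, 30, 10, 10, 17, 14, 1, 29, 59, 27, 71, 89, 70, 53, 47, 8, 23, 85, 23,
    33, 84, 20, 45, 61, 38, 99, 10, 35, 91, 66, 86, 0, 86, 40, 84, 74, 98, 13, 82, 53, 96, 39,
    98, 67, 73, 34, 41, 63, 54, 32, 100, 51, 24, 57, 67, 78, 54, 83, 55, 33, 1],
  [
    88, 40, 42, 81, 81, 99, 12, 98, 42, 31, 83, 68, 7, 1, 17, 41, 1, 72, 45, 15, 88, 98, 46, 72,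
    52, 42, 67, 2, 59, 65, 87, 13, 96, 70, 93, 10, 1, 21, 49, 91, 98, 46, 86, 36, 51, 76, 98, 64,
    72, 41, 47, 24, 45, 50, 42, 52, 72, 46, 4, 95, 5, 83, 56, 19, 82, 2],
  [
    78, 2, 19, 49, 94, 70, 71, 36, 46, 19, 68, 92, 49, 19, 78, 55, 31, 14, 53, 35, 36, 51, 38, 9,
    0, 32, 77, 74, 29, 100, 32, 68, 3, 20, 95, 12, 5, 30, 19, 51, 44, 58, 72, 4, 80, 46, 67, 72,
    24, 56, 88, 32, 24, 73, 95, 15, 40, 17, 59, 99, 23, 37, 44, 77, 20, 79],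
  [
    62, 8, 62, 32, 18, 36, 83, 84, 17, 85, 65, 92, 94, 24, 3, 18, 21, 36, 59, 46, 66, 67, 2, 34,
    31, 8, 8, 99, 70, 27, 42, 51, 3, 48, 68, 53, 35, 53, 57, 33, 91, 44, 27, 26, 33, 42, 73, 41,
    56, 85, 53, 5, 48, 37, 55, 49, 46, 92, 40, 59, 59, 4, 46, 64, 30, 15],
  [
    23, 63, 42, 3, 5, 20, 52, 93, 24, 97, 35, 80, 59, 55, 39, 54, 93, 20, 86, 76, 70, 63, 14, 80,
    10, 21, 91, 60, 73, 78, 2, 36, 51, 82, 44, 73, 71, 78, 96, 16, 15, 23, 55, 58, 66, 36, 34,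
    47, 88, 53, 42, 96, 37, 3, 44, 81, 48, 44, 55, 59, 98, 23, 76, 67, 14, 91],
  [
    92, 34, 26, 86, 67, 95, 55, 28, 28, 88, 45, 14, 28, 19, 40, 72, 44, 82, 92, 56, 25, 12, 100,
    19, 62, 58, 9, 30, 93, 25, 92, 8, 87, 6, 86, 94, 81, 99, 53, 34, 27, 7, 4, 33, 78, 52, 41,
    24, 32, 5, 96, 39, 65, 63, 37, 15, 70, 30, 100, 37, 74, 13, 72, 62, 66, 53],
  [
    79, 92, 88, 91, 43, 5, 5, 40, 40, 82, 29, 55, 94, 44, 80, 45, 50, 78, 20, 80, 69, 75, 16, 41,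
    21, 31, 68, 5, 72, 38, 56, 54, 56, 96, 24, 46, 91, 23, 24, 83, 82, 2, 46, 12, 97, 80, 63, 45,
    24, 48, 37, 65, 67, 59, 51, 99, 47, 81, 44, 44, 85, 27, 46, 28, 37, 42],
  [
    15, 29, 6, 19, 16, 86, 9, 0, 45, 60, 85, 11, 100, 42, 18, 22, 48, 99, 43, 85, 100, 53, 9, 59,
    14, 8, 73, 56, 51, 53, 16, 28, 20, 6, 72, 71, 72, 98, 2, 63, 97, 80, 18, 36, 78, 24, 54, 50,
    73, 37, 3, 63, 59, 89, 91, 2, 51, 10, 78, 85, 36, 90, 27, 76, 0, 85],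
  [
    87, 14, 88, 60, 85, 71, 48, 14, 60, 5, 84, 94, 92, 74, 50, 36, 36, 55, 72, 19, 53, 46, 63,
    69, 64, 39, 69, 92, 82, 58, 70, 28, 22, 80, 71, 42, 90, 88, 66, 16, 92, 22, 97, 16, 40, 75,
    32, 42, 95, 55, 44, 37, 51, 91, 20, 33, 37, 21, 54, 18, 11, 40, 71, 20, 6, 18],
  [
    17, 93, 6, 18, 66, 71, 93, 27, 81, 33, 91, 5, 21, 19, 11, 89, 24, 48, 18, 4, 82, 43, 78, 61,
    14, 78, 73, 65, 67, 36, 85, 7, 1, 30, 35, 42, 8, 66, 75, 33, 17, 96, 96, 66, 46, 62, 100, 52,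
    15, 49, 81, 15, 99, 2, 33, 94, 88, 13, 35, 52, 63, 74, 80, 79, 12, 41],
  [
    41, 43, 5, 61, 96, 42, 99, 27, 58, 25, 63, 26, 82, 33, 59, 9, 26, 4, 63, 34, 7, 65, 73, 28,
    94, 37, 26, 72, 53, 87, 19, 58, 92, 17, 49, 50, 3, 72, 15, 80, 63, 17, 79, 48, 74, 54, 51,
    72, 40, 46, 48, 70, 47, 51, 37, 88, 12, 4, 49, 79, 15, 19, 18, 44, 11, 3],
  [
    28, 22, 43, 73, 27, 43, 51, 79, 38, 43, 64, 58, 76, 79, 30, 66, 91, 16, 36, 33, 18, 68, 21,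
    98, 66, 37, 40, 32, 15, 81, 4, 79, 69, 98, 90, 9, 94, 54, 90, 74, 49, 57, 70, 52, 80, 1, 24,
    46, 17, 92, 44, 30, 81, 10, 21, 13, 4, 65, 74, 93, 67, 19, 46, 18, 58, 45],
  [
    38, 51, 14, 42, 79, 24, 56, 27, 38, 4, 43, 18, 97, 93, 35, 81, 38, 72, 29, 56, 55, 62, 73,
    10, 81, 7, 32, 50, 40, 39, 11, 73, 76, 8, 48, 43, 31, 39, 96, 85, 16, 43, 33, 36, 90, 61, 57,
    4, 59, 40, 55, 100, 44, 78, 54, 35, 49, 74, 92, 14, 58, 10, 13, 80, 58, 29],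
  [
    64, 82, 53, 35, 56, 42, 42, 68, 19, 10, 44, 0, 8, 86, 92, 31, 39, 59, 70, 70, 0, 22, 30, 23,
    14, 43, 48, 53, 41, 86, 53, 55, 56, 83, 27, 41, 16, 26, 3, 37, 1, 59, 37, 14, 79, 36, 67, 95,
    99, 59, 59, 37, 44, 85, 18, 52, 79, 93, 14, 10, 45, 18, 88, 20, 41, 19],
  [
    3, 41, 16, 34, 10, 91, 48, 16, 35, 64, 78, 75, 70, 74, 82, 47, 82, 33, 95, 82, 87, 5, 61, 32,
    19, 94, 48, 60, 39, 25, 37, 64, 47, 61, 48, 65, 12, 54, 89, 93, 3, 85, 70, 82, 51, 6, 78, 5,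
    23, 59, 98, 74, 85, 36, 11, 63, 15, 67, 58, 45, 1, 61, 78, 1, 31, 19],
  [
    94, 68, 65, 29, 2, 53, 40, 96, 11, 73, 51, 5, 80, 96, 48, 5, 70, 84, 2, 24, 49, 51, 94, 18,
    48, 80, 37, 50, 27, 54, 80, 97, 45, 55, 34, 59, 45, 24, 21, 40, 86, 30, 85, 61, 96, 71, 54,
    83, 37, 4, 23, 13, 27, 90, 40, 74, 19, 19, 10, 18, 61, 37, 19, 61, 6, 72],
  [
    10, 28, 29, 8, 72, 7, 16, 26, 83, 78, 58, 35, 55, 78, 44, 71, 16, 50, 3, 72, 77, 79, 7, 3,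
    47, 66, 79, 64, 22, 26, 47, 16, 57, 76, 82, 49, 91, 74, 26, 12, 30, 78, 2, 69, 53, 89, 83,
    56, 44, 46, 76, 72, 46, 27, 71, 80, 18, 46, 13, 88, 78, 19, 21, 61, 64, 21],
  [
    19, 29, 96, 73, 51, 33, 18, 44, 12, 19, 45, 15, 100, 96, 80, 2, 61, 37, 9, 52, 69, 80, 4, 16,
    49, 72, 54, 64, 11, 96, 79, 85, 39, 5, 79, 36, 78, 76, 81, 19, 45, 17, 23, 28, 83, 72, 55,
    19, 77, 64, 67, 62, 28, 76, 20, 79, 44, 18, 80, 20, 1, 61, 61, 50, 84, 24],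
  [
    44, 13, 53, 45, 82, 39, 83, 73, 81, 21, 13, 95, 70, 99, 29, 90, 28, 1, 98, 12, 19, 73, 21,
    19, 64, 56, 7, 11, 95, 28, 79, 46, 88, 1, 17, 79, 42, 24, 78, 33, 75, 73, 21, 94, 31, 20, 33,
    82, 20, 30, 14, 66, 37, 0, 6, 12, 11, 58, 58, 41, 31, 6, 64, 84, 74, 96],
  [
    36, 73, 2, 26, 55, 42, 6, 64, 69, 25, 82, 29, 6, 21, 80, 100, 88, 39, 85, 78, 16, 65, 65, 45,
    89, 74, 37, 43, 15, 29, 96, 5, 22, 93, 48, 7, 47, 73, 50, 32, 26, 66, 55, 87, 46, 43, 1, 2,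
    79, 15, 91, 53, 42, 85, 18, 41, 3, 45, 29, 19, 19, 72, 21, 24, 96, 0]]

theorem hN : ((List.range 66).all fun i => (List.range 66).all fun k =>
    (dot (Fl.drop i) (Nl.getD k [])) % 101 == if i = k then 1 else 0) = true := by
  decide +kernel

theorem hNlen : ((List.range 66).all fun k => (Nl.getD k []).length == 66) = true := by
  decide +kernel

theorem Fm_rd (e : ℕ) (he : e < 131) : Rd (Fm e) ((Fl.getD e 0 : ℕ) : ZMod 101) := by
  have h1 : Rd (∑ j ∈ Finset.Icc 3 12, ∑ i ∈ Finset.Icc 1 16, ((Nat.choose (i + 5) 6 : ℕ) : ℚ) *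
      PowerSeries.coeff (16 - i) (ser j e) * (hs (i + 6) (j - 2) + (-1) ^ (i + 1) * hs (i + 6) (13 - j)))
      (∑ j ∈ Finset.Icc 3 12, (((Rl j).getD e 0 : ℕ) : ZMod 101)) := by
    apply Rd.sum
    intro j hj
    rw [Finset.mem_Icc] at hj
    exact inner_rd j e hj.1 hj.2 he
  have h2 := h1.neg
  have h3 := List.all_eq_true.1 hF e (List.mem_range.2 he)
  have h4 : ((Rt.map (fun l => l.getD e 0)).sum + Fl.getD e 0) % 101 = 0 := by simpa using h3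
  have h5 : (((Rt.map (fun l => l.getD e 0)).sum + Fl.getD e 0 : ℕ) : ZMod 101) = 0 := by
    rw [← ZMod.natCast_mod, h4, Nat.cast_zero]
  have h6 : (∑ j ∈ Finset.Icc 3 12, (Rl j).getD e 0) = (Rt.map (fun l => l.getD e 0)).sum := by
    have e0 : (Finset.Icc 3 12 : Finset ℕ) = {3, 4, 5, 6, 7, 8, 9, 10, 11, 12} := by decide
    rw [e0]
    repeat rw [Finset.sum_insert (by decide)]
    rw [Finset.sum_singleton, Rl3, Rl4, Rl5, Rl6, Rl7, Rl8, Rl9, Rl10, Rl11, Rl12]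
    rfl
  have h7 : -(∑ j ∈ Finset.Icc 3 12, (((Rl j).getD e 0 : ℕ) : ZMod 101)) =
      ((Fl.getD e 0 : ℕ) : ZMod 101) := by
    rw [← Nat.cast_sum, h6]
    rw [Nat.cast_add] at h5
    exact neg_eq_of_add_eq_zero_right h5
  rw [h7] at h2
  exact h2

end H5

theorem H5_local : (Matrix.of fun l l' : Fin 66 => Fm (l.1 + l'.1)).det ≠ 0 := by
  have : Fact (Nat.Prime 101) := ⟨H5.prime101⟩
  let A : Matrix (Fin 66) (Fin 66) (ZMod 101) := fun i j => ((H5.Fl.getD (i.1 + j.1) 0 : ℕ) : ZMod 101)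
  let B : Matrix (Fin 66) (Fin 66) (ZMod 101) := fun j k =>
    (((H5.Nl.getD k.1 []).getD j.1 0 : ℕ) : ZMod 101)
  have hAB : A * B = 1 := by
    ext i k
    have h1 := List.all_eq_true.1 (List.all_eq_true.1 H5.hN i.1 (List.mem_range.2 i.2)) k.1
      (List.mem_range.2 k.2)
    have h2 : (H5.dot (H5.Fl.drop i.1) (H5.Nl.getD k.1 [])) % 101 = if i.1 = k.1 then 1 else 0 := by
      simpa using h1
    have h3 : (H5.Nl.getD k.1 []).length = 66 := by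
      have := List.all_eq_true.1 H5.hNlen k.1 (List.mem_range.2 k.2)
      simpa using this
    have h4 := congrArg (fun z : ℕ => (z : ZMod 101)) h2
    simp only [ZMod.natCast_mod] at h4
    rw [H5.dot_eq, h3, Nat.cast_sum] at h4
    rw [Matrix.mul_apply, ← Fin.sum_univ_eq_sum_range (fun j =>
      ((((H5.Fl.drop i.1).getD j 0 * (H5.Nl.getD k.1 []).getD j 0 : ℕ)) : ZMod 101)) 66] at *
    have h5 : ∀ j : Fin 66, A i j * B j k =
        ((((H5.Fl.drop i.1).getD j.1 0 * (H5.Nl.getD k.1 []).getD j.1 0 : ℕ)) : ZMod 101) := by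
      intro j
      have : (H5.Fl.drop i.1).getD j.1 0 = H5.Fl.getD (i.1 + j.1) 0 := by
        rw [List.getD_eq_getElem?_getD, List.getD_eq_getElem?_getD, List.getElem?_drop]
      rw [this, Nat.cast_mul]
    rw [Finset.sum_congr rfl (fun j _ => h5 j), h4]
    by_cases hik : i = k
    · subst hik; simp
    · have : i.1 ≠ k.1 := fun h => hik (Fin.ext h)
      simp [hik, this]
  have hdet : A.det ≠ 0 := by
    intro h0
    have := congrArg Matrix.det hAB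
    rw [Matrix.det_mul, h0, zero_mul, Matrix.det_one] at this
    exact zero_ne_one this
  refine H5.Rd.ne_zero (H5.Rd.det _ A ?_) hdet
  intro i j
  exact H5.Fm_rd _ (by omega)

end Pool.Agent.H343Y
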