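import Pool.Agent.H343Y.DefsG
import Pool.Agent.H337R2.Asym

/-! STUBS of the project one of ζ(9), ζ(11), …, ζ(21). Never import this file in a finished module. -/

open Polynomial Pool.Agent.H337R2 Filter Topology

namespace Pool.Agent.H343Y

noncomputable section

/-! ### B. The linear form and the contour integral -/

theorem B1_hasSum {n : ℕ} (hn : 2 ≤ n) (u : ℕ → ℚ)
    (hz : ∀ i ∈ ({3, 5, 7, 9, 11, 13, 15} : Finset ℕ), zr (i + 6) = (u i : ℝ))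
    (Q : ℚ[X]) (hQ : Q.natDegree ≤ 66 * n - 68) :
    HasSum (fun t : ℕ => ((PowerSeries.coeff 6 (RS (sN n) (muN n) (PPn n * EE n Q) (t : ℚ)) : ℚ) : ℝ))
      ((NL n u Q : ℚ) : ℝ) := by
  sorry

/-- rotation of the contour (general) -/
theorem V1_rot {b : ℕ} (hb : 3 ≤ b) : ∃ C : ℝ, 0 < C ∧ ∀ (s : Finset ℕ) (μ : ℕ → ℕ) (P : ℚ[X]),
    P.degree < (QQ s μ).degree → (∀ k ∈ s, 1 ≤ k) → ∀ F : ℝ,
    HasSum (fun t : ℕ => ((PowerSeries.coeff (b - 1) (RS s μ P (t : ℚ)) : ℚ) : ℝ)) F → ∀ B : ℝ,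
    (∀ r : ℝ, 0 ≤ r → ‖aeval (zv 0 r) P / aeval (zv 0 r) (QQ s μ)‖ * Real.exp (-(2 * Real.pi * r)) ≤
      B * (1 + r ^ 2)⁻¹) → |F| ≤ C * B := by
  sorry

theorem V2_NL_le : ∃ C : ℝ, 0 < C ∧ ∀ n : ℕ, 2 ≤ n → ∀ u : ℕ → ℚ,
    (∀ i ∈ ({3, 5, 7, 9, 11, 13, 15} : Finset ℕ), zr (i + 6) = (u i : ℝ)) →
    ∀ Q : ℚ[X], Q.natDegree ≤ 66 * n - 68 → ∀ B : ℝ,
    (∀ r : ℝ, 0 ≤ r → ‖Rv n (zv 0 r)‖ * ‖xv n (zv 0 r)‖ ^ 74 * ‖aeval (xv n (zv 0 r)) Q‖ *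
      Real.exp (-(2 * Real.pi * r)) ≤ B * (1 + r ^ 2)⁻¹) →
    |((NL n u Q : ℚ) : ℝ)| ≤ C * B := by
  sorry

/-! ### C. p-adic size of the entries -/

theorem C1_pa_mul {n p : ℕ} [Fact p.Prime] (hn : 1 ≤ n) (hp2 : 16 * n < p ^ 2) (E : ℚ[X]) {k : ℕ}
    (hk : k ∈ sN n) (A : ℚ) (hA : 0 ≤ A) (hE : PB p (p : ℚ) A (TS (-(k : ℚ)) E)) (i : ℕ) :
    padicNorm p (pa (sN n) (muN n) (PPn n * E) k i) ≤ (p : ℚ) ^ (-(eeN p n k) - i : ℤ) * A := by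
  sorry

theorem C1_pa_mul_int {n p : ℕ} [Fact p.Prime] (hn : 1 ≤ n) (E : ℚ[X]) {k : ℕ}
    (hk : k ∈ sN n) (A : ℚ) (hA : 0 ≤ A) (hE : PB p 1 A (TS (-(k : ℚ)) E)) (i : ℕ)
    (hno : ∀ k' ∈ Finset.Icc (3 * n) (13 * n), k' ≠ k → ¬ (p : ℤ) ∣ (k' : ℤ) - k) :
    padicNorm p (pa (sN n) (muN n) (PPn n * E) k i) ≤ padicNorm p (cstN n) * A := by
  sorry

theorem C2_xf_le {n p : ℕ} [Fact p.Prime] (hn : 1 ≤ n) (hp2 : 16 * n < p ^ 2) (q : ℕ) (u : ℕ → ℚ) (hu : UInt q u)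
    (E : ℚ[X]) (W : ℚ) (A : ℕ → ℚ) (hA : ∀ k, 0 ≤ A k)
    (hE : ∀ k ∈ Finset.Icc (3 * n) (13 * n), PB p (p : ℚ) (A k) (TS (-(k : ℚ)) E))
    (hE1 : ∀ k ∈ Finset.Icc (3 * n) (13 * n), PB p 1 1 (TS (-(k : ℚ)) E))
    (hc : padicNorm p (cstN n) ≤ W)
    (h : ∀ k ∈ Finset.Icc (3 * n) (13 * n), (p : ℚ) ^ (6 - eeN p n k) * A k ≤ W ∨
      (k < 2 * n + 1 + p ∧ ∀ k' ∈ Finset.Icc (3 * n) (13 * n), k' ≠ k → ¬ (p : ℤ) ∣ (k' : ℤ) - k)) :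
    padicNorm p ((q : ℚ) * xf n u (PPn n * E)) ≤ W := by
  sorry

theorem C2_xf_le_all {n p : ℕ} [Fact p.Prime] (hn : 1 ≤ n) (hp2 : 16 * n < p ^ 2) (q : ℕ) (u : ℕ → ℚ)
    (hu : UInt q u) (E : ℚ[X]) (W : ℚ) (hW : 0 ≤ W) (A : ℕ → ℚ) (hA : ∀ k, 0 ≤ A k)
    (hE : ∀ k ∈ Finset.Icc (3 * n) (13 * n), PB p (p : ℚ) (A k) (TS (-(k : ℚ)) E))
    (h : ∀ k ∈ Finset.Icc (3 * n) (13 * n), (p : ℚ) ^ (6 - eeN p n k) * A k ≤ W) :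
    padicNorm p ((q : ℚ) * xf n u (PPn n * E)) ≤ W := by
  sorry

/-- crude bound (the exponent `200` is generous) -/
theorem C3_xf_crude {n p : ℕ} [Fact p.Prime] (hn : 1 ≤ n) (q : ℕ) (u : ℕ → ℚ) (hu : UInt q u)
    (E : ℚ[X]) (A : ℚ) (hA : 0 ≤ A)
    (hE : ∀ k ∈ sN n, PB p ((66 * n + 1 : ℕ) : ℚ) A (TS (-(k : ℚ)) E)) :
    padicNorm p ((q : ℚ) * xf n u (PPn n * E)) ≤ ((66 * n + 1 : ℕ) : ℚ) ^ 200 * A := by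
  sorry

theorem C4_CP (n i : ℕ) : (CP n i).Monic ∧ (CP n i).natDegree = i := by
  sorry

/-- here the degrees go up to `33 n`, so that `ρ` must bound the denominators up to `66 n` -/
theorem C4_CP_PB {n p : ℕ} [Fact p.Prime] (hn : 1 ≤ n) (ρ : ℚ) (hρ1 : 1 ≤ ρ)
    (hρ : ∀ l : ℕ, 1 ≤ l → l ≤ 66 * n → (padicNorm p (l : ℚ))⁻¹ ≤ ρ) (i j : ℕ) (hi : 2 * i ≤ 66 * n)
    (hj : 2 * j ≤ 66 * n) (k : ℕ) :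
    PB p ρ (padicNorm p (((2 * i - 1).factorial : ℕ) : ℚ) * padicNorm p (((2 * j - 1).factorial : ℕ) : ℚ))
      (TS (-(k : ℚ)) (EE n (CP n i * CP n j))) := by
  sorry

/-! ### D. p-adic size of the determinant -/

theorem D2_kap_mem {n p k : ℕ} (hp : 0 < p) (hk : k ≤ 16 * n) : kap n p k ∈ Kset n p := by
  sorry

theorem D2_ee_kap {n p k : ℕ} (hn : 1 ≤ n) (hp : 0 < p) (hk : k ≤ 16 * n) : eeN p n (kap n p k) = eeN p n k := by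
  sorry

theorem D3_det_padic {n p : ℕ} [Fact p.Prime] (hn : 1 ≤ n) (hp2 : 16 * n < p ^ 2) (q : ℕ) (u : ℕ → ℚ)
    (hu : UInt q u) (m : ℕ) (μ : ℤ) (S : Finset ℕ) (hS : S ⊆ Kset n p)
    (hcst : padicNorm p (cstN n) ≤ (p : ℚ) ^ μ)
    (h : ∀ k ∈ Finset.Icc (3 * n) (13 * n), kap n p k ∈ S ∨
      (k < 2 * n + 1 + p ∧ ∀ k' ∈ Finset.Icc (3 * n) (13 * n), k' ≠ k → ¬ (p : ℤ) ∣ (k' : ℤ) - k)) :
    padicNorm p ((q : ℚ) ^ m * DET n u m) ≤ (p : ℚ) ^ (m * μ + ∑ κ ∈ S, TT (6 - eeN p n κ - μ)) := by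
  sorry

theorem D4_small_med {n p : ℕ} [Fact p.Prime] (hn : 1 ≤ n) (hp2 : 66 * n < p ^ 2) (q : ℕ) (u : ℕ → ℚ)
    (hu : UInt q u) (m : ℕ) (hm : m ≤ 33 * n) :
    padicNorm p ((q : ℚ) ^ m * DET n u m) ≤
      ((p : ℚ) ^ 22) ^ m * ∏ i ∈ Finset.range m, padicNorm p (((2 * i - 1).factorial : ℕ) : ℚ) ^ 2 := by
  sorry

/-- crude bound for the primes with `p² ≤ 66 n` (the exponent `200` is generous) -/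
theorem D4_small_crude {n p : ℕ} [Fact p.Prime] (hn : 1 ≤ n) (q : ℕ) (u : ℕ → ℚ)
    (hu : UInt q u) (m : ℕ) (hm : m ≤ 33 * n) :
    padicNorm p ((q : ℚ) ^ m * DET n u m) ≤
      (((66 * n + 1 : ℕ) : ℚ) ^ 200) ^ m * ∏ i ∈ Finset.range m, padicNorm p (((2 * i - 1).factorial : ℕ) : ℚ) ^ 2 := by
  sorry

/-! ### E. Class sums -/

theorem E1_Kset_sum {n p : ℕ} (hp : p.Prime) (hp2 : p ≠ 2) (hpn : p < 16 * n) (f : ℕ → ℤ) (M : ℤ) (hM : 0 ≤ M)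
    (hf : ∀ r < p, f r = f ((16 * n - r) % p)) (hfM : ∀ r < p, f r ≤ M) :
    2 * ∑ r ∈ Kset n p, f r ≤ ∑ r ∈ Finset.range p, f r + M := by
  sorry

theorem E2_self {n p a : ℕ} (hn : 1 ≤ n) (hp : p.Prime) (hpn : n < 20 * p) (A : ℕ) (ha : a ≤ 16) (ha0 : 1 ≤ a) :
    ((∑ r ∈ Finset.range p, cnt p A (A + a * n) r ^ 2 : ℕ) : ℝ) ≤ (a * n + 1) + 2 * ∑ j ∈ J, (tn (a * n) j p + 1) := by
  sorry

theorem E2_zz {n p : ℕ} (hn : 1 ≤ n) (hp : p.Prime) (hpn : n < 20 * p) :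
    ((∑ r ∈ Finset.range p, cnt p 1 (2 * n) r * cnt p (14 * n) (16 * n - 1) r : ℕ) : ℝ) ≤
      ∑ j ∈ J, (tn (16 * n) j p - 2 * tn (14 * n) j p + tn (12 * n) j p + 1) := by
  sorry

theorem E2_pz {n p : ℕ} (hn : 1 ≤ n) (hp : p.Prime) (hpn : n < 20 * p) :
    2 * ∑ j ∈ J, (tn (13 * n) j p + tn n j p - tn (11 * n) j p - tn (3 * n) j p) ≤
      ((∑ r ∈ Finset.range p, cnt p (3 * n) (13 * n) r * (cnt p 1 (2 * n) r + cnt p (14 * n) (16 * n - 1) r) : ℕ) : ℝ) := by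
  sorry

theorem E3_A : ∃ K0 : ℝ, ∀ n p : ℕ, p.Prime → 7 ≤ n → n < 20 * p → p < 2 * n → 16 * n < p ^ 2 → ∀ μ : ℤ,
    μ = 7 - (16 * ((10 * n / p : ℕ) : ℤ) - 14 * ((2 * n / p : ℕ) : ℤ)) →
    ((((33 * (n - 1) : ℕ) : ℤ) * μ + ∑ κ ∈ Kset n p, TT (6 - eeN p n κ - μ) : ℤ) : ℝ) ≤ EA n p + K0 := by
  sorry

theorem E3_B : ∃ K0 : ℝ, ∀ n p : ℕ, p.Prime → 7 ≤ n → 2 * n ≤ p → 2 * p < 15 * n → 16 * n < p ^ 2 → ∀ μ : ℤ,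
    μ = 7 - (16 * ((10 * n / p : ℕ) : ℤ) - 14 * ((2 * n / p : ℕ) : ℤ)) →
    ((((33 * (n - 1) : ℕ) : ℤ) * μ + ∑ κ ∈ Kset n p, TT (6 - eeN p n κ - μ) : ℤ) : ℝ) ≤ EB n p + K0 := by
  sorry

theorem E3_C : ∃ K0 : ℝ, ∀ n p : ℕ, p.Prime → 7 ≤ n → 15 * n ≤ 2 * p → p < 11 * n → 16 * n < p ^ 2 → ∀ μ : ℤ,
    μ = - (16 * ((10 * n / p : ℕ) : ℤ)) →
    ((((33 * (n - 1) : ℕ) : ℤ) * μ + ∑ κ ∈ Kfull n p, TT (6 - eeN p n κ - μ) : ℤ) : ℝ) ≤ EC n p + K0 := by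
  sorry

/-- p-adic size of the determinant, all primes `p > n/20` -/
theorem E4_padic : ∃ K0 : ℝ, 0 ≤ K0 ∧ ∀ n : ℕ, 7 ≤ n → ∀ p : ℕ, p.Prime → n < 20 * p → 16 * n < p ^ 2 →
    ∀ (q : ℕ) (u : ℕ → ℚ), UInt q u →
    ((padicNorm p ((q : ℚ) ^ (33 * (n - 1)) * DET n u (33 * (n - 1))) : ℚ) : ℝ) ≤
      if p < 11 * n then (p : ℝ) ^ (EW n p + K0) else 1 := by
  sorry

/-! ### F. Prime number theorem sums -/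

theorem F1_tent (α j : ℕ) (hj : 1 ≤ j) (lo hi : ℚ) (h0 : 0 < lo) (h1 : lo ≤ hi) (h2 : hi ≤ 66) :
    Tendsto (fun n : ℕ => (∑ p ∈ PS lo hi n, tn (α * n) j p * Real.log p) / (n : ℝ) ^ 2) atTop
      (𝓝 ((It α j lo hi : ℚ) : ℝ)) := by
  sorry

theorem F1_const (lo hi : ℚ) (h0 : 0 < lo) (h1 : lo ≤ hi) (h2 : hi ≤ 66) :
    Tendsto (fun n : ℕ => (∑ p ∈ PS lo hi n, (n : ℝ) * Real.log p) / (n : ℝ) ^ 2) atTop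
      (𝓝 (((hi - lo : ℚ)) : ℝ)) := by
  sorry

theorem F1_floor (α : ℕ) (lo hi : ℚ) (h0 : 1 / 20 ≤ lo) (h1 : lo ≤ hi) (h2 : hi ≤ 66) (hα : α ≤ 66) :
    Tendsto (fun n : ℕ => (∑ p ∈ PS lo hi n, (n : ℝ) * ((α * n / p : ℕ) : ℝ) * Real.log p) / (n : ℝ) ^ 2) atTop
      (𝓝 ((Ifl α lo hi : ℚ) : ℝ)) := by
  sorry

/-- the limits -/
def LA : ℚ := 231 * (2 - 1 / 20) - 528 * Ifl 10 (1 / 20) 2 + 462 * Ifl 2 (1 / 20) 2 +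
  (64 * (10 * (2 - 1 / 20) + 2 * ∑ j ∈ J, It 10 j (1 / 20) 2)
    - 112 * ∑ j ∈ J, (It 13 j (1 / 20) 2 + It 1 j (1 / 20) 2 - It 11 j (1 / 20) 2 - It 3 j (1 / 20) 2)
    + 49 / 4 * (4 * (2 - 1 / 20) + 4 * ∑ j ∈ J, It 2 j (1 / 20) 2
      + 2 * ∑ j ∈ J, (It 16 j (1 / 20) 2 - 2 * It 14 j (1 / 20) 2 + It 12 j (1 / 20) 2))) / 2

def LB : ℚ := 231 * (11 / 2) - 528 * Ifl 10 2 (15 / 2) +
  (64 * (10 * (11 / 2) + 2 * ∑ j ∈ J, It 10 j 2 (15 / 2))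
    - 112 * ∑ j ∈ J, (It 13 j 2 (15 / 2) + It 1 j 2 (15 / 2) - It 11 j 2 (15 / 2) - It 3 j 2 (15 / 2))
    + (48 * (11 / 2) + 25 * ∑ j ∈ J, (It 16 j 2 (15 / 2) - 2 * It 14 j 2 (15 / 2) + It 12 j 2 (15 / 2)))) / 2

def LC : ℚ := - 528 * Ifl 10 (15 / 2) 11 + 58 * It 10 1 (15 / 2) 11 + 132 * It 11 1 (15 / 2) 11

def LU : ℚ := ∑ j ∈ J, It 66 j (1 / 20) 66

theorem F2_A : Tendsto (fun n : ℕ => (∑ p ∈ PS (1 / 20) 2 n, EA n p * Real.log p) / (n : ℝ) ^ 2) atTop (𝓝 (LA : ℝ)) := by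
  sorry

theorem F2_B : Tendsto (fun n : ℕ => (∑ p ∈ PS 2 (15 / 2) n, EB n p * Real.log p) / (n : ℝ) ^ 2) atTop (𝓝 (LB : ℝ)) := by
  sorry

theorem F2_C : Tendsto (fun n : ℕ => (∑ p ∈ PS (15 / 2) 11 n, EC n p * Real.log p) / (n : ℝ) ^ 2) atTop (𝓝 (LC : ℝ)) := by
  sorry

theorem F2_U : Tendsto (fun n : ℕ => (∑ p ∈ PS (1 / 20) 66 n, (∑ j ∈ J, tn (66 * n) j p) * Real.log p) / (n : ℝ) ^ 2)
    atTop (𝓝 (LU : ℝ)) := by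
  sorry

theorem F3_numeric : LA + LB + LC + LU ≤ 4844 := by
  sorry

/-- small primes: trivial exponents -/
theorem F4_small : ∀ ε : ℝ, 0 < ε → ∀ᶠ n : ℕ in atTop,
    33 * (n : ℝ) * (∑ p ∈ (Finset.range (n + 1)).filter (fun p : ℕ => p.Prime ∧ p ^ 2 ≤ 66 * n),
        200 * Real.log (66 * n + 1) +
      ∑ p ∈ (Finset.range (n + 1)).filter (fun p : ℕ => p.Prime ∧ 20 * p ≤ n), 22 * Real.log p) ≤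
    (363 / 10 + ε) * (n : ℝ) ^ 2 := by
  sorry

/-- factorials: the small prime part -/
theorem F5_fact : ∀ᶠ n : ℕ in atTop,
    ∑ p ∈ (Finset.range (n + 1)).filter (fun p : ℕ => p.Prime ∧ 20 * p ≤ n), ∑ i ∈ Finset.range (33 * (n - 1)),
      Real.log ((padicNorm p (((2 * i - 1).factorial : ℕ) : ℚ) ^ 2 : ℚ) : ℝ) ≤
    - 2 * ∑ i ∈ Finset.range (33 * (n - 1)), Real.log ((2 * i - 1).factorial : ℝ) +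
      ∑ p ∈ PS (1 / 20) 66 n, (∑ j ∈ J, tn (66 * n) j p) * Real.log p := by
  sorry

theorem F6_superfac : ∀ ε : ℝ, 0 < ε → ∀ᶠ n : ℕ in atTop,
    2178 * (n : ℝ) ^ 2 * Real.log n + (2178 * Real.log 66 - 3267 - ε) * (n : ℝ) ^ 2 ≤
      2 * ∑ i ∈ Finset.range (33 * (n - 1)), Real.log ((2 * i - 1).factorial : ℝ) := by
  sorry

/-! ### H. Non-vanishing -/

/-- principal coefficients in the classes `±r` -/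
theorem H2_pa {p : ℕ} [Fact p.Prime] (hp : 100 ≤ p) (r : ℕ) (hr1 : 1 ≤ r) (hr2 : 2 * r < p) :
    ∃ w : ℚ, padicNorm p w = 1 ∧ ∀ e j i : ℕ, e ≤ 130 → 3 ≤ j → j ≤ 12 → 1 ≤ i → i ≤ 16 →
      padicNorm p (pa (sN p) (muN p) (PPn p * EE p (XN p r ^ e *
        ∏ r' ∈ (Finset.Icc 1 ((p - 1) / 2)).erase r, XN p r' ^ 132)) (r + j * p) i / (p : ℚ) ^ (i + e) -
        w * (-2 * r) ^ e * PowerSeries.coeff (16 - i) (ser j e)) ≤ (p : ℚ)⁻¹ := by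
  sorry

theorem H3_diag {p : ℕ} [Fact p.Prime] (hp : 100 ≤ p) (u : ℕ → ℚ) (hu : ∀ i, padicNorm p (u i) ≤ 1)
    (r : ℕ) (hr1 : 1 ≤ r) (hr2 : 2 * r < p) :
    ∃ w : ℚ, padicNorm p w = 1 ∧ ∀ e : ℕ, e ≤ 130 →
      padicNorm p ((p : ℚ) ^ (6 - (e : ℤ)) * NL p u (XN p r ^ e *
        ∏ r' ∈ (Finset.Icc 1 ((p - 1) / 2)).erase r, XN p r' ^ 132) -
        w * (-2 * r) ^ e * Fm e) ≤ (p : ℚ)⁻¹ := by
  sorry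

theorem H4_offdiag {p : ℕ} [Fact p.Prime] (hp : 100 ≤ p) (u : ℕ → ℚ) (hu : ∀ i, padicNorm p (u i) ≤ 1)
    (r s l l' : ℕ) (hr1 : 1 ≤ r) (hr2 : 2 * r < p) (hs1 : 1 ≤ s) (hs2 : 2 * s < p) (hrs : r ≠ s)
    (hl : l < 66) (hl' : l' < 66) :
    padicNorm p ((p : ℚ) ^ (6 - (l : ℤ) - (l' : ℤ)) * NL p u
      ((XN p r ^ l * ∏ r' ∈ (Finset.Icc 1 ((p - 1) / 2)).erase r, XN p r' ^ 66) *
       (XN p s ^ l' * ∏ r' ∈ (Finset.Icc 1 ((p - 1) / 2)).erase s, XN p r' ^ 66))) ≤ (p : ℚ)⁻¹ := by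
  sorry

theorem H5_local : (Matrix.of fun l l' : Fin 66 => Fm (l.1 + l'.1)).det ≠ 0 := by
  sorry

theorem H6_nonvanish (u : ℕ → ℚ) (q : ℕ) (hu : UInt q u) : ∃ p0 : ℕ, ∀ p : ℕ, p0 ≤ p → p.Prime →
    DET p u (33 * (p - 1)) ≠ 0 := by
  sorry

end

end Pool.Agent.H343Y
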